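import Mathlib

set_option autoImplicit false

namespace Pool.Agent.Lib_helper29.OmegaTr

open MvPolynomial

section general

variable {R : Type} [CommRing R]

/-- The subring `S = {x : ω(x) = x}` of `R`, for a ring endomorphism `ω`. -/
def fixed (ω : R →+* R) : Subring R := RingHom.eqLocus ω (RingHom.id R)

theorem fixed_coe (ω : R →+* R) (s : fixed ω) : ω (s : R) = s := s.2

/-- The ideal `I = {x + ω(x) : x ∈ R} ∩ S` of `S`.  (If `ω` is an involution, all `x + ω(x)` lie
in `S`.) -/
def sumIdeal (ω : R →+* R) : Ideal (fixed ω) where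
  carrier := {y | ∃ x : R, (y : R) = x + ω x}
  add_mem' := by
    rintro a b ⟨x, hx⟩ ⟨y, hy⟩
    refine ⟨x + y, ?_⟩
    rw [Subring.coe_add, hx, hy, map_add]
    ring
  zero_mem' := ⟨0, by simp⟩
  smul_mem' := by
    rintro c a ⟨x, hx⟩
    refine ⟨(c : R) * x, ?_⟩
    rw [smul_eq_mul, Subring.coe_mul, hx, map_mul, fixed_coe]
    ring

/-- `ω` is `n`-transverse: `R Iⁿ ∩ S = Iⁿ`. -/
def NTransverse (ω : R →+* R) (n : ℕ) : Prop :=
  Ideal.comap (fixed ω).subtype (Ideal.map (fixed ω).subtype (sumIdeal ω ^ n)) = sumIdeal ω ^ n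

end general

/-- The ring of symmetric functions over `𝔽₂`, as the polynomial ring in the elementary symmetric
functions: the variable `X k` is `e_{k+1}`. -/
abbrev Sym := MvPolynomial ℕ (ZMod 2)

/-- The elementary symmetric functions `e_0 = 1, e_1, e_2, …`. -/
noncomputable def e : ℕ → Sym
  | 0 => 1
  | k + 1 => X k

/-- The complete homogeneous symmetric functions: `h_0 = 1` and `∑_{i=0}^{k} e_i h_{k-i} = 0` for
`k ≥ 1`, solved for `h_k`. -/
noncomputable def h : ℕ → Sym
  | 0 => 1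
  | k + 1 => -∑ j : Fin (k + 1), e (k + 1 - j) * h j

/-- The ring homomorphism `ω` with `ω(e_k) = h_k` for all `k ≥ 1`. -/
noncomputable def omega : Sym →+* Sym :=
  ((aeval fun k => h (k + 1) : Sym →ₐ[ZMod 2] Sym) : Sym →+* Sym)

end Pool.Agent.Lib_helper29.OmegaTr
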