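import Mathlib
import Pool.Agent.Lib_helper29.OmegaDefs

set_option autoImplicit false

namespace Pool.Agent.Lib_helper29.OmegaTr

open MvPolynomial

/-- The fixed subring of `ω`. -/
noncomputable abbrev S : Subring Sym := fixed omega

/-- The ideal `{x + ω x}` of the fixed subring. -/
noncomputable abbrev I : Ideal S := sumIdeal omega

theorem omega_coe (s : S) : omega (s : Sym) = s := s.2

theorem h_zero : h 0 = 1 := by rw [h]

theorem h_succ (k : ℕ) : h (k + 1) = -∑ j : Fin (k + 1), e (k + 1 - j) * h j := by rw [h]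

theorem e_zero : e 0 = 1 := rfl

theorem e_succ (k : ℕ) : e (k + 1) = X k := rfl

theorem two_zero (x : Sym) : x + x = 0 := CharTwo.add_self_eq_zero x

theorem rel_succ (k : ℕ) : ∑ i ∈ Finset.range (k + 2), e (k + 1 - i) * h i = 0 := by
  rw [Finset.sum_range_succ, h_succ, Finset.sum_range]
  simp [e_zero]

/-- generating functions -/
noncomputable def E : PowerSeries Sym := PowerSeries.mk e

noncomputable def H : PowerSeries Sym := PowerSeries.mk h

theorem E_mul_H : E * H = 1 := by
  refine PowerSeries.ext fun n => ?_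
  rw [mul_comm, PowerSeries.coeff_mul, PowerSeries.coeff_one]
  rcases n with _ | k
  · simp [E, H, h_zero, e_zero]
  · rw [if_neg (Nat.succ_ne_zero k), Finset.Nat.sum_antidiagonal_eq_sum_range_succ_mk]
    refine Eq.trans ?_ (rel_succ k)
    refine Finset.sum_congr rfl fun i _ => ?_
    simp only [E, H, PowerSeries.coeff_mk]
    rw [mul_comm]

theorem omega_e (k : ℕ) : omega (e k) = h k := by
  rcases k with _ | k
  · rw [e_zero, h_zero, map_one]
  · rw [e_succ]
    simp [omega]

theorem omega_h (k : ℕ) : omega (h k) = e k := by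
  have h1 : PowerSeries.map omega E = H := by
    ext n
    simp [E, H, omega_e]
  have h2 : H * PowerSeries.map omega H = 1 := by
    have h5 : H * PowerSeries.map omega H = PowerSeries.map omega (E * H) := by
      rw [map_mul, h1]
    rw [h5, E_mul_H, map_one]
  have h3 : PowerSeries.map omega H = E := by
    calc PowerSeries.map omega H = (E * H) * PowerSeries.map omega H := by rw [E_mul_H, one_mul]
      _ = E * (H * PowerSeries.map omega H) := by ring
      _ = E := by rw [h2, mul_one]
  have h4 := congrArg (PowerSeries.coeff k) h3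
  simpa [E, H] using h4

theorem omega_omega (x : Sym) : omega (omega x) = x := by
  have : omega.comp omega = RingHom.id Sym := by
    apply MvPolynomial.ringHom_ext
    · intro r
      simp [omega]
    · intro i
      rw [RingHom.comp_apply, ← e_succ, omega_e, omega_h, RingHom.id_apply]
  exact congrFun (congrArg DFunLike.coe this) x

theorem coeff_E_sq (n : ℕ) :
    PowerSeries.coeff n (E ^ 2) = if 2 ∣ n then e (n / 2) ^ 2 else 0 := by
  have := MvPowerSeries.map_frobenius_expand (σ := Unit) (R := Sym) 2 (by norm_num) (f := E)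
  have h2 : PowerSeries.map (frobenius Sym 2) (PowerSeries.expand 2 (by norm_num) E) = E ^ 2 := this
  rw [← h2, PowerSeries.coeff_map, PowerSeries.coeff_expand]
  split_ifs with hd
  · simp [E, frobenius_def]
  · simp

/-- `e_{2i+2} = ∑_{j ≤ i+1} e_j² h_{2(i+1-j)}` -/
theorem e_even (m : ℕ) : e (2 * m) = ∑ j ∈ Finset.range (m + 1), e j ^ 2 * h (2 * (m - j)) := by
  have h1 : E = E ^ 2 * H := by
    rw [pow_two, mul_assoc, E_mul_H, mul_one]
  have h2 : e (2 * m) = PowerSeries.coeff (2 * m) E := by simp [E]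
  rw [h2, h1, PowerSeries.coeff_mul, Finset.Nat.sum_antidiagonal_eq_sum_range_succ_mk]
  have h3 : ∀ j ∈ Finset.range (2 * m).succ, (PowerSeries.coeff j) (E ^ 2) *
      (PowerSeries.coeff (2 * m - j)) H =
      if 2 ∣ j then e (j / 2) ^ 2 * h (2 * (m - j / 2)) else 0 := by
    intro j hj
    rw [coeff_E_sq]
    split_ifs with hd
    · obtain ⟨c, rfl⟩ := hd
      simp [H, Nat.mul_sub]
    · simp
  rw [Finset.sum_congr rfl h3, ← Finset.sum_filter]
  symm
  apply Finset.sum_bij (fun j _ => 2 * j)
  · intro j hj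
    simp only [Finset.mem_filter, Finset.mem_range] at *
    exact ⟨by omega, Dvd.intro _ rfl⟩
  · intro a _ b _ hab
    simpa using hab
  · intro b hb
    simp only [Finset.mem_filter, Finset.mem_range] at hb
    obtain ⟨c, rfl⟩ := hb.2
    exact ⟨c, by simp only [Finset.mem_range]; omega, rfl⟩
  · intro j hj
    simp

/-- The elements `y_i = d(e_{2i+2})`. -/
noncomputable def u (i : ℕ) : Sym := e (2 * (i + 1))

noncomputable def y (i : ℕ) : Sym := u i + omega (u i)

theorem omega_y (i : ℕ) : omega (y i) = y i := by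
  rw [y, map_add, omega_omega, add_comm]

theorem omega_u (i : ℕ) : omega (u i) = u i + y i := by
  rw [y, ← add_assoc, two_zero, zero_add]

/-- `e_{i+1}² = y_i + ∑_{1 ≤ j ≤ i} e_j² h_{2(i+1-j)}` -/
theorem sq_eq (i : ℕ) :
    e (i + 1) ^ 2 = y i + ∑ j ∈ Finset.range i, e (j + 1) ^ 2 * h (2 * (i - j)) := by
  have h1 := e_even (i + 1)
  rw [Finset.sum_range_succ', Finset.sum_range_succ] at h1
  simp only [e_zero, one_pow, one_mul, Nat.sub_self, mul_zero, h_zero, mul_one,
    Nat.add_sub_add_right, Nat.sub_zero] at h1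
  have h2 : y i = e (2 * (i + 1)) + h (2 * (i + 1)) := by
    rw [y, u, omega_e]
  rw [h2, h1]
  have h3 := two_zero (h (2 * (i + 1)))
  have h4 := two_zero (∑ j ∈ Finset.range i, e (j + 1) ^ 2 * h (2 * (i - j)))
  linear_combination (exp := 1) (-1 : Sym) * h3 - h4

/-- the invariant odd generators -/
noncomputable def p (j : ℕ) : Sym :=
  ∑ i ∈ Finset.range (2 * j + 1), ((i + 1 : ℕ) : Sym) * (e (i + 1) * h (2 * j - i))

theorem p_eq_coeff (j : ℕ) : p j =
    PowerSeries.coeff (2 * j) (PowerSeries.derivative Sym E * H) := by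
  rw [PowerSeries.coeff_mul, Finset.Nat.sum_antidiagonal_eq_sum_range_succ_mk, p]
  refine Finset.sum_congr rfl fun i _ => ?_
  simp only [PowerSeries.coeff_derivative, E, H, PowerSeries.coeff_mk]
  push_cast
  ring

theorem two_zero' (x : PowerSeries Sym) : x + x = 0 := by
  ext n
  rw [map_add, two_zero, map_zero]

theorem omega_p (j : ℕ) : omega (p j) = p j := by
  have h1 : PowerSeries.derivative Sym E * H = PowerSeries.derivative Sym H * E := by
    have h2 : PowerSeries.derivative Sym (E * H) = 0 := by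
      rw [E_mul_H, PowerSeries.derivative_one]
    rw [Derivation.leibniz, smul_eq_mul, smul_eq_mul] at h2
    have h3 := two_zero' (PowerSeries.derivative Sym H * E)
    linear_combination h2 - h3
  have h4 : omega (p j) = PowerSeries.coeff (2 * j) (PowerSeries.derivative Sym H * E) := by
    rw [PowerSeries.coeff_mul, Finset.Nat.sum_antidiagonal_eq_sum_range_succ_mk, p, map_sum]
    refine Finset.sum_congr rfl fun i _ => ?_
    rw [map_mul, map_mul, map_natCast, omega_e, omega_h]
    simp only [PowerSeries.coeff_derivative, E, H, PowerSeries.coeff_mk]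
    push_cast
    ring
  rw [h4, ← h1, ← p_eq_coeff]


/-! ### The weight filtration -/

abbrev wmap : ℕ → ℕ := fun k => k + 1

noncomputable def W (N : ℕ) : Submodule (ZMod 2) Sym :=
  restrictSupport (ZMod 2) {m : ℕ →₀ ℕ | Finsupp.weight wmap m ≤ N}

theorem mem_W {N : ℕ} {f : Sym} : f ∈ W N ↔ ∀ m ∈ f.support, Finsupp.weight wmap m ≤ N := by
  rw [W, mem_restrictSupport_iff]
  rfl

theorem W_mono {N M : ℕ} (hNM : N ≤ M) : W N ≤ W M := by
  intro f hf
  rw [mem_W] at *
  intro m hm
  exact (hf m hm).trans hNM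

theorem W_mul {a b : ℕ} {f g : Sym} (hf : f ∈ W a) (hg : g ∈ W b) : f * g ∈ W (a + b) := by
  classical
  rw [mem_W] at *
  intro m hm
  have := MvPolynomial.support_mul f g hm
  rw [Finset.mem_add] at this
  obtain ⟨m1, h1, m2, h2, rfl⟩ := this
  rw [map_add]
  exact add_le_add (hf m1 h1) (hg m2 h2)

theorem one_mem_W (N : ℕ) : (1 : Sym) ∈ W N := by
  rw [mem_W]
  intro m hm
  have : m = 0 := by
    by_contra hne
    rw [mem_support_iff, coeff_one, if_neg (Ne.symm hne)] at hm
    exact hm rfl
  rw [this, map_zero]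
  exact Nat.zero_le N

theorem natCast_mem_W (n N : ℕ) : (n : Sym) ∈ W N := by
  rw [← nsmul_one]
  exact Submodule.smul_of_tower_mem _ n (one_mem_W N)

theorem e_mem_W (k : ℕ) : e k ∈ W k := by
  rcases k with _ | k
  · exact one_mem_W 0
  · rw [e_succ, mem_W]
    intro m hm
    rw [support_X, Finset.mem_singleton] at hm
    rw [hm, Finsupp.weight_single]
    simp

theorem h_mem_W (k : ℕ) : h k ∈ W k := by
  induction k using Nat.strong_induction_on with
  | _ k ih =>
    rcases k with _ | k
    · rw [h_zero]; exact one_mem_W 0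
    · rw [h_succ]
      refine Submodule.neg_mem _ (Submodule.sum_mem _ fun j _ => ?_)
      have := W_mul (e_mem_W (k + 1 - j)) (ih j j.2)
      have hj : (k + 1 - (j : ℕ)) + j = k + 1 := Nat.sub_add_cancel j.2.le
      rwa [hj] at this

theorem u_mem_W (i : ℕ) : u i ∈ W (2 * (i + 1)) := e_mem_W _

theorem y_mem_W (i : ℕ) : y i ∈ W (2 * (i + 1)) := by
  rw [y, u, omega_e]
  exact Submodule.add_mem _ (e_mem_W _) (h_mem_W _)

theorem p_mem_W (j : ℕ) : p j ∈ W (2 * j + 1) := by
  rw [p]
  refine Submodule.sum_mem _ fun i hi => ?_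
  rw [Finset.mem_range] at hi
  refine W_mono ?_ (W_mul (natCast_mem_W (i + 1) 0) (W_mul (e_mem_W (i + 1)) (h_mem_W (2 * j - i))))
  omega

/-! ### The basis -/

abbrev Idx := (ℕ →₀ ℕ) × Finset ℕ × Finset ℕ

noncomputable def beta (t : Idx) : Sym :=
  (t.1.prod fun i n => y i ^ n) * ((∏ i ∈ t.2.1, u i) * ∏ j ∈ t.2.2, p j)

noncomputable def wt (t : Idx) : ℕ :=
  Finsupp.weight (fun i => 2 * (i + 1)) t.1 + (∑ i ∈ t.2.1, 2 * (i + 1) + ∑ j ∈ t.2.2, (2 * j + 1))

theorem beta_mem_W (t : Idx) : beta t ∈ W (wt t) := by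
  have h1 : ∀ (s : Finset ℕ) (f : ℕ → Sym) (w : ℕ → ℕ), (∀ i, f i ∈ W (w i)) →
      ∏ i ∈ s, f i ∈ W (∑ i ∈ s, w i) := by
    intro s f w hf
    induction s using Finset.cons_induction with
    | empty => simpa using one_mem_W 0
    | cons a s ha ih =>
      rw [Finset.prod_cons, Finset.sum_cons]
      exact W_mul (hf a) ih
  have h2 : (t.1.prod fun i n => y i ^ n) ∈ W (Finsupp.weight (fun i => 2 * (i + 1)) t.1) := by
    rw [Finsupp.prod, Finsupp.weight_apply, Finsupp.sum]
    have h3 : ∀ (x : Sym) (a n : ℕ), x ∈ W a → x ^ n ∈ W (n * a) := by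
      intro x a n hx
      induction n with
      | zero => simpa using one_mem_W 0
      | succ n ih =>
        rw [pow_succ, Nat.succ_mul]
        exact W_mul ih hx
    exact h1 _ _ _ fun i => h3 _ _ _ (y_mem_W i)
  exact W_mul h2 (W_mul (h1 _ _ _ u_mem_W) (h1 _ _ _ p_mem_W))

noncomputable def V (N : ℕ) : Submodule (ZMod 2) Sym :=
  Submodule.span (ZMod 2) (beta '' {t : Idx | wt t ≤ N})

theorem beta_mem_V {t : Idx} {N : ℕ} (ht : wt t ≤ N) : beta t ∈ V N :=
  Submodule.subset_span ⟨t, ht, rfl⟩

theorem V_mono {N M : ℕ} (hNM : N ≤ M) : V N ≤ V M :=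
  Submodule.span_mono (Set.image_mono fun _ ht => le_trans ht hNM)

theorem V_induct {N : ℕ} (z : Sym) (P : Submodule (ZMod 2) Sym)
    (hz : ∀ t : Idx, wt t ≤ N → z * beta t ∈ P) : ∀ g ∈ V N, z * g ∈ P := by
  intro g hg
  rw [V] at hg
  induction hg using Submodule.span_induction with
  | mem x hx =>
    obtain ⟨t, ht, rfl⟩ := hx
    exact hz t ht
  | zero => rw [mul_zero]; exact Submodule.zero_mem _
  | add x y _ _ hx hy => rw [mul_add]; exact Submodule.add_mem _ hx hy
  | smul c x _ hx => rw [mul_smul_comm]; exact Submodule.smul_mem _ _ hx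

theorem V_le_W (N : ℕ) : V N ≤ W N := by
  rw [V, Submodule.span_le]
  rintro _ ⟨t, ht, rfl⟩
  exact W_mono ht (beta_mem_W t)

theorem y_pow_mul_beta (a b : ℕ →₀ ℕ) (J K : Finset ℕ) :
    (a.prod fun i n => y i ^ n) * beta (b, J, K) = beta (a + b, J, K) := by
  simp only [beta]
  rw [Finsupp.prod_add_index' (fun i => pow_zero _) (fun i m n => pow_add _ _ _)]
  ring

theorem y_mul_beta (i : ℕ) (a : ℕ →₀ ℕ) (J K : Finset ℕ) :
    y i * beta (a, J, K) = beta (Finsupp.single i 1 + a, J, K) := by
  rw [← y_pow_mul_beta, Finsupp.prod_single_index (h := fun i n => y i ^ n) (pow_zero _), pow_one]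

theorem wt_single_add (i : ℕ) (a : ℕ →₀ ℕ) (J K : Finset ℕ) :
    wt (Finsupp.single i 1 + a, J, K) = 2 * (i + 1) + wt (a, J, K) := by
  simp only [wt, map_add, Finsupp.weight_single]
  simp
  ring

theorem y_mul_V (i M : ℕ) : ∀ g ∈ V M, y i * g ∈ V (M + 2 * (i + 1)) := by
  refine V_induct _ _ ?_
  rintro ⟨a, J, K⟩ ht
  rw [y_mul_beta]
  apply beta_mem_V
  rw [wt_single_add]
  omega

section step

variable {N : ℕ} (IH : ∀ M < N, W M ≤ V M)

include IH

theorem sq_mul_mem (k : ℕ) : ∀ M, M + 2 * (k + 1) ≤ N → ∀ g ∈ W M, e (k + 1) ^ 2 * g ∈ V N := by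
  induction k using Nat.strong_induction_on with
  | _ k ih =>
    intro M hM g hg
    rw [sq_eq, add_mul, Finset.sum_mul]
    refine Submodule.add_mem _ ?_ (Submodule.sum_mem _ fun j hj => ?_)
    · exact V_mono hM (y_mul_V k M g (IH M (by omega) hg))
    · rw [Finset.mem_range] at hj
      rw [mul_assoc]
      exact ih j hj (2 * (k - j) + M) (by omega) _ (W_mul (h_mem_W _) hg)

theorem p_sq_mul_mem (j : ℕ) : ∀ M, M + 2 * (2 * j + 1) ≤ N → ∀ g ∈ W M, p j ^ 2 * g ∈ V N := by
  intro M hM g hg
  rw [p, CharTwo.sum_sq, Finset.sum_mul]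
  refine Submodule.sum_mem _ fun i hi => ?_
  rw [Finset.mem_range] at hi
  have h1 : (((i + 1 : ℕ) : Sym) * (e (i + 1) * h (2 * j - i))) ^ 2 * g =
      e (i + 1) ^ 2 * (((i + 1 : ℕ) : Sym) ^ 2 * (h (2 * j - i) * (h (2 * j - i) * g))) := by
    ring
  rw [h1]
  refine sq_mul_mem IH i (0 + ((2 * j - i) + ((2 * j - i) + M))) (by omega) _ ?_
  refine W_mul ?_ (W_mul (h_mem_W _) (W_mul (h_mem_W _) hg))
  rw [pow_two]
  exact W_mul (natCast_mem_W _ 0) (natCast_mem_W _ 0)

theorem u_mul_V (i M : ℕ) (hM : M + 2 * (i + 1) ≤ N) : ∀ g ∈ V M, u i * g ∈ V N := by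
  classical
  refine V_induct _ _ ?_
  rintro ⟨a, J, K⟩ ht
  by_cases hi : i ∈ J
  · have h1 : beta (a, J, K) = u i * beta (a, J.erase i, K) := by
      simp only [beta]
      rw [← Finset.mul_prod_erase J _ hi]
      ring
    have h2 : wt (a, J, K) = 2 * (i + 1) + wt (a, J.erase i, K) := by
      simp only [wt]
      rw [← Finset.add_sum_erase J _ hi]
      ring
    rw [h1]
    have h3 : u i * (u i * beta (a, J.erase i, K)) =
        e ((2 * i + 1) + 1) ^ 2 * beta (a, J.erase i, K) := by
      rw [u]; ring_nf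
    rw [h3]
    exact sq_mul_mem IH (2 * i + 1) (wt (a, J.erase i, K)) (by omega) _ (beta_mem_W _)
  · have h1 : u i * beta (a, J, K) = beta (a, insert i J, K) := by
      simp only [beta]
      rw [Finset.prod_insert hi]
      ring
    rw [h1]
    apply beta_mem_V
    have h2 : wt (a, insert i J, K) = 2 * (i + 1) + wt (a, J, K) := by
      simp only [wt]
      rw [Finset.sum_insert hi]
      ring
    omega

theorem p_mul_V (i M : ℕ) (hM : M + (2 * i + 1) ≤ N) : ∀ g ∈ V M, p i * g ∈ V N := by
  classical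
  refine V_induct _ _ ?_
  rintro ⟨a, J, K⟩ ht
  by_cases hi : i ∈ K
  · have h1 : beta (a, J, K) = p i * beta (a, J, K.erase i) := by
      simp only [beta]
      rw [← Finset.mul_prod_erase K _ hi]
      ring
    have h2 : wt (a, J, K) = (2 * i + 1) + wt (a, J, K.erase i) := by
      simp only [wt]
      rw [← Finset.add_sum_erase K _ hi]
      ring
    rw [h1]
    have h3 : p i * (p i * beta (a, J, K.erase i)) = p i ^ 2 * beta (a, J, K.erase i) := by
      ring
    rw [h3]
    exact p_sq_mul_mem IH i (wt (a, J, K.erase i)) (by omega) _ (beta_mem_W _)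
  · have h1 : p i * beta (a, J, K) = beta (a, J, insert i K) := by
      simp only [beta]
      rw [Finset.prod_insert hi]
      ring
    rw [h1]
    apply beta_mem_V
    have h2 : wt (a, J, insert i K) = (2 * i + 1) + wt (a, J, K) := by
      simp only [wt]
      rw [Finset.sum_insert hi]
      ring
    omega

theorem e_mul_mem (k : ℕ) : ∀ M, M + (k + 1) ≤ N → ∀ g ∈ W M, e (k + 1) * g ∈ V N := by
  induction k using Nat.strong_induction_on with
  | _ k ih =>
    intro M hM g hg
    obtain ⟨i, hi | hi⟩ := Nat.even_or_odd' k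
    · have h1 : e (k + 1) = p i - ∑ l ∈ Finset.range (2 * i),
          ((l + 1 : ℕ) : Sym) * (e (l + 1) * h (2 * i - l)) := by
        rw [p, Finset.sum_range_succ, Nat.sub_self, h_zero, mul_one, hi, add_sub_cancel_left]
        have h2 : ((2 * i + 1 : ℕ) : Sym) = 1 := by
          push_cast
          have h5 : (2 : Sym) = 0 := CharTwo.two_eq_zero
          linear_combination (i : Sym) * h5
        rw [h2, one_mul]
      rw [h1, sub_mul, Finset.sum_mul]
      refine Submodule.sub_mem _ ?_ (Submodule.sum_mem _ fun l hl => ?_)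
      · exact p_mul_V IH i M (by omega) g (IH M (by omega) hg)
      · rw [Finset.mem_range] at hl
        have h3 : ((l + 1 : ℕ) : Sym) * (e (l + 1) * h (2 * i - l)) * g =
            e (l + 1) * (((l + 1 : ℕ) : Sym) * (h (2 * i - l) * g)) := by ring
        rw [h3]
        exact ih l (by omega) (0 + ((2 * i - l) + M)) (by omega) _
          (W_mul (natCast_mem_W _ 0) (W_mul (h_mem_W _) hg))
    · have h1 : e (k + 1) = u i := by
        rw [u]
        congr 1
        omega
      rw [h1]
      exact u_mul_V IH i M (by omega) g (IH M (by omega) hg)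

theorem W_le_V_step : W N ≤ V N := by
  classical
  have key : ∀ m : ℕ →₀ ℕ, Finsupp.weight wmap m ≤ N → (monomial m (1 : ZMod 2) : Sym) ∈ V N := by
    intro m hm
    by_cases h0 : m = 0
    · have h1 : (monomial m (1 : ZMod 2) : Sym) = beta (0, ∅, ∅) := by
        rw [h0]
        simp [beta]
      rw [h1]
      apply beta_mem_V
      simp [wt]
    · obtain ⟨k, hk⟩ := Finsupp.support_nonempty_iff.2 h0
      have hk' : 1 ≤ m k := Nat.one_le_iff_ne_zero.2 (Finsupp.mem_support_iff.1 hk)
      have h1 : m = Finsupp.single k 1 + (m - Finsupp.single k 1) := by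
        rw [add_comm, tsub_add_cancel_of_le]
        rw [Finsupp.single_le_iff]
        exact hk'
      have h2 : (monomial m (1 : ZMod 2) : Sym) =
          e (k + 1) * monomial (m - Finsupp.single k 1) (1 : ZMod 2) := by
        rw [e_succ, X, monomial_mul, ← h1, one_mul]
      have h3 : Finsupp.weight wmap m = (k + 1) +
          Finsupp.weight wmap (m - Finsupp.single k 1) := by
        conv_lhs => rw [h1, map_add, Finsupp.weight_single]
        simp
      rw [h2]
      refine e_mul_mem IH k (Finsupp.weight wmap (m - Finsupp.single k 1)) (by omega) _ ?_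
      rw [mem_W]
      intro m' hm'
      have := support_monomial_subset hm'
      rw [Finset.mem_singleton] at this
      rw [this]
  intro f hf
  rw [mem_W] at hf
  rw [f.as_sum]
  refine Submodule.sum_mem _ fun m hm => ?_
  have : (monomial m (coeff m f) : Sym) = (coeff m f) • monomial m (1 : ZMod 2) := by
    rw [smul_monomial, smul_eq_mul, mul_one]
  rw [this]
  exact Submodule.smul_mem _ _ (key m (hf m hm))

end step

theorem W_le_V (N : ℕ) : W N ≤ V N := by
  induction N using Nat.strong_induction_on with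
  | _ N ih => exact W_le_V_step ih


/-! ### Linear independence by counting -/

noncomputable def tau (t : Idx) : ℕ →₀ ℕ :=
  2 • t.1 + (∑ i ∈ t.2.1, Finsupp.single (2 * i + 1) 1 + ∑ j ∈ t.2.2, Finsupp.single (2 * j) 1)

theorem weight_tau (t : Idx) : Finsupp.weight wmap (tau t) = wt t := by
  have h1 : Finsupp.weight (fun i => 2 * (i + 1)) t.1 = 2 * Finsupp.weight wmap t.1 := by
    rw [Finsupp.weight_apply, Finsupp.weight_apply, Finsupp.sum, Finsupp.sum, Finset.mul_sum]
    refine Finset.sum_congr rfl fun i _ => ?_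
    simp only [smul_eq_mul]
    ring
  rw [tau, wt, h1]
  simp only [map_add, map_nsmul, map_sum, Finsupp.weight_single, smul_eq_mul, one_mul]
  congr 2

theorem tau_odd (t : Idx) (i : ℕ) :
    tau t (2 * i + 1) = 2 * t.1 (2 * i + 1) + if i ∈ t.2.1 then 1 else 0 := by
  classical
  have h2 : ∀ j : ℕ, ¬ 2 * j = 2 * i + 1 := fun j => by omega
  simp [tau, Finsupp.single_apply, h2]

theorem tau_even (t : Idx) (j : ℕ) :
    tau t (2 * j) = 2 * t.1 (2 * j) + if j ∈ t.2.2 then 1 else 0 := by
  classical
  have h2 : ∀ i : ℕ, ¬ 2 * i + 1 = 2 * j := fun j => by omega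
  simp [tau, Finsupp.single_apply, h2]

theorem tau_injective : Function.Injective tau := by
  classical
  intro t t' htt
  have ho : ∀ i, t.1 (2 * i + 1) = t'.1 (2 * i + 1) ∧ (i ∈ t.2.1 ↔ i ∈ t'.2.1) := by
    intro i
    have h1 := DFunLike.congr_fun htt (2 * i + 1)
    rw [tau_odd, tau_odd] at h1
    split_ifs at h1 with h2 h3 h3 <;> simp_all <;> omega
  have he : ∀ i, t.1 (2 * i) = t'.1 (2 * i) ∧ (i ∈ t.2.2 ↔ i ∈ t'.2.2) := by
    intro i
    have h1 := DFunLike.congr_fun htt (2 * i)
    rw [tau_even, tau_even] at h1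
    split_ifs at h1 with h2 h3 h3 <;> simp_all <;> omega
  refine Prod.ext ?_ (Prod.ext (Finset.ext fun i => (ho i).2) (Finset.ext fun i => (he i).2))
  ext k
  obtain ⟨i, hi | hi⟩ := Nat.even_or_odd' k
  · rw [hi]; exact (he i).1
  · rw [hi]; exact (ho i).1

theorem finite_wt (N : ℕ) : {m : ℕ →₀ ℕ | Finsupp.weight wmap m ≤ N}.Finite := by
  classical
  apply Set.Finite.subset (Set.finite_Iic (∑ k ∈ Finset.range N, Finsupp.single k N))
  intro m hm
  rw [Set.mem_Iic]
  intro k
  rw [Set.mem_ofPred_eq] at hm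
  by_cases hk : m k = 0
  · rw [hk]; exact Nat.zero_le _
  · have h1 : m k ≤ Finsupp.weight wmap m := Finsupp.le_weight wmap (by simp) m
    have h2 : wmap k ≤ Finsupp.weight wmap m :=
      Finsupp.le_weight_of_ne_zero' wmap hk
    have h3 : k ∈ Finset.range N := by
      rw [Finset.mem_range]
      simp only [wmap] at h2
      omega
    rw [Finsupp.finsetSum_apply, Finset.sum_eq_single_of_mem k h3
      (fun j _ hj => Finsupp.single_eq_of_ne' hj)]
    rw [Finsupp.single_eq_same]
    omega

theorem li_N (N : ℕ) :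
    LinearIndependent (ZMod 2) (fun t : {t : Idx | wt t ≤ N} => beta t) := by
  classical
  have hm : Finite {m : ℕ →₀ ℕ | Finsupp.weight wmap m ≤ N} := (finite_wt N).to_subtype
  let φ : {t : Idx | wt t ≤ N} → {m : ℕ →₀ ℕ | Finsupp.weight wmap m ≤ N} :=
    fun t => ⟨tau t, by rw [Set.mem_ofPred_eq, weight_tau]; exact t.2⟩
  have hφ : Function.Injective φ := by
    intro a b hab
    apply Subtype.ext
    apply tau_injective
    exact congrArg Subtype.val hab
  have hfin : Finite {t : Idx | wt t ≤ N} := Finite.of_injective φ hφ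
  have := Fintype.ofFinite {t : Idx | wt t ≤ N}
  have := Fintype.ofFinite {m : ℕ →₀ ℕ | Finsupp.weight wmap m ≤ N}
  rw [linearIndependent_iff_card_le_finrank_span]
  have h1 : Module.finrank (ZMod 2) (W N) =
      Fintype.card {m : ℕ →₀ ℕ | Finsupp.weight wmap m ≤ N} :=
    Module.finrank_eq_card_basis (basisRestrictSupport (ZMod 2) _)
  have h2 : Submodule.span (ZMod 2) (Set.range fun t : {t : Idx | wt t ≤ N} => beta t) = V N := by
    rw [V, Set.image_eq_range]
  rw [Set.finrank, h2]
  have : Module.Finite (ZMod 2) (V N) := by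
    rw [← h2]
    exact FiniteDimensional.span_of_finite _ (Set.finite_range _)
  calc Fintype.card {t : Idx | wt t ≤ N} ≤
      Fintype.card {m : ℕ →₀ ℕ | Finsupp.weight wmap m ≤ N} := Fintype.card_le_of_injective φ hφ
    _ = Module.finrank (ZMod 2) (W N) := h1.symm
    _ ≤ Module.finrank (ZMod 2) (V N) := Submodule.finrank_mono (W_le_V N)

theorem li : LinearIndependent (ZMod 2) beta := by
  classical
  rw [linearIndependent_iff_finset_linearIndependent]
  intro s
  have h1 := li_N (s.sup wt)
  let φ : s → {t : Idx | wt t ≤ s.sup wt} := fun t =>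
    ⟨t, Finset.le_sup (f := wt) t.2⟩
  have hφ : Function.Injective φ := by
    intro a b hab
    have h2 : (φ a : Idx) = φ b := congrArg Subtype.val hab
    exact Subtype.ext h2
  exact h1.comp φ hφ

theorem span_beta : ⊤ ≤ Submodule.span (ZMod 2) (Set.range beta) := by
  intro f _
  have h1 : f ∈ W (f.support.sup (Finsupp.weight wmap)) := by
    rw [mem_W]
    intro m hm
    exact Finset.le_sup hm
  have h2 := W_le_V _ h1
  exact Submodule.span_mono (Set.image_subset_range _ _) h2

noncomputable def bas : Module.Basis Idx (ZMod 2) Sym := Module.Basis.mk li span_beta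

theorem bas_apply (t : Idx) : bas t = beta t := by
  rw [bas, Module.Basis.mk_apply]


/-! ### The contracting homotopy -/

noncomputable def F (n : ℕ) : Submodule (ZMod 2) Sym :=
  Submodule.span (ZMod 2) (beta '' {t : Idx | n ≤ t.1.degree})

noncomputable def Fk (n k : ℕ) : Submodule (ZMod 2) Sym :=
  Submodule.span (ZMod 2) (beta '' {t : Idx | n ≤ t.1.degree ∧ t.2.1.card < k})

theorem beta_mem_F {t : Idx} {n : ℕ} (ht : n ≤ t.1.degree) : beta t ∈ F n :=
  Submodule.subset_span ⟨t, ht, rfl⟩

theorem beta_mem_Fk {t : Idx} {n k : ℕ} (ht : n ≤ t.1.degree) (hk : t.2.1.card < k) :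
    beta t ∈ Fk n k :=
  Submodule.subset_span ⟨t, ⟨ht, hk⟩, rfl⟩

theorem Fk_mono (n : ℕ) {k l : ℕ} (hkl : k ≤ l) : Fk n k ≤ Fk n l :=
  Submodule.span_mono (Set.image_mono fun _ ht => ⟨ht.1, lt_of_lt_of_le ht.2 hkl⟩)

theorem F_mono {m n : ℕ} (hmn : m ≤ n) : F n ≤ F m :=
  Submodule.span_mono (Set.image_mono fun _ ht => le_trans hmn ht)

noncomputable def idx0 (t : Idx) : ℕ := sInf {i | t.1 i ≠ 0 ∨ i ∈ t.2.1}

open Classical in
noncomputable def sfun (t : Idx) : Sym :=
  if idx0 t ∈ t.2.1 then 0
  else beta (t.1 - Finsupp.single (idx0 t) 1, insert (idx0 t) t.2.1, t.2.2)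

noncomputable def sop : Sym →ₗ[ZMod 2] Sym := bas.constr (ZMod 2) sfun

theorem sop_beta (t : Idx) : sop (beta t) = sfun t := by
  rw [← bas_apply, sop, Module.Basis.constr_basis]

noncomputable def omegaL : Sym →ₗ[ZMod 2] Sym :=
  (aeval fun k => h (k + 1) : Sym →ₐ[ZMod 2] Sym).toLinearMap

theorem omegaL_apply (x : Sym) : omegaL x = omega x := rfl

noncomputable def ind (T : Finset ℕ) : ℕ →₀ ℕ := ∑ i ∈ T, Finsupp.single i 1

theorem ind_apply (T : Finset ℕ) (i : ℕ) : ind T i = if i ∈ T then 1 else 0 := by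
  classical
  simp [ind, Finsupp.single_apply]

theorem ind_insert {T : Finset ℕ} {i : ℕ} (hi : i ∉ T) :
    ind (insert i T) = Finsupp.single i 1 + ind T := by
  classical
  rw [ind, Finset.sum_insert hi]
  rfl

theorem y_prod_mul_beta (T : Finset ℕ) (a : ℕ →₀ ℕ) (J K : Finset ℕ) :
    (∏ i ∈ T, y i) * beta (a, J, K) = beta (ind T + a, J, K) := by
  classical
  induction T using Finset.induction_on with
  | empty => simp [ind]
  | insert i T hi ih =>
    rw [Finset.prod_insert hi, mul_assoc, ih, y_mul_beta, ind_insert hi, add_assoc]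

theorem omega_beta (a : ℕ →₀ ℕ) (J K : Finset ℕ) :
    omega (beta (a, J, K)) = ∑ T ∈ J.powerset, beta (ind T + a, J \ T, K) := by
  classical
  have h1 : omega (a.prod fun i n => y i ^ n) = a.prod fun i n => y i ^ n := by
    rw [Finsupp.prod, map_prod]
    refine Finset.prod_congr rfl fun i _ => ?_
    rw [map_pow, omega_y]
  have h2 : omega (∏ i ∈ J, u i) = ∑ T ∈ J.powerset, (∏ i ∈ T, y i) * ∏ i ∈ J \ T, u i := by
    rw [map_prod, ← Finset.prod_add]
    refine Finset.prod_congr rfl fun i _ => ?_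
    rw [omega_u, add_comm]
  have h3 : omega (∏ i ∈ K, p i) = ∏ i ∈ K, p i := by
    rw [map_prod]
    exact Finset.prod_congr rfl fun i _ => omega_p i
  simp only [beta]
  rw [map_mul, map_mul, h1, h2, h3, Finset.sum_mul, Finset.mul_sum]
  refine Finset.sum_congr rfl fun T _ => ?_
  have h4 := y_prod_mul_beta T a (J \ T) K
  simp only [beta] at h4
  rw [← h4]
  ring

theorem idx0_ind (a : ℕ →₀ ℕ) (J K T : Finset ℕ) (hT : T ⊆ J) :
    idx0 (ind T + a, J \ T, K) = idx0 (a, J, K) := by
  classical
  unfold idx0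
  congr 1
  ext i
  simp only [Set.mem_ofPred_eq, Finsupp.add_apply, ind_apply, Finset.mem_sdiff]
  constructor
  · rintro (h1 | h1)
    · by_cases h2 : i ∈ T
      · exact Or.inr (hT h2)
      · left
        simpa [h2] using h1
    · exact Or.inr h1.1
  · rintro (h1 | h1)
    · left
      omega
    · by_cases h2 : i ∈ T
      · left
        simp [h2]
      · exact Or.inr ⟨h1, h2⟩

theorem sum_mem_Fk {n k : ℕ} {a : ℕ →₀ ℕ} {J K : Finset ℕ} (ha : n ≤ a.degree)
    (hJ : J.card < k + 1) (J' : Finset ℕ) (hJ' : J' ⊆ J) :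
    beta (a, J, K) + ∑ T ∈ J'.powerset, beta (ind T + a, J \ T, K) ∈ Fk n k := by
  classical
  rw [← Finset.add_sum_erase J'.powerset _ (Finset.empty_mem_powerset J')]
  have h1 : beta (ind ∅ + a, J \ ∅, K) = beta (a, J, K) := by
    simp [ind]
  rw [h1, ← add_assoc, two_zero, zero_add]
  refine Submodule.sum_mem _ fun T hT => ?_
  rw [Finset.mem_erase, Finset.mem_powerset] at hT
  apply beta_mem_Fk
  · simp only [map_add]
    omega
  · have h2 : (J \ T).card < J.card := by
      apply Finset.card_lt_card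
      rw [Finset.ssubset_iff_subset_ne]
      refine ⟨Finset.sdiff_subset, ?_⟩
      intro h3
      obtain ⟨i, hi⟩ := Finset.nonempty_iff_ne_empty.2 hT.1
      have h4 : i ∈ J \ T := by rw [h3]; exact hJ' (hT.2 hi)
      exact (Finset.mem_sdiff.1 h4).2 hi
    simp only
    omega

theorem theta_mem {n k : ℕ} (hn : 1 ≤ n) (t : Idx) (ha : n ≤ t.1.degree)
    (hJ : t.2.1.card < k + 1) :
    beta t + omega (sop (beta t)) + sop (omega (beta t)) ∈ Fk n k := by
  classical
  obtain ⟨a, J, K⟩ := t
  simp only at ha hJ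
  have hs : sop (omega (beta (a, J, K))) =
      ∑ T ∈ J.powerset, sfun (ind T + a, J \ T, K) := by
    rw [omega_beta, map_sum]
    exact Finset.sum_congr rfl fun T _ => sop_beta _
  have hne : a ≠ 0 := by
    rintro rfl
    simp at ha
    omega
  have hi : a (idx0 (a, J, K)) ≠ 0 ∨ idx0 (a, J, K) ∈ J := by
    have h1 : idx0 (a, J, K) ∈ {i | a i ≠ 0 ∨ i ∈ J} := by
      apply Nat.sInf_mem
      obtain ⟨i, hi⟩ := Finsupp.ne_iff.1 hne
      exact ⟨i, Or.inl hi⟩
    exact h1
  have hsf : ∀ T ∈ J.powerset, sfun (ind T + a, J \ T, K) =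
      if idx0 (a, J, K) ∈ J \ T then 0
      else beta (ind T + a - Finsupp.single (idx0 (a, J, K)) 1,
        insert (idx0 (a, J, K)) (J \ T), K) := by
    intro T hT
    rw [Finset.mem_powerset] at hT
    rw [sfun, idx0_ind a J K T hT]
  rw [hs, Finset.sum_congr rfl hsf, sop_beta, sfun]
  simp only
  generalize idx0 (a, J, K) = i at *
  by_cases hiJ : i ∈ J
  · rw [if_pos hiJ, map_zero, add_zero]
    have h1 : J = insert i (J.erase i) := (Finset.insert_erase hiJ).symm
    have h2 : i ∉ J.erase i := Finset.notMem_erase i J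
    have h3 : ∑ T ∈ J.powerset, (if i ∈ J \ T then 0 else
        beta (ind T + a - Finsupp.single i 1, insert i (J \ T), K)) =
        ∑ T ∈ (J.erase i).powerset, beta (ind T + a, J \ T, K) := by
      conv_lhs => rw [h1, Finset.sum_powerset_insert h2, ← h1]
      have h4 : ∑ T ∈ (J.erase i).powerset, (if i ∈ J \ T then 0 else
        beta (ind T + a - Finsupp.single i 1, insert i (J \ T), K)) = 0 := by
        refine Finset.sum_eq_zero fun T hT => ?_
        rw [Finset.mem_powerset] at hT
        rw [if_pos]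
        exact Finset.mem_sdiff.2 ⟨hiJ, fun h5 => h2 (hT h5)⟩
      rw [h4, zero_add]
      refine Finset.sum_congr rfl fun T hT => ?_
      rw [Finset.mem_powerset] at hT
      have hiT : i ∉ T := fun h5 => h2 (hT h5)
      rw [if_neg (by simp), ind_insert hiT]
      have h5 : Finsupp.single i 1 + ind T + a - Finsupp.single i 1 = ind T + a := by
        rw [add_assoc, add_tsub_cancel_left]
      have h6 : insert i (J \ insert i T) = J \ T := by
        ext j
        by_cases hj : j = i
        · subst hj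
          simp [hiJ, hiT]
        · simp [hj]
      rw [h5, h6]
    rw [h3]
    exact sum_mem_Fk ha hJ _ (Finset.erase_subset i J)
  · have hai : a i ≠ 0 := hi.resolve_right hiJ
    have hle : Finsupp.single i 1 ≤ a := by
      rw [Finsupp.single_le_iff]
      omega
    rw [if_neg hiJ, omega_beta, Finset.sum_powerset_insert hiJ]
    have h1 : ∑ T ∈ J.powerset, beta (ind T + (a - Finsupp.single i 1), insert i J \ T, K) =
        ∑ T ∈ J.powerset, (if i ∈ J \ T then 0 else
          beta (ind T + a - Finsupp.single i 1, insert i (J \ T), K)) := by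
      refine Finset.sum_congr rfl fun T hT => ?_
      rw [Finset.mem_powerset] at hT
      have hiT : i ∉ T := fun h5 => hiJ (hT h5)
      rw [if_neg (fun h5 => hiJ (Finset.mem_sdiff.1 h5).1), Finset.insert_sdiff_of_notMem _ hiT,
        add_tsub_assoc_of_le hle]
    have h2 : ∑ T ∈ J.powerset, beta (ind (insert i T) + (a - Finsupp.single i 1),
        insert i J \ insert i T, K) = ∑ T ∈ J.powerset, beta (ind T + a, J \ T, K) := by
      refine Finset.sum_congr rfl fun T hT => ?_
      rw [Finset.mem_powerset] at hT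
      have hiT : i ∉ T := fun h5 => hiJ (hT h5)
      have h5 : ind (insert i T) + (a - Finsupp.single i 1) = ind T + a := by
        rw [ind_insert hiT, add_comm (Finsupp.single i 1), add_assoc,
          add_tsub_cancel_of_le hle]
      have h6 : insert i J \ insert i T = J \ T := by
        ext j
        by_cases hj : j = i
        · subst hj
          simp [hiJ]
        · simp [hj]
      rw [h5, h6]
    rw [h1, h2]
    have h3 := sum_mem_Fk (K := K) ha hJ J subset_rfl
    have h4 := two_zero (∑ T ∈ J.powerset, (if i ∈ J \ T then 0 else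
          beta (ind T + a - Finsupp.single i 1, insert i (J \ T), K)))
    convert h3 using 1
    linear_combination h4

theorem theta_mem' {n k : ℕ} (hn : 1 ≤ n) : ∀ f ∈ Fk n (k + 1),
    f + omega (sop f) + sop (omega f) ∈ Fk n k := by
  intro f hf
  rw [Fk] at hf
  induction hf using Submodule.span_induction with
  | mem x hx =>
    obtain ⟨t, ht, rfl⟩ := hx
    exact theta_mem hn t ht.1 ht.2
  | zero => simp
  | add x y _ _ hx hy =>
    have := Submodule.add_mem _ hx hy
    convert this using 1
    simp only [map_add]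
    ring
  | smul c x _ hx =>
    have := Submodule.smul_mem _ c hx
    convert this using 1
    rw [← omegaL_apply, ← omegaL_apply, ← omegaL_apply, ← omegaL_apply]
    simp only [map_smul, smul_add]

theorem sop_mem {n : ℕ} : ∀ f ∈ F n, sop f ∈ F (n - 1) := by
  classical
  intro f hf
  rw [F] at hf
  induction hf using Submodule.span_induction with
  | mem x hx =>
    obtain ⟨t, ht, rfl⟩ := hx
    rw [Set.mem_ofPred_eq] at ht
    rw [sop_beta, sfun]
    split_ifs
    · exact Submodule.zero_mem _
    · apply beta_mem_F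
      have h1 : t.1.degree ≤ (t.1 - Finsupp.single (idx0 t) 1).degree + 1 := by
        have h2 : t.1 ≤ (t.1 - Finsupp.single (idx0 t) 1) + Finsupp.single (idx0 t) 1 :=
          le_tsub_add
        have h3 := Finsupp.degree_mono h2
        rw [map_add, Finsupp.degree_single] at h3
        exact h3
      simp only
      omega
  | zero => rw [map_zero]; exact Submodule.zero_mem _
  | add x y _ _ hx hy => rw [map_add]; exact Submodule.add_mem _ hx hy
  | smul c x _ hx => rw [map_smul]; exact Submodule.smul_mem _ _ hx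

theorem Fk_le_F (n k : ℕ) : Fk n k ≤ F n :=
  Submodule.span_mono (Set.image_mono fun _ ht => ht.1)

theorem exists_Fk {n : ℕ} : ∀ f ∈ F n, ∃ k, f ∈ Fk n k := by
  intro f hf
  rw [F] at hf
  induction hf using Submodule.span_induction with
  | mem x hx =>
    obtain ⟨t, ht, rfl⟩ := hx
    exact ⟨t.2.1.card + 1, beta_mem_Fk ht (Nat.lt_succ_self _)⟩
  | zero => exact ⟨0, Submodule.zero_mem _⟩
  | add x y _ _ hx hy =>
    obtain ⟨k, hk⟩ := hx
    obtain ⟨l, hl⟩ := hy
    exact ⟨max k l, Submodule.add_mem _ (Fk_mono n (le_max_left _ _) hk)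
      (Fk_mono n (le_max_right _ _) hl)⟩
  | smul c x _ hx =>
    obtain ⟨k, hk⟩ := hx
    exact ⟨k, Submodule.smul_mem _ _ hk⟩

theorem exact_aux {n : ℕ} (hn : 1 ≤ n) (k : ℕ) : ∀ f ∈ Fk n k, f + omega f = 0 →
    ∃ g ∈ F (n - 1), f = g + omega g := by
  induction k with
  | zero =>
    intro f hf _
    have h1 : Fk n 0 = ⊥ := by
      rw [Fk]
      simp
    rw [h1, Submodule.mem_bot] at hf
    exact ⟨0, Submodule.zero_mem _, by simp [hf]⟩
  | succ k ih =>
    intro f hf hd
    have hof : omega f = f := by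
      have h2 := two_zero f
      linear_combination hd - h2
    have h1 := theta_mem' hn f hf
    rw [hof] at h1
    obtain ⟨g, hg, hg2⟩ := ih _ h1 (by
      rw [map_add, map_add, omega_omega, hof]
      have h2 := two_zero f
      have h3 := two_zero (sop f)
      have h4 := two_zero (omega (sop f))
      linear_combination h2 + h3 + h4)
    refine ⟨g + sop f, Submodule.add_mem _ hg (sop_mem f (Fk_le_F _ _ hf)), ?_⟩
    rw [map_add]
    have h3 := two_zero (sop f)
    have h4 := two_zero (omega (sop f))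
    linear_combination hg2 - h3 - h4

theorem exact_main {n : ℕ} (hn : 1 ≤ n) (f : Sym) (hf : f ∈ F n) (hd : f + omega f = 0) :
    ∃ g ∈ F (n - 1), f = g + omega g := by
  obtain ⟨k, hk⟩ := exists_Fk f hf
  exact exact_aux hn k f hk hd


/-! ### Ideals -/

theorem F_zero : F 0 = ⊤ := by
  rw [eq_top_iff]
  refine span_beta.trans (Submodule.span_mono ?_)
  rintro _ ⟨t, rfl⟩
  exact ⟨t, Nat.zero_le _, rfl⟩

theorem F_induct {n : ℕ} (z : Sym) (P : Submodule (ZMod 2) Sym)
    (hz : ∀ t : Idx, n ≤ t.1.degree → z * beta t ∈ P) : ∀ g ∈ F n, z * g ∈ P := by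
  intro g hg
  rw [F] at hg
  induction hg using Submodule.span_induction with
  | mem x hx =>
    obtain ⟨t, ht, rfl⟩ := hx
    exact hz t ht
  | zero => rw [mul_zero]; exact Submodule.zero_mem _
  | add x y _ _ hx hy => rw [mul_add]; exact Submodule.add_mem _ hx hy
  | smul c x _ hx => rw [mul_smul_comm]; exact Submodule.smul_mem _ _ hx

theorem y_pow_mul_F (a : ℕ →₀ ℕ) (n : ℕ) : ∀ g ∈ F n,
    (a.prod fun i n => y i ^ n) * g ∈ F (a.degree + n) := by
  refine F_induct _ _ ?_
  rintro ⟨b, J, K⟩ ht
  rw [y_pow_mul_beta]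
  apply beta_mem_F
  simp only [map_add]
  exact Nat.add_le_add_left ht _

theorem beta_split (t : Idx) : beta t = (t.1.prod fun i n => y i ^ n) * beta (0, t.2.1, t.2.2) := by
  rw [y_pow_mul_beta, add_zero]

theorem F_ideal {n : ℕ} (r : Sym) : ∀ g ∈ F n, r * g ∈ F n := by
  refine F_induct _ _ ?_
  intro t ht
  rw [beta_split, mul_left_comm]
  have h1 : r * beta (0, t.2.1, t.2.2) ∈ F 0 := by rw [F_zero]; trivial
  exact F_mono (by omega) (y_pow_mul_F t.1 0 _ h1)

theorem F_mul {m n : ℕ} (f : Sym) (hf : f ∈ F m) : ∀ g ∈ F n, f * g ∈ F (m + n) := by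
  refine F_induct _ _ ?_
  intro t ht
  have h0 : f * beta t = beta t * f := mul_comm _ _
  rw [h0, beta_split, mul_assoc]
  exact F_mono (by omega) (y_pow_mul_F t.1 m _ (F_ideal _ _ hf))

noncomputable def FI (n : ℕ) : Ideal Sym where
  carrier := F n
  add_mem' := fun ha hb => Submodule.add_mem _ ha hb
  zero_mem' := Submodule.zero_mem _
  smul_mem' := fun c _ hx => F_ideal c _ hx

theorem mem_FI {n : ℕ} {f : Sym} : f ∈ FI n ↔ f ∈ F n := Iff.rfl

theorem d_mem_F_one (x : Sym) : x + omega x ∈ F 1 := by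
  classical
  have hx : x ∈ F 0 := by rw [F_zero]; trivial
  rw [F] at hx
  induction hx using Submodule.span_induction with
  | mem x hx =>
    obtain ⟨⟨a, J, K⟩, _, rfl⟩ := hx
    rw [omega_beta, ← Finset.add_sum_erase J.powerset _ (Finset.empty_mem_powerset J)]
    have h1 : beta (ind ∅ + a, J \ ∅, K) = beta (a, J, K) := by
      simp [ind]
    rw [h1, ← add_assoc, two_zero, zero_add]
    refine Submodule.sum_mem _ fun T hT => ?_
    rw [Finset.mem_erase, Finset.mem_powerset] at hT
    apply beta_mem_F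
    obtain ⟨i, hi⟩ := Finset.nonempty_iff_ne_empty.2 hT.1
    have h2 : ind T i ≤ (ind T).degree := Finsupp.le_degree i (ind T)
    rw [ind_apply, if_pos hi] at h2
    simp only [map_add]
    omega
  | zero => simp
  | add x y _ _ hx hy =>
    have := Submodule.add_mem _ hx hy
    convert this using 1
    rw [map_add]
    ring
  | smul c x _ hx =>
    have := Submodule.smul_mem _ c hx
    convert this using 1
    rw [← omegaL_apply, ← omegaL_apply, map_smul, smul_add]

theorem map_I_pow_le (n : ℕ) : Ideal.map S.subtype (I ^ n) ≤ FI n := by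
  have h1 : Ideal.map S.subtype I ≤ FI 1 := by
    rw [Ideal.map_le_iff_le_comap]
    rintro s ⟨x, hx⟩
    rw [Ideal.mem_comap]
    change (s : Sym) ∈ FI 1
    rw [hx]
    exact d_mem_F_one x
  rw [Ideal.map_pow]
  induction n with
  | zero =>
    intro f _
    rw [mem_FI, F_zero]
    trivial
  | succ n ih =>
    rw [pow_succ', add_comm n 1]
    refine Ideal.mul_le.2 fun r hr s hs => ?_
    exact F_mul r (h1 hr) s (ih hs)

noncomputable def dS (x : Sym) : S := ⟨x + omega x, by
  rw [S, fixed, RingHom.mem_eqLocus, map_add, omega_omega, RingHom.id_apply, add_comm]⟩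

theorem dS_mem_I (x : Sym) : dS x ∈ I := ⟨x, rfl⟩

theorem dS_mem {m : ℕ} : ∀ g ∈ F m, dS g ∈ I ^ (m + 1) := by
  intro g hg
  rw [F] at hg
  induction hg using Submodule.span_induction with
  | mem x hx =>
    obtain ⟨t, ht, rfl⟩ := hx
    rw [Set.mem_ofPred_eq] at ht
    have h1 : dS (beta t) = (∏ i ∈ t.1.support, dS (u i) ^ t.1 i) *
        dS (beta (0, t.2.1, t.2.2)) := by
      apply Subtype.ext
      rw [Subring.coe_mul]
      have h2 : ((∏ i ∈ t.1.support, dS (u i) ^ t.1 i : S) : Sym) =
          t.1.prod fun i n => y i ^ n := by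
        rw [Finsupp.prod]
        push_cast
        rfl
      rw [h2]
      change beta t + omega (beta t) = (t.1.prod fun i n => y i ^ n) *
        (beta (0, t.2.1, t.2.2) + omega (beta (0, t.2.1, t.2.2)))
      have h3 : omega (t.1.prod fun i n => y i ^ n) = t.1.prod fun i n => y i ^ n := by
        rw [Finsupp.prod, map_prod]
        refine Finset.prod_congr rfl fun i _ => ?_
        rw [map_pow, omega_y]
      rw [beta_split t, map_mul, h3]
      ring
    rw [h1, pow_succ]
    refine Ideal.mul_mem_mul ?_ (dS_mem_I _)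
    have h4 : ∏ i ∈ t.1.support, dS (u i) ^ t.1 i ∈ ∏ i ∈ t.1.support, I ^ t.1 i :=
      Ideal.prod_mem_prod fun i _ => Ideal.pow_mem_pow (dS_mem_I _) _
    rw [Finset.prod_pow_eq_pow_sum] at h4
    exact Ideal.pow_le_pow_right ht h4
  | zero =>
    have : dS 0 = 0 := by
      apply Subtype.ext
      change (0 : Sym) + omega 0 = 0
      simp
    rw [this]
    exact Ideal.zero_mem _
  | add x y _ _ hx hy =>
    have : dS (x + y) = dS x + dS y := by
      apply Subtype.ext
      change (x + y : Sym) + omega (x + y) = (x + omega x) + (y + omega y)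
      rw [map_add]
      ring
    rw [this]
    exact Ideal.add_mem _ hx hy
  | smul c x _ hx =>
    have hc : c = 0 ∨ c = 1 := by
      fin_cases c
      · exact Or.inl rfl
      · exact Or.inr rfl
    rcases hc with rfl | rfl
    · have : dS ((0 : ZMod 2) • x) = 0 := by
        apply Subtype.ext
        change (0 : ZMod 2) • x + omega ((0 : ZMod 2) • x) = 0
        simp
      rw [this]
      exact Ideal.zero_mem _
    · rwa [one_smul]

/-- `ω` is `n`-transverse for every `n`. -/
theorem transverse (n : ℕ) : Ideal.comap S.subtype (Ideal.map S.subtype (I ^ n)) = I ^ n := by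
  refine le_antisymm ?_ Ideal.le_comap_map
  rcases n with _ | n
  · rw [pow_zero, Ideal.one_eq_top]
    exact le_top
  · intro f hf
    rw [Ideal.mem_comap] at hf
    have h1 : (f : Sym) ∈ F (n + 1) := map_I_pow_le (n + 1) hf
    have h2 : (f : Sym) + omega (f : Sym) = 0 := by rw [omega_coe, two_zero]
    obtain ⟨g, hg, hfg⟩ := exact_main (by omega) (f : Sym) h1 h2
    have h3 : f = dS g := Subtype.ext hfg
    rw [h3]
    exact dS_mem g hg

end Pool.Agent.Lib_helper29.OmegaTr
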