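import Mathlib

set_option autoImplicit false

namespace Pool.Agent.Lib_helper29.QHol

variable (G : Type) [Group G]

/-- `λ : G → Perm(G)`, `λ(g)(h) = g h`. -/
def lam : G →* Equiv.Perm G := MulAction.toPermHom G G

/-- The subgroup `λ(G)` of `B = Perm(G)`. -/
def Lam : Subgroup (Equiv.Perm G) := (lam G).range

/-- `Hol(G) = Norm_B(λ(G))`. -/
def Hol : Subgroup (Equiv.Perm G) := Subgroup.normalizer (Lam G : Set (Equiv.Perm G))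

/-- `N ≤ Perm(G)` is regular. -/
def IsRegular (N : Subgroup (Equiv.Perm G)) : Prop :=
  ∀ x y : G, ∃! n : Equiv.Perm G, n ∈ N ∧ n x = y

/-- `𝒮(G)`: regular subgroups `N ≅ G` with `N ≤ Hol(G)`. -/
def SS : Set (Subgroup (Equiv.Perm G)) :=
  {N | IsRegular G N ∧ Nonempty (N ≃* G) ∧ N ≤ Hol G}

/-- `ℛ(G)`: regular subgroups `N ≅ G` with `λ(G) ≤ Norm_B(N)`. -/
def RR : Set (Subgroup (Equiv.Perm G)) :=
  {N | IsRegular G N ∧ Nonempty (N ≃* G) ∧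
    Lam G ≤ Subgroup.normalizer (N : Set (Equiv.Perm G))}

/-- `𝒬(G) = {M ∈ 𝒮(G) ∩ ℛ(G) : every N ∈ 𝒮(G) ∩ ℛ(G) normalizes M}`. -/
def QQ : Set (Subgroup (Equiv.Perm G)) :=
  {M | M ∈ SS G ∩ RR G ∧
    ∀ N ∈ SS G ∩ RR G, N ≤ Subgroup.normalizer (M : Set (Equiv.Perm G))}

/-- `β N β⁻¹`. -/
def conj (β : Equiv.Perm G) (N : Subgroup (Equiv.Perm G)) : Subgroup (Equiv.Perm G) :=
  N.map (MulAut.conj β).toMonoidHom

/-- `A` is a representative set `π(𝒬(G))`: every `β ∈ A` has `β λ(G) β⁻¹ ∈ 𝒬(G)`, and every member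
of `𝒬(G)` is `β λ(G) β⁻¹` for exactly one `β ∈ A`. -/
def IsRepSet (A : Set (Equiv.Perm G)) : Prop :=
  Set.BijOn (fun β => conj G β (Lam G)) A (QQ G)

/-- `A` is conj-closed: for all `α, β ∈ A` there is `γ ∈ A` with
`α β λ(G) β⁻¹ α⁻¹ = γ λ(G) γ⁻¹`. -/
def ConjClosed (A : Set (Equiv.Perm G)) : Prop :=
  ∀ α ∈ A, ∀ β ∈ A, ∃ γ ∈ A, conj G (α * β) (Lam G) = conj G γ (Lam G)

end Pool.Agent.Lib_helper29.QHol
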