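import Mathlib
import Pool.Agent.Lib_helper29.QHolDefs

set_option autoImplicit false

namespace Pool.Agent.Lib_helper29.QHol

section general

variable {G : Type} [Group G]

theorem lam_apply (g x : G) : lam G g x = g * x := rfl

theorem mem_Lam {p : Equiv.Perm G} : p ∈ Lam G ↔ ∃ g, lam G g = p := Iff.rfl

omit [Group G] in
theorem mem_conj {β p : Equiv.Perm G} {N : Subgroup (Equiv.Perm G)} :
    p ∈ conj G β N ↔ ∃ n ∈ N, β * n * β⁻¹ = p := Iff.rfl

omit [Group G] in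
theorem mem_conj' {β p : Equiv.Perm G} {N : Subgroup (Equiv.Perm G)} :
    p ∈ conj G β N ↔ β⁻¹ * p * β ∈ N := by
  rw [mem_conj]
  constructor
  · rintro ⟨n, hn, rfl⟩
    have : β⁻¹ * (β * n * β⁻¹) * β = n := by group
    rwa [this]
  · intro h
    exact ⟨_, h, by group⟩

theorem conj_mul (α β : Equiv.Perm G) (N : Subgroup (Equiv.Perm G)) :
    conj G (α * β) N = conj G α (conj G β N) := by
  ext p
  rw [mem_conj', mem_conj', mem_conj']
  have : (α * β)⁻¹ * p * (α * β) = β⁻¹ * (α⁻¹ * p * α) * β := by group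
  rw [this]

omit [Group G] in
theorem mem_norm {p : Equiv.Perm G} {N : Subgroup (Equiv.Perm G)} :
    p ∈ Subgroup.normalizer (N : Set (Equiv.Perm G)) ↔ conj G p N = N :=
  Subgroup.mem_normalizer_iff_map_conj_eq

theorem mem_norm_conj {p β : Equiv.Perm G} {N : Subgroup (Equiv.Perm G)} :
    p ∈ Subgroup.normalizer (conj G β N : Set (Equiv.Perm G)) ↔
      β⁻¹ * p * β ∈ Subgroup.normalizer (N : Set (Equiv.Perm G)) := by
  rw [mem_norm, mem_norm]
  constructor
  · intro h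
    rw [conj_mul, conj_mul, h, ← conj_mul]
    ext q
    rw [mem_conj']
    simp
  · intro h
    have h2 : p * β = β * (β⁻¹ * p * β) := by group
    rw [← conj_mul, h2, conj_mul, h]

omit [Group G] in
theorem le_norm_of [Finite G] {N : Subgroup (Equiv.Perm G)} {p : Equiv.Perm G}
    (h : ∀ n ∈ N, p * n * p⁻¹ ∈ N) : p ∈ Subgroup.normalizer (N : Set (Equiv.Perm G)) := by
  have : Finite (N : Set (Equiv.Perm G)) := Subtype.finite
  exact Subgroup.mem_normalizer_fintype h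

theorem regular_conj (β : Equiv.Perm G) : IsRegular G (conj G β (Lam G)) := by
  intro x y
  refine ⟨β * lam G (β⁻¹ y * (β⁻¹ x)⁻¹) * β⁻¹, ⟨?_, ?_⟩, ?_⟩
  · rw [mem_conj]
    exact ⟨_, ⟨_, rfl⟩, rfl⟩
  · change β (β⁻¹ y * (β⁻¹ x)⁻¹ * β⁻¹ x) = y
    rw [inv_mul_cancel_right]
    exact Equiv.apply_symm_apply β y
  · rintro n ⟨hn, hx⟩
    rw [mem_conj] at hn
    obtain ⟨_, ⟨g, rfl⟩, rfl⟩ := hn
    have : g = β⁻¹ y * (β⁻¹ x)⁻¹ := by
      rw [← hx]
      simp [Equiv.Perm.mul_apply, lam_apply]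
    rw [this]

theorem lam_injective : Function.Injective (lam G) := by
  intro a b h
  have := congrArg (fun p : Equiv.Perm G => p 1) h
  simpa [lam_apply] using this

theorem iso_conj (β : Equiv.Perm G) : Nonempty (conj G β (Lam G) ≃* G) := by
  have e1 : G ≃* Lam G := MonoidHom.ofInjective lam_injective
  have e2 : Lam G ≃* conj G β (Lam G) := (Lam G).equivMapOfInjective _ (MulAut.conj β).injective
  exact ⟨(e1.trans e2).symm⟩

/-- An element of the holomorph that fixes `1` is an automorphism. -/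
theorem aut_of_norm {d : Equiv.Perm G} (hd : d ∈ Hol G) (h1 : d 1 = 1) :
    ∃ φ : MulAut G, MulAut.toPerm G φ = d := by
  have key : ∀ y z : G, d (y * z) = d y * d z := by
    intro y z
    have h2 := (Subgroup.mem_normalizer_iff.1 hd (lam G y)).1 ⟨y, rfl⟩
    obtain ⟨k, hk⟩ := h2
    have h3 : lam G k * d = d * lam G y := by rw [hk]; group
    have h4 : k = d y := by
      have := congrArg (fun p : Equiv.Perm G => p 1) h3
      simpa [Equiv.Perm.mul_apply, lam_apply, h1] using this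
    have h5 := congrArg (fun p : Equiv.Perm G => p z) h3
    simp only [Equiv.Perm.mul_apply, lam_apply] at h5
    rw [← h5, h4]
  refine ⟨{ d with map_mul' := key }, ?_⟩
  ext x
  rfl

theorem toPerm_apply (φ : MulAut G) (x : G) : MulAut.toPerm G φ x = φ x := rfl

theorem toPerm_injective : Function.Injective (MulAut.toPerm G) := by
  intro a b h
  ext x
  exact congrArg (fun p : Equiv.Perm G => p x) h

theorem toPerm_lam (φ : MulAut G) (g : G) :
    MulAut.toPerm G φ * lam G g = lam G (φ g) * MulAut.toPerm G φ := by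
  ext x
  simp [Equiv.Perm.mul_apply, lam_apply, toPerm_apply]

theorem toPerm_mem_Hol [Finite G] (φ : MulAut G) : MulAut.toPerm G φ ∈ Hol G := by
  apply le_norm_of
  rintro _ ⟨g, rfl⟩
  rw [toPerm_lam]
  exact ⟨φ g, by group⟩

theorem lam_mem_Hol (g : G) : lam G g ∈ Hol G :=
  Subgroup.le_normalizer ⟨g, rfl⟩

/-- The gamma function of a member of `𝒮(G) ∩ ℛ(G)`. -/
theorem exists_gamma {N : Subgroup (Equiv.Perm G)} (hN : N ∈ SS G ∩ RR G) :
    ∃ δ : G → MulAut G, (∀ x, lam G x * MulAut.toPerm G (δ x) ∈ N) ∧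
      (∀ n ∈ N, n = lam G (n 1) * MulAut.toPerm G (δ (n 1))) ∧
      (∀ x y, δ (x * y) = δ y * δ x) ∧ (∀ x y, δ (δ x y) = δ x * δ y * (δ x)⁻¹) := by
  obtain ⟨⟨hreg, _, hS⟩, _, _, hR⟩ := hN
  choose ν hν huniq using fun x : G => hreg 1 x
  simp only at hν huniq
  have hνH : ∀ x, (lam G x)⁻¹ * ν x ∈ Hol G := fun x =>
    Subgroup.mul_mem _ (Subgroup.inv_mem _ (lam_mem_Hol x)) (hS (hν x).1)
  have hν1 : ∀ x, ((lam G x)⁻¹ * ν x) 1 = 1 := by
    intro x
    rw [Equiv.Perm.mul_apply, (hν x).2, Equiv.Perm.inv_def, Equiv.symm_apply_eq, lam_apply, mul_one]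
  choose δ hδ using fun x => aut_of_norm (hνH x) (hν1 x)
  have hνδ : ∀ x, ν x = lam G x * MulAut.toPerm G (δ x) := by
    intro x
    rw [hδ]
    group
  have hu : ∀ n ∈ N, n = ν (n 1) := fun n hn => huniq (n 1) n ⟨hn, rfl⟩
  -- product rule in `N`
  have hprod : ∀ x y, δ (x * δ x y) = δ x * δ y := by
    intro x y
    have h1 : ν x * ν y ∈ N := Subgroup.mul_mem _ (hν x).1 (hν y).1
    have h2 := hu _ h1
    have h3 : (ν x * ν y) 1 = x * δ x y := by
      rw [Equiv.Perm.mul_apply, (hν y).2, hνδ x, Equiv.Perm.mul_apply, lam_apply, toPerm_apply]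
    rw [h3, hνδ x, hνδ y, hνδ (x * δ x y)] at h2
    have h4 : lam G x * MulAut.toPerm G (δ x) * (lam G y * MulAut.toPerm G (δ y)) =
        lam G (x * δ x y) * MulAut.toPerm G (δ x * δ y) := by
      rw [map_mul, map_mul, mul_assoc, ← mul_assoc _ (lam G y), toPerm_lam]
      group
    rw [h4] at h2
    exact (toPerm_injective (mul_left_cancel h2)).symm
  have hR' : ∀ g x, δ (g * x * (δ x g)⁻¹) = δ x := by
    intro g x
    have h1 : lam G g * ν x * (lam G g)⁻¹ ∈ N :=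
      (Subgroup.mem_normalizer_iff.1 (hR ⟨g, rfl⟩) (ν x)).1 (hν x).1
    have h2 := hu _ h1
    have h3 : lam G g * ν x * (lam G g)⁻¹ =
        lam G (g * x * (δ x g)⁻¹) * MulAut.toPerm G (δ x) := by
      rw [hνδ, ← mul_assoc, ← map_mul, mul_assoc, ← map_inv, toPerm_lam, ← mul_assoc, ← map_mul,
        map_inv]
    have h4 : (lam G (g * x * (δ x g)⁻¹) * MulAut.toPerm G (δ x)) 1 = g * x * (δ x g)⁻¹ := by
      rw [Equiv.Perm.mul_apply, toPerm_apply, map_one, lam_apply, mul_one]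
    rw [h3, h4, hνδ (g * x * (δ x g)⁻¹)] at h2
    exact (toPerm_injective (mul_left_cancel h2)).symm
  have hanti : ∀ x y, δ (x * y) = δ y * δ x := by
    intro x y
    -- z = x * y * (δ y x)⁻¹, δ z = δ y, z * δ z x = x * y
    have h1 := hR' x y
    have h2 := hprod (x * y * (δ y x)⁻¹) x
    rw [h1] at h2
    have h3 : x * y * (δ y x)⁻¹ * δ y x = x * y := by group
    rw [h3] at h2
    exact h2
  refine ⟨δ, fun x => by rw [← hνδ]; exact (hν x).1, fun n hn => by
    rw [← hνδ]; exact hu n hn, hanti, fun x y => ?_⟩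
  have h1 := hprod x y
  rw [hanti] at h1
  rw [← h1]
  group

end general


/-! ### The group of order 32 -/

/-- Five bits. -/
@[ext] structure T where
  a : ZMod 2
  b : ZMod 2
  c : ZMod 2
  s : ZMod 2
  t : ZMod 2

namespace T

theorem z2 : (2 : ZMod 2) = 0 := rfl

theorem zz (z : ZMod 2) : z * z = z := by
  revert z; decide

theorem z_add (z : ZMod 2) : z + z = 0 := CharTwo.add_self_eq_zero z

theorem z_cases (z : ZMod 2) : z = 0 ∨ z = 1 := by
  revert z; decide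

instance : Mul T := ⟨fun x y => ⟨x.a + y.a, x.b + y.b, x.c + y.c, x.s + y.s + x.a * y.a,
  x.t + y.t + x.c * y.c + x.a * y.b⟩⟩

instance : One T := ⟨⟨0, 0, 0, 0, 0⟩⟩

instance : Inv T := ⟨fun x => ⟨x.a, x.b, x.c, x.s + x.a * x.a, x.t + x.c * x.c + x.a * x.b⟩⟩

@[simp] theorem mul_a (x y : T) : (x * y).a = x.a + y.a := rfl
@[simp] theorem mul_b (x y : T) : (x * y).b = x.b + y.b := rfl
@[simp] theorem mul_c (x y : T) : (x * y).c = x.c + y.c := rfl
@[simp] theorem mul_s (x y : T) : (x * y).s = x.s + y.s + x.a * y.a := rfl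
@[simp] theorem mul_t (x y : T) : (x * y).t = x.t + y.t + x.c * y.c + x.a * y.b := rfl
@[simp] theorem one_a : (1 : T).a = 0 := rfl
@[simp] theorem one_b : (1 : T).b = 0 := rfl
@[simp] theorem one_c : (1 : T).c = 0 := rfl
@[simp] theorem one_s : (1 : T).s = 0 := rfl
@[simp] theorem one_t : (1 : T).t = 0 := rfl

instance : Group T := Group.ofLeftAxioms
  (by
    intro x y z
    ext <;> simp <;> ring)
  (by
    intro x
    ext <;> simp)
  (by
    intro x
    ext
    · change x.a + x.a = 0; exact z_add _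
    · change x.b + x.b = 0; exact z_add _
    · change x.c + x.c = 0; exact z_add _
    · change x.s + x.a * x.a + x.s + x.a * x.a = 0
      linear_combination (x.s + x.a * x.a) * z2
    · change x.t + x.c * x.c + x.a * x.b + x.t + x.c * x.c + x.a * x.b = 0
      linear_combination (x.t + x.c * x.c + x.a * x.b) * z2)

@[simp] theorem inv_a (x : T) : (x⁻¹).a = x.a := rfl
@[simp] theorem inv_b (x : T) : (x⁻¹).b = x.b := rfl
@[simp] theorem inv_c (x : T) : (x⁻¹).c = x.c := rfl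
@[simp] theorem inv_s (x : T) : (x⁻¹).s = x.s + x.a * x.a := rfl
@[simp] theorem inv_t (x : T) : (x⁻¹).t = x.t + x.c * x.c + x.a * x.b := rfl

instance : Finite T :=
  Finite.of_injective (fun x : T => (x.a, x.b, x.c, x.s, x.t)) (by
    intro x y h
    simp only [Prod.mk.injEq] at h
    ext
    · exact h.1
    · exact h.2.1
    · exact h.2.2.1
    · exact h.2.2.2.1
    · exact h.2.2.2.2)

/-- The permutation `(a,b,c,s,t) ↦ (a,c,b,s+ac,t)`. -/
def PB : Equiv.Perm T where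
  toFun x := ⟨x.a, x.c, x.b, x.s + x.a * x.c, x.t⟩
  invFun x := ⟨x.a, x.c, x.b, x.s + x.a * x.b, x.t⟩
  left_inv x := by
    ext
    · rfl
    · rfl
    · rfl
    · change x.s + x.a * x.c + x.a * x.c = x.s
      linear_combination (x.a * x.c) * z2
    · rfl
  right_inv x := by
    ext
    · rfl
    · rfl
    · rfl
    · change x.s + x.a * x.b + x.a * x.b = x.s
      linear_combination (x.a * x.b) * z2
    · rfl

/-- The permutation `(a,b,c,s,t) ↦ (a,b+s,c,s,t+s)`. -/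
def P0 : Equiv.Perm T where
  toFun x := ⟨x.a, x.b + x.s, x.c, x.s, x.t + x.s⟩
  invFun x := ⟨x.a, x.b + x.s, x.c, x.s, x.t + x.s⟩
  left_inv x := by
    ext
    · rfl
    · change x.b + x.s + x.s = x.b
      linear_combination x.s * z2
    · rfl
    · rfl
    · change x.t + x.s + x.s = x.t
      linear_combination x.s * z2
  right_inv x := by
    ext
    · rfl
    · change x.b + x.s + x.s = x.b
      linear_combination x.s * z2
    · rfl
    · rfl
    · change x.t + x.s + x.s = x.t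
      linear_combination x.s * z2

/-- the cocycle of `M` -/
def Δ (x y : T) : T :=
  ⟨0, 0, 0, x.a * y.b + x.b * y.a, x.a * y.b + x.b * y.b + x.a * y.c + x.c * y.c⟩

theorem PB_mul (g y : T) : PB (g * y) = PB g * PB y * Δ (PB g) (PB y) := by
  ext
  · change g.a + y.a = g.a + y.a + 0
    ring
  · change g.c + y.c = g.c + y.c + 0
    ring
  · change g.b + y.b = g.b + y.b + 0
    ring
  · change g.s + y.s + g.a * y.a + (g.a + y.a) * (g.c + y.c) =
      (g.s + g.a * g.c) + (y.s + y.a * y.c) + g.a * y.a + (g.a * y.c + g.c * y.a) +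
        (g.a + y.a) * 0
    ring
  · change g.t + y.t + g.c * y.c + g.a * y.b =
      g.t + y.t + g.b * y.b + g.a * y.c + (g.a * y.c + g.c * y.c + g.a * y.b + g.b * y.b) +
        (g.b + y.b) * 0 + (g.a + y.a) * 0
    linear_combination (-(g.b * y.b) - g.a * y.c) * z2

/-- `τ^z` -/
def tau (z : ZMod 2) (y : T) : T := ⟨y.a, y.b + z * y.a, y.c, y.s, y.t + z * y.s⟩

theorem P0_mul (g y : T) : P0 (g * y) = P0 g * tau g.a (P0 y) := by
  ext
  · rfl
  · change g.b + y.b + (g.s + y.s + g.a * y.a) = g.b + g.s + (y.b + y.s + g.a * y.a)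
    ring
  · rfl
  · rfl
  · change g.t + y.t + g.c * y.c + g.a * y.b + (g.s + y.s + g.a * y.a) =
      g.t + g.s + (y.t + y.s + g.a * y.s) + g.c * y.c + g.a * (y.b + y.s + g.a * y.a)
    have := zz g.a
    linear_combination (-(g.a * y.s)) * z2 - y.a * this


@[simp] theorem Δ_a (x y : T) : (Δ x y).a = 0 := rfl
@[simp] theorem Δ_b (x y : T) : (Δ x y).b = 0 := rfl
@[simp] theorem Δ_c (x y : T) : (Δ x y).c = 0 := rfl
@[simp] theorem Δ_s (x y : T) : (Δ x y).s = x.a * y.b + x.b * y.a := rfl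
@[simp] theorem Δ_t (x y : T) :
    (Δ x y).t = x.a * y.b + x.b * y.b + x.a * y.c + x.c * y.c := rfl
@[simp] theorem tau_a (z : ZMod 2) (x : T) : (tau z x).a = x.a := rfl
@[simp] theorem tau_b (z : ZMod 2) (x : T) : (tau z x).b = x.b + z * x.a := rfl
@[simp] theorem tau_c (z : ZMod 2) (x : T) : (tau z x).c = x.c := rfl
@[simp] theorem tau_s (z : ZMod 2) (x : T) : (tau z x).s = x.s := rfl
@[simp] theorem tau_t (z : ZMod 2) (x : T) : (tau z x).t = x.t + z * x.s := rfl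

/-! #### The subgroup `M` -/

/-- The subgroup `M = b λ(G) b⁻¹`. -/
def M : Subgroup (Equiv.Perm T) := conj T PB (Lam T)

def nuM (x : T) : Equiv.Perm T := PB * lam T (PB⁻¹ x) * PB⁻¹

theorem nuM_apply (x y : T) : nuM x y = x * y * Δ x y := by
  have h := PB_mul (PB⁻¹ x) (PB⁻¹ y)
  have h1 : PB (PB⁻¹ x) = x := Equiv.apply_symm_apply PB x
  have h2 : PB (PB⁻¹ y) = y := Equiv.apply_symm_apply PB y
  rw [h1, h2] at h
  rw [← h]
  rfl

theorem mem_M {n : Equiv.Perm T} : n ∈ M ↔ ∃ x, n = nuM x := by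
  rw [M, mem_conj]
  constructor
  · rintro ⟨_, ⟨g, rfl⟩, rfl⟩
    refine ⟨PB g, ?_⟩
    rw [nuM]
    have h1 : PB⁻¹ (PB g) = g := Equiv.symm_apply_apply PB g
    rw [h1]
  · rintro ⟨x, rfl⟩
    exact ⟨_, ⟨_, rfl⟩, rfl⟩

theorem nuM_lam (x g : T) : nuM x * lam T g = lam T (x * g * Δ x g * x⁻¹) * nuM x := by
  ext y
  all_goals
    simp only [Equiv.Perm.mul_apply, nuM_apply, lam_apply, mul_a, mul_b, mul_c, mul_s, mul_t,
      Δ_a, Δ_b, Δ_c, Δ_s, Δ_t, inv_a, inv_b, inv_c, inv_s, inv_t]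
    grind

theorem lam_nuM (x g : T) :
    lam T g * nuM x = nuM (g * (x * g⁻¹ * Δ x g⁻¹)) * lam T g := by
  ext y
  all_goals
    simp only [Equiv.Perm.mul_apply, nuM_apply, lam_apply, mul_a, mul_b, mul_c, mul_s, mul_t,
      Δ_a, Δ_b, Δ_c, Δ_s, Δ_t, inv_a, inv_b, inv_c, inv_s, inv_t]
    grind

theorem M_mem : M ∈ SS T ∩ RR T := by
  refine ⟨⟨regular_conj PB, iso_conj PB, ?_⟩, regular_conj PB, iso_conj PB, ?_⟩
  · intro n hn
    obtain ⟨x, rfl⟩ := mem_M.1 hn
    apply le_norm_of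
    rintro _ ⟨g, rfl⟩
    refine ⟨x * g * Δ x g * x⁻¹, ?_⟩
    rw [nuM_lam]
    group
  · rintro _ ⟨g, rfl⟩
    apply le_norm_of
    intro n hn
    obtain ⟨x, rfl⟩ := mem_M.1 hn
    refine mem_M.2 ⟨g * (x * g⁻¹ * Δ x g⁻¹), ?_⟩
    rw [lam_nuM]
    group

/-! #### The subgroup `N₀` -/

def N0 : Subgroup (Equiv.Perm T) := conj T P0 (Lam T)

def nu0 (x : T) : Equiv.Perm T := P0 * lam T (P0⁻¹ x) * P0⁻¹

theorem nu0_apply (x y : T) : nu0 x y = x * tau x.a y := by
  have h := P0_mul (P0⁻¹ x) (P0⁻¹ y)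
  have h1 : P0 (P0⁻¹ x) = x := Equiv.apply_symm_apply P0 x
  have h2 : P0 (P0⁻¹ y) = y := Equiv.apply_symm_apply P0 y
  have h3 : (P0⁻¹ x).a = x.a := rfl
  rw [h1, h2, h3] at h
  rw [← h]
  rfl

theorem mem_N0 {n : Equiv.Perm T} : n ∈ N0 ↔ ∃ x, n = nu0 x := by
  rw [N0, mem_conj]
  constructor
  · rintro ⟨_, ⟨g, rfl⟩, rfl⟩
    refine ⟨P0 g, ?_⟩
    rw [nu0]
    have h1 : P0⁻¹ (P0 g) = g := Equiv.symm_apply_apply P0 g
    rw [h1]
  · rintro ⟨x, rfl⟩
    exact ⟨_, ⟨_, rfl⟩, rfl⟩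

theorem nu0_lam (x g : T) : nu0 x * lam T g = lam T (x * tau x.a g * x⁻¹) * nu0 x := by
  ext y
  all_goals
    simp only [Equiv.Perm.mul_apply, nu0_apply, lam_apply, mul_a, mul_b, mul_c, mul_s, mul_t,
      tau_a, tau_b, tau_c, tau_s, tau_t, inv_a, inv_b, inv_c, inv_s, inv_t]
    grind

theorem lam_nu0 (x g : T) :
    lam T g * nu0 x = nu0 (g * (x * tau x.a g⁻¹)) * lam T g := by
  have h1 := zz x.a
  have h2 := zz g.a
  ext y
  all_goals
    simp only [Equiv.Perm.mul_apply, nu0_apply, lam_apply, mul_a, mul_b, mul_c, mul_s, mul_t,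
      tau_a, tau_b, tau_c, tau_s, tau_t, inv_a, inv_b, inv_c, inv_s, inv_t]
    grind

theorem N0_mem : N0 ∈ SS T ∩ RR T := by
  refine ⟨⟨regular_conj P0, iso_conj P0, ?_⟩, regular_conj P0, iso_conj P0, ?_⟩
  · intro n hn
    obtain ⟨x, rfl⟩ := mem_N0.1 hn
    apply le_norm_of
    rintro _ ⟨g, rfl⟩
    refine ⟨x * tau x.a g * x⁻¹, ?_⟩
    rw [nu0_lam]
    group
  · rintro _ ⟨g, rfl⟩
    apply le_norm_of
    intro n hn
    obtain ⟨x, rfl⟩ := mem_N0.1 hn
    refine mem_N0.2 ⟨g * (x * tau x.a g⁻¹), ?_⟩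
    rw [lam_nu0]
    group


/-! #### Automorphisms of `T` -/

def A : T := ⟨1, 0, 0, 0, 0⟩
def B : T := ⟨0, 1, 0, 0, 0⟩
def e (s t : ZMod 2) : T := ⟨0, 0, 0, s, t⟩

@[simp] theorem e_a (s t : ZMod 2) : (e s t).a = 0 := rfl
@[simp] theorem e_b (s t : ZMod 2) : (e s t).b = 0 := rfl
@[simp] theorem e_c (s t : ZMod 2) : (e s t).c = 0 := rfl
@[simp] theorem e_s (s t : ZMod 2) : (e s t).s = s := rfl
@[simp] theorem e_t (s t : ZMod 2) : (e s t).t = t := rfl
@[simp] theorem A_a : A.a = 1 := rfl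
@[simp] theorem A_b : A.b = 0 := rfl
@[simp] theorem A_c : A.c = 0 := rfl
@[simp] theorem A_s : A.s = 0 := rfl
@[simp] theorem A_t : A.t = 0 := rfl
@[simp] theorem B_a : B.a = 0 := rfl
@[simp] theorem B_b : B.b = 1 := rfl
@[simp] theorem B_c : B.c = 0 := rfl
@[simp] theorem B_s : B.s = 0 := rfl
@[simp] theorem B_t : B.t = 0 := rfl

theorem e_mul (s t s' t' : ZMod 2) : e s t * e s' t' = e (s + s') (t + t') := by
  ext <;> simp

theorem e_zero : e 0 0 = 1 := rfl

theorem sq_eq (x : T) : x * x = e x.a (x.c + x.a * x.b) := by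
  have h1 := zz x.a
  have h2 := zz x.c
  ext
  all_goals
    simp only [mul_a, mul_b, mul_c, mul_s, mul_t, e_a, e_b, e_c, e_s, e_t]
    grind

theorem comm_eq (x y : T) : x * y * x⁻¹ * y⁻¹ = e 0 (x.a * y.b + x.b * y.a) := by
  ext
  all_goals
    simp only [mul_a, mul_b, mul_c, mul_s, mul_t, e_a, e_b, e_c, e_s, e_t, inv_a, inv_b, inv_c,
      inv_s, inv_t]
    grind

theorem e_inj {s t s' t' : ZMod 2} (h : e s t = e s' t') : s = s' ∧ t = t' :=
  ⟨congrArg T.s h, congrArg T.t h⟩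

theorem aut_w (φ : MulAut T) : φ (e 0 1) = e 0 1 := by
  have h1 : e 0 1 = A * B * A⁻¹ * B⁻¹ := by
    rw [comm_eq]; simp
  have h2 : φ (e 0 1) = e 0 ((φ A).a * (φ B).b + (φ A).b * (φ B).a) := by
    rw [← comm_eq, h1]
    simp only [map_mul, map_inv]
  rcases z_cases ((φ A).a * (φ B).b + (φ A).b * (φ B).a) with h | h
  · exfalso
    rw [h, e_zero] at h2
    have h3 : e 0 1 = e 0 0 := (map_eq_one_iff φ φ.injective).1 h2
    exact absurd (e_inj h3).2 (by decide)
  · rw [h2, h]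

theorem aut_v (φ : MulAut T) : (φ A).a = 1 ∧ φ (e 1 0) = e 1 ((φ A).c + (φ A).b) := by
  have h1 : e 1 0 = A * A := by
    rw [sq_eq]; simp
  have h2 : φ (e 1 0) = e (φ A).a ((φ A).c + (φ A).a * (φ A).b) := by
    rw [← sq_eq, h1, map_mul]
  rcases z_cases (φ A).a with h | h
  · exfalso
    rw [h] at h2
    rcases z_cases ((φ A).c + 0 * (φ A).b) with h' | h'
    · rw [h', e_zero] at h2
      have h3 : e 1 0 = e 0 0 := (map_eq_one_iff φ φ.injective).1 h2
      exact absurd (e_inj h3).1 (by decide)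
    · rw [h', ← aut_w φ] at h2
      exact absurd (e_inj (φ.injective h2)).1 (by decide)
  · refine ⟨h, ?_⟩
    rw [h2, h, one_mul]

theorem aut_e (φ : MulAut T) (s t : ZMod 2) :
    φ (e s t) = e s (t + s * ((φ A).b + (φ A).c)) := by
  have h1 : φ (e s 0) = e s (s * ((φ A).b + (φ A).c)) := by
    rcases z_cases s with rfl | rfl
    · rw [zero_mul, e_zero, map_one]
    · rw [(aut_v φ).2, one_mul, add_comm]
  have h2 : φ (e 0 t) = e 0 t := by
    rcases z_cases t with rfl | rfl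
    · rw [e_zero, map_one]
    · exact aut_w φ
  have h3 : e s t = e s 0 * e 0 t := by rw [e_mul, add_zero, zero_add]
  rw [h3, map_mul, h1, h2, e_mul, add_zero, add_comm]

theorem aut_a (φ : MulAut T) (x : T) : (φ x).a = x.a := by
  have h1 : φ (x * x) = φ x * φ x := map_mul φ x x
  rw [sq_eq, sq_eq, aut_e] at h1
  exact (e_inj h1).1.symm

theorem aut_c0 (φ : MulAut T) (x : T) (hx : x.a = 0) : (φ x).c = x.c := by
  have h1 : φ (x * x) = φ x * φ x := map_mul φ x x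
  rw [sq_eq, sq_eq, aut_e, aut_a, hx] at h1
  have := (e_inj h1).2
  grind

theorem aut_b0 (φ : MulAut T) (x : T) (hx : x.a = 0) : (φ x).b = x.b := by
  have h1 : φ (x * A * x⁻¹ * A⁻¹) = φ x * φ A * (φ x)⁻¹ * (φ A)⁻¹ := by
    simp only [map_mul, map_inv]
  rw [comm_eq, comm_eq, aut_e, aut_a, (aut_v φ).1, hx] at h1
  have := (e_inj h1).2
  simp at this
  exact this.symm

theorem aut_bc (φ : MulAut T) (x : T) :
    (φ x).b = x.b + x.a * (φ A).b ∧ (φ x).c = x.c + x.a * (φ A).c := by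
  rcases z_cases x.a with h | h
  · rw [aut_b0 φ x h, aut_c0 φ x h, h]
    simp
  · have h1 : φ x = φ (x * A⁻¹) * φ A := by
      rw [← map_mul, inv_mul_cancel_right]
    have h2 : (x * A⁻¹).a = 0 := by
      simp [h]
      decide
    have h3 := aut_b0 φ _ h2
    have h4 := aut_c0 φ _ h2
    rw [h1]
    simp only [mul_b, mul_c, h3, h4, h]
    simp

/-- The invariant `c₁(φ)`. -/
def c1 (φ : MulAut T) : ZMod 2 := (φ A).c

theorem c1_mul (φ ψ : MulAut T) : c1 (φ * ψ) = c1 φ + c1 ψ := by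
  have h1 := (aut_bc φ (ψ A)).2
  have h2 := (aut_v ψ).1
  rw [h2, one_mul] at h1
  rw [c1, c1, c1, MulAut.mul_apply, h1, add_comm]

theorem pow_four_eq {H : Type} [Monoid H] (x : H) : x ^ 4 = (x * x) * (x * x) := by
  rw [← pow_two, ← pow_two, ← pow_mul]

theorem pow_four (x : T) : x ^ 4 = 1 := by
  rw [pow_four_eq, sq_eq x, e_mul, z_add, z_add]
  rfl

/-- The main lemma, for elements with `a = 1`. -/
theorem main_aux {δ : T → MulAut T} (hanti : ∀ x y, δ (x * y) = δ y * δ x)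
    (heq : ∀ x y, δ (δ x y) = δ x * δ y * (δ x)⁻¹)
    (hexp : ∀ x, (lam T x * MulAut.toPerm T (δ x)) ^ 4 = 1) (x : T) (hx : x.a = 1) :
    c1 (δ x) = 0 := by
  rcases z_cases (c1 (δ x)) with h | hc
  · exact h
  exfalso
  obtain ⟨z, hz⟩ : ∃ z, z = x * δ x x := ⟨_, rfl⟩
  have hδz : δ z = δ x * δ x := by
    rw [hz, hanti, heq]
    group
  have hsq : (lam T x * MulAut.toPerm T (δ x)) * (lam T x * MulAut.toPerm T (δ x)) =
      lam T z * MulAut.toPerm T (δ z) := by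
    rw [mul_assoc, ← mul_assoc _ (lam T x), toPerm_lam, hδz, hz, map_mul, map_mul]
    group
  have hz1 : z * δ z z = 1 := by
    have h1 := hexp x
    have h2 : (lam T x * MulAut.toPerm T (δ x)) ^ 4 =
        (lam T z * MulAut.toPerm T (δ z)) * (lam T z * MulAut.toPerm T (δ z)) := by
      rw [← hsq, pow_four_eq]
    rw [h2] at h1
    have h3 := congrArg (fun q : Equiv.Perm T => q 1) h1
    simpa [Equiv.Perm.mul_apply, lam_apply, toPerm_apply] using h3
  have hza : z.a = 0 := by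
    rw [hz, mul_a, aut_a]
    exact z_add _
  have hzc : z.c = 1 := by
    have h1 := (aut_bc (δ x) x).2
    rw [hx, one_mul] at h1
    rw [hz, mul_c, h1]
    rw [c1] at hc
    rw [hc]
    grind
  have hzz : z * z = e 0 1 := by
    rw [sq_eq, hza, hzc]
    simp
  have hww : e 0 1 * e 0 1 = 1 := by
    rw [e_mul]
    rfl
  have hδzz : δ z z = z * e 0 1 := by
    have h1 : δ z z = z⁻¹ := (inv_eq_of_mul_eq_one_right hz1).symm
    rw [h1]
    apply inv_eq_of_mul_eq_one_right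
    rw [← mul_assoc, hzz, hww]
  have hne : z ≠ z * e 0 1 := by
    intro h
    have h1 : e 0 1 = 1 := (mul_eq_left (a := z)).1 h.symm
    exact absurd (e_inj (s := 0) (t := 1) (s' := 0) (t' := 0) h1).2 (by decide)
  have hδw : δ (e 0 1) = 1 := by
    have h1 : δ (δ z z) = δ z := by rw [heq]; group
    rw [hδzz, hanti] at h1
    exact mul_eq_right.1 h1
  obtain ⟨q, hq⟩ : ∃ q, q = z⁻¹ * δ x z := ⟨_, rfl⟩
  have hzq : δ x z = z * q := by rw [hq]; group
  have hqe : q = e q.s q.t := by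
    have hb := (aut_bc (δ x) z).1
    have hc' := (aut_bc (δ x) z).2
    have ha := aut_a (δ x) z
    rw [hza, zero_mul, add_zero] at hb hc'
    ext
    · rw [hq]; simp only [mul_a, inv_a, ha, hza, e_a]; decide
    · rw [hq]; simp only [mul_b, inv_b, hb, e_b]; exact z_add _
    · rw [hq]; simp only [mul_c, inv_c, hc', e_c]; exact z_add _
    · rfl
    · rfl
  have hδq : δ q = 1 := by
    have h1 : δ (δ x z) = δ z := by
      rw [heq, hδz]
      group
    rw [hzq, hanti] at h1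
    exact mul_eq_right.1 h1
  rcases z_cases q.s with hs | hs
  · -- `q` is a power of `w`
    rw [hs] at hqe
    have h1 : δ x q = q := by
      rw [hqe, aut_e]
      simp
    have h2 : q * q = 1 := by
      rw [hqe, e_mul, z_add, z_add]
      rfl
    apply hne
    calc z = z * (q * q) := by rw [h2, mul_one]
      _ = z * q * q := by rw [mul_assoc]
      _ = δ x z * δ x q := by rw [h1, hzq]
      _ = δ x (z * q) := by rw [map_mul]
      _ = δ x (δ x z) := by rw [hzq]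
      _ = δ z z := by rw [hδz, MulAut.mul_apply]
      _ = z * e 0 1 := hδzz
  · rw [hs] at hqe
    have hδe : ∀ t, δ (e 0 t) = 1 := by
      intro t
      rcases z_cases t with rfl | rfl
      · rw [e_zero]
        have h1 := hanti 1 1
        rw [mul_one] at h1
        exact mul_eq_right.1 h1.symm
      · exact hδw
    have hδ1 : ∀ t, δ (e 1 t) = 1 := by
      intro t
      have h1 : e 1 t = e 1 q.t * e 0 (q.t + t) := by
        rw [e_mul, add_zero, ← add_assoc, z_add, zero_add]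
      rw [h1, hanti, hδe, one_mul, ← hqe]
      exact hδq
    have h2 : δ z = 1 := by
      rw [hδz, ← hanti, sq_eq, hx]
      exact hδ1 _
    apply hne
    rw [← hδzz, h2, MulAut.one_apply]

theorem main_lemma {N : Subgroup (Equiv.Perm T)} (hN : N ∈ SS T ∩ RR T) {δ : T → MulAut T}
    (hmem : ∀ x, lam T x * MulAut.toPerm T (δ x) ∈ N)
    (hanti : ∀ x y, δ (x * y) = δ y * δ x)
    (heq : ∀ x y, δ (δ x y) = δ x * δ y * (δ x)⁻¹) (x : T) : c1 (δ x) = 0 := by
  obtain ⟨⟨_, ⟨f⟩, _⟩, _⟩ := hN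
  have hexp : ∀ x, (lam T x * MulAut.toPerm T (δ x)) ^ 4 = 1 := by
    intro x
    have h1 : (⟨_, hmem x⟩ : N) ^ 4 = 1 := by
      apply f.injective
      rw [map_pow, pow_four, map_one]
    have h2 := congrArg (fun n : N => (n : Equiv.Perm T)) h1
    simpa using h2
  rcases z_cases x.a with h | h
  · have h1 : (x * A).a = 1 := by simp [h]
    have h2 := main_aux hanti heq hexp _ h1
    have h3 := main_aux hanti heq hexp A rfl
    rw [hanti, c1_mul, h3, zero_add] at h2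
    exact h2
  · exact main_aux hanti heq hexp x h

theorem equivariant (φ : MulAut T) (hφ : c1 φ = 0) (x y : T) : φ (Δ x y) = Δ (φ x) (φ y) := by
  have h1 : Δ x y = e (x.a * y.b + x.b * y.a) (x.a * y.b + x.b * y.b + x.a * y.c + x.c * y.c) :=
    rfl
  rw [c1] at hφ
  have hx := aut_bc φ x
  have hy := aut_bc φ y
  have hxa := aut_a φ x
  have hya := aut_a φ y
  rw [hφ] at hx hy
  rw [h1, aut_e, hφ]
  have hz := zz (φ A).b
  ext
  all_goals
    simp only [e_a, e_b, e_c, e_s, e_t, Δ_a, Δ_b, Δ_c, Δ_s, Δ_t, hx.1, hx.2, hy.1, hy.2, hxa, hya]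
    try grind

theorem toPerm_nuM (φ : MulAut T) (h : ∀ x y, φ (Δ x y) = Δ (φ x) (φ y)) (x : T) :
    MulAut.toPerm T φ * nuM x = nuM (φ x) * MulAut.toPerm T φ := by
  ext1 y
  simp only [Equiv.Perm.mul_apply, nuM_apply, toPerm_apply, map_mul, h]

theorem M_mem_QQ : M ∈ QQ T := by
  refine ⟨M_mem, fun N hN n hn => ?_⟩
  obtain ⟨δ, hmem, hn', hanti, heq⟩ := exists_gamma hN
  have h1 := main_lemma hN hmem hanti heq (n 1)
  rw [hn' n hn]
  refine Subgroup.mul_mem _ (M_mem.2.2.2 ⟨_, rfl⟩) ?_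
  apply le_norm_of
  intro m hm
  obtain ⟨x, rfl⟩ := mem_M.1 hm
  refine mem_M.2 ⟨δ (n 1) x, ?_⟩
  rw [toPerm_nuM _ (equivariant _ h1)]
  group


/-! #### The contradiction -/

theorem tau_mul (z : ZMod 2) (x y : T) : tau z (x * y) = tau z x * tau z y := by
  ext
  all_goals
    simp only [tau_a, tau_b, tau_c, tau_s, tau_t, mul_a, mul_b, mul_c, mul_s, mul_t]
    try ring

theorem tau_tau (x : T) : tau 1 (tau 1 x) = x := by
  ext
  all_goals
    simp only [tau_a, tau_b, tau_c, tau_s, tau_t]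
    try grind

/-- `τ` as an automorphism. -/
def tauAut : MulAut T where
  toFun := tau 1
  invFun := tau 1
  left_inv := tau_tau
  right_inv := tau_tau
  map_mul' := tau_mul 1

theorem tauAut_apply (x : T) : tauAut x = tau 1 x := rfl

def tau' (x : T) : T := ⟨x.a, x.b, x.c + x.a, x.s + x.a * x.a, x.t + x.s + x.a * x.c⟩

theorem conj_tau_apply (x : T) : (PB⁻¹ * MulAut.toPerm T tauAut * PB) x = tau' x := by
  change PB.symm (tau 1 (PB x)) = tau' x
  ext
  · rfl
  · rfl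
  · change x.c + 1 * x.a = x.c + x.a
    ring
  · change x.s + x.a * x.c + x.a * (x.c + 1 * x.a) = x.s + x.a * x.a
    grind
  · change x.t + 1 * (x.s + x.a * x.c) = x.t + x.s + x.a * x.c
    ring

/-- `b⁻¹ τ b` is an automorphism with `c₁ = 1`. -/
theorem exists_tau' : ∃ φ : MulAut T, MulAut.toPerm T φ = PB⁻¹ * MulAut.toPerm T tauAut * PB ∧
    c1 φ = 1 := by
  refine ⟨{ (PB⁻¹ * MulAut.toPerm T tauAut * PB : Equiv.Perm T) with map_mul' := ?_ }, ?_, ?_⟩
  · intro x y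
    change (PB⁻¹ * MulAut.toPerm T tauAut * PB) (x * y) =
      (PB⁻¹ * MulAut.toPerm T tauAut * PB) x * (PB⁻¹ * MulAut.toPerm T tauAut * PB) y
    rw [conj_tau_apply, conj_tau_apply, conj_tau_apply]
    ext
    · change x.a + y.a = x.a + y.a
      rfl
    · change x.b + y.b = x.b + y.b
      rfl
    · change x.c + y.c + (x.a + y.a) = x.c + x.a + (y.c + y.a)
      ring
    · change x.s + y.s + x.a * y.a + (x.a + y.a) * (x.a + y.a) =
        x.s + x.a * x.a + (y.s + y.a * y.a) + x.a * y.a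
      grind
    · change x.t + y.t + x.c * y.c + x.a * y.b + (x.s + y.s + x.a * y.a) +
        (x.a + y.a) * (x.c + y.c) = x.t + x.s + x.a * x.c + (y.t + y.s + y.a * y.c) +
        (x.c + x.a) * (y.c + y.a) + x.a * y.b
      grind
  · ext x <;> rfl
  · rfl

theorem nu0_A : nu0 A = lam T A * MulAut.toPerm T tauAut := by
  ext1 y
  rw [nu0_apply, Equiv.Perm.mul_apply, lam_apply, toPerm_apply, tauAut_apply, A_a]

theorem no_norm (ψ : MulAut T) (hc : c1 ψ = 1)
    (h : MulAut.toPerm T ψ ∈ Subgroup.normalizer (M : Set (Equiv.Perm T))) : False := by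
  have h1 := (Subgroup.mem_normalizer_iff.1 h (nuM A)).1 (mem_M.2 ⟨A, rfl⟩)
  obtain ⟨z, hz⟩ := mem_M.1 h1
  have h2 : MulAut.toPerm T ψ * nuM A = nuM z * MulAut.toPerm T ψ := by
    rw [← hz]; group
  have h3 := congrArg (fun q : Equiv.Perm T => q 1) h2
  have h4 := congrArg (fun q : Equiv.Perm T => q B) h2
  simp only [Equiv.Perm.mul_apply, nuM_apply, toPerm_apply, map_one, mul_one] at h3 h4
  have hΔ1 : ∀ x, Δ x 1 = 1 := by
    intro x
    ext
    all_goals
      simp only [Δ_a, Δ_b, Δ_c, Δ_s, Δ_t, one_a, one_b, one_c, one_s, one_t]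
      try ring
  rw [hΔ1, hΔ1, mul_one, mul_one] at h3
  rw [← h3, map_mul, map_mul] at h4
  have h5 : ψ (Δ A B) = Δ (ψ A) (ψ B) := mul_left_cancel h4
  have h6 : Δ A B = e 1 1 := by
    ext
    all_goals
      simp [Δ_a, Δ_b, Δ_c, Δ_s, Δ_t]
  rw [h6, aut_e] at h5
  have h7 := congrArg T.t h5
  have hB := aut_bc ψ B
  have hBa := aut_a ψ B
  rw [B_a, zero_mul, add_zero, zero_mul, add_zero, B_b, B_c] at hB
  rw [B_a] at hBa
  rw [c1] at hc
  have hA := (aut_v ψ).1
  simp only [e_t, Δ_t, hB.1, hB.2, hA, hc] at h7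
  have : (1 : ZMod 2) = 0 := by
    linear_combination h7
  exact absurd this (by decide)

theorem not_conjClosed (P : Set (Equiv.Perm T)) (hP : IsRepSet T P) : ¬ ConjClosed T P := by
  intro hC
  obtain ⟨β, hβ, hβM⟩ := hP.surjOn M_mem_QQ
  simp only at hβM
  obtain ⟨γ, hγ, hβγ⟩ := hC β hβ β hβ
  have hK : conj T β M ∈ QQ T := by
    rw [← hβM, ← conj_mul, hβγ]
    exact hP.mapsTo hγ
  -- `τ` normalises `β M β⁻¹`
  have h1 : nu0 A ∈ Subgroup.normalizer (conj T β M : Set (Equiv.Perm T)) :=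
    hK.2 N0 N0_mem (mem_N0.2 ⟨A, rfl⟩)
  have h2 : lam T A ∈ Subgroup.normalizer (conj T β M : Set (Equiv.Perm T)) :=
    hK.1.2.2.2 ⟨A, rfl⟩
  have h3 : MulAut.toPerm T tauAut ∈ Subgroup.normalizer (conj T β M : Set (Equiv.Perm T)) := by
    have h4 : MulAut.toPerm T tauAut = (lam T A)⁻¹ * nu0 A := by
      rw [nu0_A]; group
    rw [h4]
    exact Subgroup.mul_mem _ (Subgroup.inv_mem _ h2) h1
  rw [mem_norm_conj] at h3
  -- `η = b⁻¹ β` lies in the holomorph
  have hη : PB⁻¹ * β ∈ Hol T := by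
    rw [Hol, mem_norm, conj_mul, hβM, M, ← conj_mul, inv_mul_cancel]
    ext q
    rw [mem_conj']
    simp
  obtain ⟨g, hg⟩ : ∃ g, g = (PB⁻¹ * β) 1 := ⟨_, rfl⟩
  have hη1 : (lam T g)⁻¹ * (PB⁻¹ * β) ∈ Hol T :=
    Subgroup.mul_mem _ (Subgroup.inv_mem _ (lam_mem_Hol g)) hη
  have hη2 : ((lam T g)⁻¹ * (PB⁻¹ * β)) 1 = 1 := by
    rw [Equiv.Perm.mul_apply, ← hg, Equiv.Perm.inv_def, Equiv.symm_apply_eq, lam_apply, mul_one]
  obtain ⟨φ, hφ⟩ := aut_of_norm hη1 hη2
  obtain ⟨χ, hχ, hχc⟩ := exists_tau'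
  have hβ' : β = PB * (lam T g * MulAut.toPerm T φ) := by
    rw [hφ]; group
  have h5 : β⁻¹ * MulAut.toPerm T tauAut * β =
      lam T (φ⁻¹ (g⁻¹ * χ g)) * MulAut.toPerm T (φ⁻¹ * χ * φ) := by
    have h6 : β⁻¹ * MulAut.toPerm T tauAut * β = (MulAut.toPerm T φ)⁻¹ * (lam T g)⁻¹ *
        (PB⁻¹ * MulAut.toPerm T tauAut * PB) * (lam T g * MulAut.toPerm T φ) := by
      rw [hβ']; group
    rw [h6, ← hχ, ← map_inv, ← map_inv]
    ext1 x
    change φ⁻¹ (g⁻¹ * χ (g * φ x)) = φ⁻¹ (g⁻¹ * χ g) * φ⁻¹ (χ (φ x))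
    rw [map_mul χ, ← mul_assoc, map_mul φ⁻¹]
  rw [h5] at h3
  have h7 : lam T (φ⁻¹ (g⁻¹ * χ g)) ∈ Subgroup.normalizer (M : Set (Equiv.Perm T)) :=
    M_mem.2.2.2 ⟨_, rfl⟩
  have h8 := (Subgroup.mul_mem_cancel_left _ h7).1 h3
  refine no_norm _ ?_ h8
  have h9 : c1 (φ⁻¹ * χ * φ) = c1 φ⁻¹ + c1 φ + c1 χ := by
    rw [c1_mul, c1_mul]; ring
  rw [h9, ← c1_mul, inv_mul_cancel, hχc]
  rfl

theorem N0_not_mem : N0 ∉ QQ T := by
  intro h
  have h1 : nuM A ∈ Subgroup.normalizer (N0 : Set (Equiv.Perm T)) :=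
    h.2 M M_mem (mem_M.2 ⟨A, rfl⟩)
  have h2 := (Subgroup.mem_normalizer_iff.1 h1 (nu0 A)).1 (mem_N0.2 ⟨A, rfl⟩)
  obtain ⟨z, hz⟩ := mem_N0.1 h2
  have h3 : nuM A * nu0 A = nu0 z * nuM A := by
    rw [← hz]; group
  have h4 := congrArg (fun q : Equiv.Perm T => q 1) h3
  have h5 := congrArg (fun q : Equiv.Perm T => q B) h3
  simp only [Equiv.Perm.mul_apply, nuM_apply, nu0_apply] at h4 h5
  have ha := congrArg T.a h4
  have hb := congrArg T.t h4
  have hc := congrArg T.t h5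
  simp only [mul_a, mul_b, mul_c, mul_s, mul_t, tau_a, tau_b, tau_c, tau_t, Δ_a, Δ_b, Δ_c,
    Δ_s, Δ_t, A_a, A_b, A_c, A_s, A_t, B_a, B_b, B_c, B_s, B_t, one_a, one_b, one_c, one_s,
    one_t] at ha hb hc
  have hza : z.a = 1 := by
    rcases z_cases z.a with h | h
    · rw [h] at ha
      exact absurd ha (by decide)
    · exact h
  rw [hza] at hb hc
  have : (1 : ZMod 2) = 0 := by
    linear_combination hb - hc
  exact absurd this (by decide)

end T

def T.equivProd : T ≃ ZMod 2 × ZMod 2 × ZMod 2 × ZMod 2 × ZMod 2 where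
  toFun x := (x.a, x.b, x.c, x.s, x.t)
  invFun p := ⟨p.1, p.2.1, p.2.2.1, p.2.2.2.1, p.2.2.2.2⟩
  left_inv _ := rfl
  right_inv _ := rfl

theorem T.card : Nat.card T = 32 := by
  rw [Nat.card_congr T.equivProd]
  simp only [Nat.card_prod, Nat.card_zmod]

/-- There is a finite group (of order 32) for which no representative set of `𝒬(G)` is
conj-closed. -/
theorem exists_bad : ∃ (G : Type) (_ : Group G) (_ : Finite G), Nat.card G = 32 ∧
    QQ G ⊂ SS G ∩ RR G ∧ ∀ A, IsRepSet G A → ¬ ConjClosed G A :=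
  ⟨T, inferInstance, inferInstance, T.card,
    ⟨fun _ h => h.1, fun h => T.N0_not_mem (h T.N0_mem)⟩, T.not_conjClosed⟩

end Pool.Agent.Lib_helper29.QHol
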