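import Mathlib

set_option autoImplicit false

namespace Pool.Agent.Lib_helper29.SepBP

/-- A nondeterministic branching program on the variables `x_0, …, x_{n-1}`: a finite directed
acyclic graph with one source and two sinks `accept` and `reject`.  `edge u l w` says that there is
an edge from `u` to `w` with label `l`, where `l = none` means unlabelled and `l = some (i, b)`
means the test `x_i = b`.  (The sinks, but no other node besides the source, are allowed to have no
incoming edge; otherwise constant functions would have no programs.) -/
structure BP (n : ℕ) where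
  /-- the nodes -/
  V : Type
  /-- there are finitely many nodes -/
  fin : Fintype V
  /-- the labelled edges -/
  edge : V → Option (Fin n × Bool) → V → Prop
  /-- the source -/
  source : V
  /-- the accepting sink -/
  accept : V
  /-- the rejecting sink -/
  reject : V
  /-- the two sinks are different -/
  accept_ne_reject : accept ≠ reject
  /-- there is no directed cycle -/
  acyclic : ∀ v, ¬ Relation.TransGen (fun u w => ∃ l, edge u l w) v v
  /-- the nodes without outgoing edges are exactly the two sinks -/
  sink_iff : ∀ v, (∀ l w, ¬ edge v l w) ↔ (v = accept ∨ v = reject)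
  /-- the source has no incoming edge -/
  source_no_in : ∀ u l, ¬ edge u l source
  /-- every node except the source and the sinks has an incoming edge -/
  only_source : ∀ v, (∀ u l, ¬ edge u l v) → v = source ∨ v = accept ∨ v = reject

variable {n : ℕ}

/-- The size of a branching program is its number of nodes. -/
def BP.size (P : BP n) : ℕ := @Fintype.card P.V P.fin

/-- `P.Path u ls v`: there is a directed path from `u` to `v` whose sequence of edge labels
is `ls`. -/
inductive BP.Path (P : BP n) : P.V → List (Option (Fin n × Bool)) → P.V → Prop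
  | nil (v : P.V) : BP.Path P v [] v
  | cons {u w v : P.V} {l : Option (Fin n × Bool)} {ls : List (Option (Fin n × Bool))} :
      P.edge u l w → BP.Path P w ls v → BP.Path P u (l :: ls) v

/-- The list of the variables tested along a path with label sequence `ls`. -/
def tests (ls : List (Option (Fin n × Bool))) : List (Fin n) :=
  ls.reduceOption.map Prod.fst

/-- Read-once: no directed path (consistent or not) tests the same variable twice. -/
def BP.ReadOnce (P : BP n) : Prop :=
  ∀ (u v : P.V) (ls : List (Option (Fin n × Bool))), P.Path u ls v → (tests ls).Nodup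

/-- Deterministic: every non-sink node is labelled by a variable `x_i` and has exactly two
outgoing edges, labelled `x_i = 0` and `x_i = 1`. -/
def BP.Deterministic (P : BP n) : Prop :=
  ∀ u : P.V, u ≠ P.accept → u ≠ P.reject → ∃ (i : Fin n) (w₀ w₁ : P.V),
    ∀ l w, P.edge u l w ↔
      (l = some (i, false) ∧ w = w₀) ∨ (l = some (i, true) ∧ w = w₁)

/-- The input `x` satisfies all tests in the label sequence `ls`. -/
def Sat (x : Fin n → Bool) (ls : List (Option (Fin n × Bool))) : Prop :=
  ∀ i b, some (i, b) ∈ ls → x i = b

/-- `x` is accepted iff some path from the source to the accepting sink has all its tests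
satisfied by `x`. -/
def BP.Accepts (P : BP n) (x : Fin n → Bool) : Prop :=
  ∃ ls, P.Path P.source ls P.accept ∧ Sat x ls

/-- `P` computes `g` if it accepts exactly the inputs `x` with `g x = 1`. -/
def BP.Computes (P : BP n) (g : (Fin n → Bool) → Bool) : Prop :=
  ∀ x, g x = true ↔ P.Accepts x

/-- A family of Boolean functions, one for each number `n` of variables. -/
abbrev Family : Type := (n : ℕ) → (Fin n → Bool) → Bool

/-- `f` has polynomial-size DNFs (is in `Σ₂^p`).  A DNF is a finite set of terms, a term is a
finite set of literals, and the literal `(i, b)` is satisfied by `x` iff `x_i = b`. -/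
def PolyDNF (f : Family) : Prop :=
  ∃ C k : ℕ, ∀ n ≥ 1, ∃ D : Finset (Finset (Fin n × Bool)),
    D.card ≤ C * n ^ k ∧ ∀ x, f n x = true ↔ ∃ t ∈ D, ∀ l ∈ t, x l.1 = l.2

/-- `f` has polynomial-size nondeterministic read-once branching programs (1-n.b.p.). -/
def PolyNBP1 (f : Family) : Prop :=
  ∃ C k : ℕ, ∀ n ≥ 1, ∃ P : BP n, P.ReadOnce ∧ P.Computes (f n) ∧ P.size ≤ C * n ^ k

/-- `f` has polynomial-size deterministic read-once branching programs (1-b.p.). -/
def PolyBP1 (f : Family) : Prop :=
  ∃ C k : ℕ, ∀ n ≥ 1, ∃ P : BP n,
    P.Deterministic ∧ P.ReadOnce ∧ P.Computes (f n) ∧ P.size ≤ C * n ^ k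

/-- `f` is separating: both `f` and `¬f` have 1-n.b.p. of polynomial size, but the minimal size
of a 1-b.p. for `f` is not bounded by any polynomial. -/
def Separating (f : Family) : Prop :=
  PolyNBP1 f ∧ PolyNBP1 (fun n x => !f n x) ∧ ¬ PolyBP1 f

/-! ### The explicit family -/

lemma cell_lt (n : ℕ) (i j : Fin (Nat.sqrt n)) : i.1 * Nat.sqrt n + j.1 < n := by
  have h1 : Nat.sqrt n * Nat.sqrt n ≤ n := Nat.sqrt_le n
  have h2 : (i.1 + 1) * Nat.sqrt n ≤ Nat.sqrt n * Nat.sqrt n :=
    Nat.mul_le_mul_right _ i.2
  have h3 := j.2
  nlinarith

/-- The variable in row `i` and column `j` of the `⌊√n⌋ × ⌊√n⌋` matrix. -/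
def cell (n : ℕ) (i j : Fin (Nat.sqrt n)) : Fin n := ⟨i.1 * Nat.sqrt n + j.1, cell_lt n i j⟩

/-- The row-and-column function: arrange the first `⌊√n⌋²` of the `n` variables in a square
matrix; the value is `1` iff some row consists of ones only and some column consists of ones
only. -/
def rowCol : Family := fun n x =>
  decide ((∃ i, ∀ j, x (cell n i j) = true) ∧ (∃ j, ∀ i, x (cell n i j) = true))


end Pool.Agent.Lib_helper29.SepBP
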