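import Mathlib
import Pool.Agent.Lib_helper29.SepBPDefs

set_option autoImplicit false

namespace Pool.Agent.Lib_helper29.SepBP

variable {n : ℕ}

/-- Depth-`d` circuits with unbounded fan-in AND/OR gates, negations only at the inputs, and
alternating levels of gates, in which every gate has at most `s` children: `InDepth s d b g` says
that `g` is computed by such a circuit whose output gate is an OR (if `b = true`) or an AND
(if `b = false`).  Depth `0` means a literal `x_i` or `¬x_i`. -/
def InDepth (s : ℕ) : ℕ → Bool → ((Fin n → Bool) → Bool) → Prop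
  | 0, _, g => ∃ (i : Fin n) (b : Bool), ∀ x, g x = true ↔ x i = b
  | d + 1, true, g => ∃ L : List ((Fin n → Bool) → Bool), L.length ≤ s ∧
      (∀ h ∈ L, InDepth s d false h) ∧ ∀ x, g x = true ↔ ∃ h ∈ L, h x = true
  | d + 1, false, g => ∃ L : List ((Fin n → Bool) → Bool), L.length ≤ s ∧
      (∀ h ∈ L, InDepth s d true h) ∧ ∀ x, g x = true ↔ ∀ h ∈ L, h x = true

/-- `Σ_d^p`: polynomial-size depth-`d` circuits whose output gate is an OR. -/
def SigmaP (d : ℕ) (f : Family) : Prop :=
  ∃ C k : ℕ, ∀ n ≥ 1, InDepth (C * n ^ k) d true (f n)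

/-- `Π_d^p`: polynomial-size depth-`d` circuits whose output gate is an AND. -/
def PiP (d : ℕ) (f : Family) : Prop :=
  ∃ C k : ℕ, ∀ n ≥ 1, InDepth (C * n ^ k) d false (f n)

/-- Along every computation path (a path from the source which is followed by some input) every
variable is tested at most once. -/
def BP.CompReadOnce (P : BP n) : Prop :=
  ∀ (x : Fin n → Bool) (v : P.V) (ls : List (Option (Fin n × Bool))),
    P.Path P.source ls v → Sat x ls → (tests ls).Nodup

/-- `f` separates `NP ∩ co-NP` from quasipolynomial size for 1-b.p.: both `f` and `¬f` have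
1-n.b.p. of polynomial size, and for every constant `c` every 1-b.p. for `f_n` has more than
`2 ^ ((log₂ n) ^ c)` nodes, for all sufficiently large `n`. -/
def SeparatesQuasi (f : Family) : Prop :=
  PolyNBP1 f ∧ PolyNBP1 (fun n x => !f n x) ∧
    ∀ c : ℝ, ∀ᶠ n : ℕ in Filter.atTop, ∀ P : BP n,
      P.Deterministic → P.CompReadOnce → P.Computes (f n) →
        (2 : ℝ) ^ (Real.logb 2 n ^ c) < (P.size : ℝ)

end Pool.Agent.Lib_helper29.SepBP
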