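import Mathlib
import Pool.Agent.Lib_helper29.SepBPDefs

set_option autoImplicit false

namespace Pool.Agent.Lib_helper29.SepBP

variable {n : ℕ}

lemma cell_inj (n : ℕ) {i j i' j' : Fin (Nat.sqrt n)} (h : cell n i j = cell n i' j') :
    i = i' ∧ j = j' := by
  have h1 : i.1 * Nat.sqrt n + j.1 = i'.1 * Nat.sqrt n + j'.1 := congrArg Fin.val h
  have hj := j.2
  have hj' := j'.2
  have hi : i.1 = i'.1 := by
    rcases lt_trichotomy i.1 i'.1 with h2 | h2 | h2
    · exfalso
      have : (i.1 + 1) * Nat.sqrt n ≤ i'.1 * Nat.sqrt n := Nat.mul_le_mul_right _ h2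
      nlinarith
    · exact h2
    · exfalso
      have : (i'.1 + 1) * Nat.sqrt n ≤ i.1 * Nat.sqrt n := Nat.mul_le_mul_right _ h2
      nlinarith
  refine ⟨Fin.ext hi, Fin.ext ?_⟩
  rw [hi] at h1
  omega

/-! ### General facts about branching programs -/

lemma BP.wf (P : BP n) : WellFounded (fun w u : P.V => ∃ l, P.edge u l w) := by
  have := P.fin
  have : Finite P.V := Finite.of_fintype _
  let r : P.V → P.V → Prop := fun w u => Relation.TransGen (fun u w => ∃ l, P.edge u l w) u w
  have : IsTrans P.V r := ⟨fun a b c hab hbc => Relation.TransGen.trans hbc hab⟩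
  have : Std.Irrefl r := ⟨fun a h => P.acyclic a h⟩
  have hr : WellFounded r := Finite.wellFounded_of_trans_of_irrefl r
  refine Subrelation.wf ?_ hr
  intro w u h
  exact Relation.TransGen.single h

lemma BP.Path.trans {P : BP n} {u v w : P.V} {ls ms : List (Option (Fin n × Bool))}
    (h₁ : P.Path u ls v) (h₂ : P.Path v ms w) : P.Path u (ls ++ ms) w := by
  induction h₁ with
  | nil v => simpa using h₂
  | cons he _ ih => exact BP.Path.cons he (ih h₂)

lemma BP.not_edge_accept (P : BP n) (l : Option (Fin n × Bool)) (w : P.V) :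
    ¬ P.edge P.accept l w := (P.sink_iff P.accept).2 (Or.inl rfl) l w

lemma BP.not_edge_reject (P : BP n) (l : Option (Fin n × Bool)) (w : P.V) :
    ¬ P.edge P.reject l w := (P.sink_iff P.reject).2 (Or.inr rfl) l w

/-- Acceptance can be checked with a local semantic invariant. -/
lemma BP.accepts_iff (P : BP n) (x : Fin n → Bool) (sem : P.V → Prop)
    (hacc : sem P.accept) (hrej : ¬ sem P.reject)
    (hloc : ∀ u, u ≠ P.accept → u ≠ P.reject →
      (sem u ↔ ∃ l w, P.edge u l w ∧ (∀ i b, l = some (i, b) → x i = b) ∧ sem w)) :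
    P.Accepts x ↔ sem P.source := by
  have key : ∀ u : P.V, (∃ ls, P.Path u ls P.accept ∧ Sat x ls) ↔ sem u := by
    intro u
    induction u using P.wf.induction with
    | _ u ih =>
      by_cases ha : u = P.accept
      · subst ha
        exact ⟨fun _ => hacc, fun _ => ⟨[], BP.Path.nil _, fun i b h => by simp at h⟩⟩
      by_cases hr : u = P.reject
      · subst hr
        refine ⟨?_, fun h => absurd h hrej⟩
        rintro ⟨ls, hp, -⟩
        generalize hv : P.accept = v at hp
        cases hp with
        | nil _ => exact absurd hv.symm ha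
        | cons he _ => exact absurd he (P.not_edge_reject _ _)
      rw [hloc u ha hr]
      constructor
      · rintro ⟨ls, hp, hs⟩
        generalize hv : P.accept = v at hp
        cases hp with
        | nil _ => exact absurd hv.symm ha
        | @cons _ w _ l ls he hp =>
          subst hv
          refine ⟨l, w, he, ?_, ?_⟩
          · intro i b hl
            exact hs i b (by simp [hl])
          · exact (ih w ⟨l, he⟩).1 ⟨ls, hp, fun i b hm => hs i b (List.mem_cons_of_mem _ hm)⟩
      · rintro ⟨l, w, he, hl, hw⟩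
        obtain ⟨ls, hp, hs⟩ := (ih w ⟨l, he⟩).2 hw
        refine ⟨l :: ls, BP.Path.cons he hp, ?_⟩
        intro i b hm
        rcases List.mem_cons.1 hm with h | h
        · exact hl i b h.symm
        · exact hs i b h
  exact key P.source

lemma tests_none (ls : List (Option (Fin n × Bool))) : tests (none :: ls) = tests ls := by
  simp [tests]

lemma tests_some (i : Fin n) (b : Bool) (ls : List (Option (Fin n × Bool))) :
    tests (some (i, b) :: ls) = i :: tests ls := by
  simp [tests]

lemma tests_append (ls ms : List (Option (Fin n × Bool))) :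
    tests (ls ++ ms) = tests ls ++ tests ms := by
  simp [tests, List.reduceOption_append]

lemma mem_tests {i : Fin n} {b : Bool} {ls : List (Option (Fin n × Bool))}
    (h : some (i, b) ∈ ls) : i ∈ tests ls := by
  unfold tests
  rw [List.mem_map]
  exact ⟨(i, b), List.reduceOption_mem_iff.2 h, rfl⟩

/-- Read-once can be checked with a set of variables that may still be tested. -/
lemma BP.readOnce_of_vars (P : BP n) (vars : P.V → Set (Fin n))
    (h0 : ∀ u w, P.edge u none w → vars w ⊆ vars u)
    (h1 : ∀ u w i b, P.edge u (some (i, b)) w → i ∈ vars u ∧ i ∉ vars w ∧ vars w ⊆ vars u) :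
    P.ReadOnce := by
  intro u v ls hp
  have : (∀ i ∈ tests ls, i ∈ vars u) ∧ (tests ls).Nodup := by
    induction hp with
    | nil v => simp [tests]
    | @cons u w v l ls he hp ih =>
      rcases l with _ | ⟨i, b⟩
      · rw [tests_none]
        exact ⟨fun i hi => h0 _ _ he (ih.1 i hi), ih.2⟩
      · rw [tests_some]
        obtain ⟨ha, hb, hc⟩ := h1 _ _ _ _ he
        refine ⟨?_, ?_⟩
        · intro i' hi'
          rcases List.mem_cons.1 hi' with h | h
          · rw [h]; exact ha
          · exact hc (ih.1 i' h)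
        · exact List.nodup_cons.2 ⟨fun h => hb (ih.1 i h), ih.2⟩
  exact this.2

lemma acyclic_of_rank {V : Type} (r : V → V → Prop) (rk : V → ℕ)
    (h : ∀ u w, r u w → rk u < rk w) (v : V) : ¬ Relation.TransGen r v v := by
  have key : ∀ u w, Relation.TransGen r u w → rk u < rk w := by
    intro u w huw
    induction huw with
    | single h1 => exact h _ _ h1
    | tail _ h1 ih => exact lt_trans ih (h _ _ h1)
  intro hv
  exact absurd (key _ _ hv) (lt_irrefl _)

/-! ### A small nondeterministic read-once program for a DNF -/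

/-- Edges of the program for a DNF: guess a term `t`, then scan the variables in order. -/
inductive DEdge {T : Type} (lit : T → Fin n → Option Bool) :
    Fin 3 ⊕ T × Fin (n + 1) → Option (Fin n × Bool) → Fin 3 ⊕ T × Fin (n + 1) → Prop
  | start (t : T) : DEdge lit (Sum.inl 0) none (Sum.inr (t, 0))
  | dead : DEdge lit (Sum.inl 0) none (Sum.inl 2)
  | test (t : T) (p : Fin n) (b : Bool) (h : lit t p = some b) :
      DEdge lit (Sum.inr (t, p.castSucc)) (some (p, b)) (Sum.inr (t, p.succ))
  | skip (t : T) (p : Fin n) (h : lit t p = none) :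
      DEdge lit (Sum.inr (t, p.castSucc)) none (Sum.inr (t, p.succ))
  | stop (t : T) : DEdge lit (Sum.inr (t, Fin.last n)) none (Sum.inl 1)

/-- The program for a DNF. -/
def dnfBP {T : Type} [Fintype T] (lit : T → Fin n → Option Bool) : BP n where
  V := Fin 3 ⊕ T × Fin (n + 1)
  fin := inferInstance
  edge := DEdge lit
  source := Sum.inl 0
  accept := Sum.inl 1
  reject := Sum.inl 2
  accept_ne_reject := by simp
  acyclic := by
    apply acyclic_of_rank _ (fun v => match v with
      | Sum.inl a => if a = 0 then 0 else n + 2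
      | Sum.inr (_, p) => p.1 + 1)
    rintro u w ⟨l, h⟩
    cases h with
    | start t => simp
    | dead => simp
    | test t p b h => simp
    | skip t p h => simp
    | stop t => simp
  sink_iff := by
    rintro (a | ⟨t, p⟩)
    · constructor
      · intro h
        fin_cases a
        · exact absurd DEdge.dead (h _ _)
        · left; rfl
        · right; rfl
      · rintro (h | h) l w he
        · rw [h] at he; cases he
        · rw [h] at he; cases he
    · constructor
      · intro h
        exfalso
        induction p using Fin.lastCases with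
        | last => exact h _ _ (DEdge.stop t)
        | cast p =>
          rcases hb : lit t p with _ | b
          · exact h _ _ (DEdge.skip t p hb)
          · exact h _ _ (DEdge.test t p b hb)
      · rintro (h | h)
        · exact absurd h (by simp)
        · exact absurd h (by simp)
  source_no_in := by
    intro u l h
    cases h
  only_source := by
    rintro (a | ⟨t, p⟩) h
    · fin_cases a
      · left; rfl
      · right; left; rfl
      · right; right; rfl
    · exfalso
      induction p using Fin.cases with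
      | zero => exact h _ _ (DEdge.start t)
      | succ p =>
        rcases hb : lit t p with _ | b
        · exact h _ _ (DEdge.skip t p hb)
        · exact h _ _ (DEdge.test t p b hb)

lemma dnfBP_readOnce {T : Type} [Fintype T] (lit : T → Fin n → Option Bool) :
    (dnfBP lit).ReadOnce := by
  apply BP.readOnce_of_vars (dnfBP lit) (fun v : Fin 3 ⊕ T × Fin (n + 1) => match v with
      | Sum.inl a => if a = 0 then Set.univ else ∅
      | Sum.inr (_, p) => {i | p.1 ≤ i.1})
  · intro u w h
    cases h with
    | start t => simp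
    | dead => simp
    | skip t p h =>
      intro i hi
      simp only [Set.mem_ofPred_eq, Fin.val_succ, Fin.val_castSucc] at hi ⊢
      omega
    | stop t => simp
  · intro u w i b h
    cases h with
    | test t p b h =>
      refine ⟨?_, ?_, ?_⟩
      · simp
      · simp
      · intro i hi
        simp only [Set.mem_ofPred_eq, Fin.val_succ, Fin.val_castSucc] at hi ⊢
        omega

lemma dnfBP_accepts {T : Type} [Fintype T] (lit : T → Fin n → Option Bool) (x : Fin n → Bool) :
    (dnfBP lit).Accepts x ↔ ∃ t, ∀ i b, lit t i = some b → x i = b := by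
  have h := BP.accepts_iff (dnfBP lit) x (fun v => match v with
      | Sum.inl a => if a = 0 then (∃ t, ∀ i b, lit t i = some b → x i = b) else
          if a = 1 then True else False
      | Sum.inr (t, p) => ∀ i : Fin n, p.1 ≤ i.1 → ∀ b, lit t i = some b → x i = b) ?_ ?_ ?_
  · rw [h]
    simp [dnfBP]
  · simp [dnfBP]
  · simp [dnfBP]
  · rintro (a | ⟨t, p⟩) ha hr
    · fin_cases a
      · constructor
        · intro h
          obtain ⟨t, ht⟩ : ∃ t, ∀ i b, lit t i = some b → x i = b := by simpa using h
          exact ⟨none, _, DEdge.start t, by simp, fun i _ => ht i⟩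
        · rintro ⟨l, w, he, hl, hw⟩
          cases he with
          | start t => exact ⟨t, fun i b h => hw i (by simp) b h⟩
          | dead => simp at hw
      · exact absurd rfl ha
      · exact absurd rfl hr
    · constructor
      · intro h
        induction p using Fin.lastCases with
        | last => exact ⟨none, _, DEdge.stop t, by simp, by simp⟩
        | cast p =>
          rcases hb : lit t p with _ | b
          · refine ⟨none, _, DEdge.skip t p hb, by simp, ?_⟩
            intro i hi
            exact h i (by simp only [Fin.val_succ, Fin.val_castSucc] at hi ⊢; omega)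
          · refine ⟨some (p, b), _, DEdge.test t p b hb, ?_, ?_⟩
            · intro i b' hib
              simp only [Option.some.injEq, Prod.mk.injEq] at hib
              obtain ⟨rfl, rfl⟩ := hib
              exact h _ (by simp) _ hb
            · intro i hi
              exact h i (by simp only [Fin.val_succ, Fin.val_castSucc] at hi ⊢; omega)
      · rintro ⟨l, w, he, hl, hw⟩
        cases he with
        | test t p b h =>
          intro i hi b' hb'
          by_cases hip : i = p
          · subst hip
            rw [h] at hb'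
            simp only [Option.some.injEq] at hb'
            subst hb'
            exact hl _ _ rfl
          · have : p.1 ≠ i.1 := fun h' => hip (Fin.ext h'.symm)
            refine hw i ?_ b' hb'
            simp only [Fin.val_succ, Fin.val_castSucc] at hi ⊢
            omega
        | skip t p h =>
          intro i hi b' hb'
          by_cases hip : i = p
          · subst hip
            rw [h] at hb'
            exact absurd hb' (by simp)
          · have : p.1 ≠ i.1 := fun h' => hip (Fin.ext h'.symm)
            refine hw i ?_ b' hb'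
            simp only [Fin.val_succ, Fin.val_castSucc] at hi ⊢
            omega
        | stop t =>
          intro i hi b' hb'
          have := i.2
          simp only [Fin.val_last] at hi
          omega

lemma dnfBP_size {T : Type} [Fintype T] (lit : T → Fin n → Option Bool) :
    (dnfBP lit).size = 3 + Fintype.card T * (n + 1) := by
  have : (dnfBP lit).size = Fintype.card (Fin 3 ⊕ T × Fin (n + 1)) := rfl
  rw [this]
  simp

/-! ### A small nondeterministic read-once program for the negation -/

/-- Edges of the program which guesses `c`, and then checks that every line of the matrix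
`c`-cells contains a zero. -/
inductive NEdge {d : ℕ} (cl : Bool → Fin d → Fin d → Fin n) :
    Fin 3 ⊕ Bool × Fin d × Fin d → Option (Fin n × Bool) → Fin 3 ⊕ Bool × Fin d × Fin d → Prop
  | start (c : Bool) (z : Fin d) (hz : z.1 = 0) :
      NEdge cl (Sum.inl 0) none (Sum.inr (c, z, z))
  | down (c : Bool) (i j i' z : Fin d) (hi : i'.1 = i.1 + 1) (hz : z.1 = 0) :
      NEdge cl (Sum.inr (c, i, j)) (some (cl c i j, false)) (Sum.inr (c, i', z))
  | done (c : Bool) (i j : Fin d) (hi : i.1 + 1 = d) :
      NEdge cl (Sum.inr (c, i, j)) (some (cl c i j, false)) (Sum.inl 1)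
  | right (c : Bool) (i j j' : Fin d) (hj : j'.1 = j.1 + 1) :
      NEdge cl (Sum.inr (c, i, j)) (some (cl c i j, true)) (Sum.inr (c, i, j'))
  | fail (c : Bool) (i j : Fin d) (hj : j.1 + 1 = d) :
      NEdge cl (Sum.inr (c, i, j)) (some (cl c i j, true)) (Sum.inl 2)

/-- The program for the negation. -/
def negBP {d : ℕ} (hd : 0 < d) (cl : Bool → Fin d → Fin d → Fin n) : BP n where
  V := Fin 3 ⊕ Bool × Fin d × Fin d
  fin := inferInstance
  edge := NEdge cl
  source := Sum.inl 0
  accept := Sum.inl 1
  reject := Sum.inl 2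
  accept_ne_reject := by simp
  acyclic := by
    apply acyclic_of_rank _ (fun v => match v with
      | Sum.inl a => if a = 0 then 0 else d * d + 1
      | Sum.inr (_, i, j) => i.1 * d + j.1 + 1)
    rintro u w ⟨l, h⟩
    cases h with
    | start c z hz => simp
    | down c i j i' z hi hz =>
      have := j.2
      simp only [hi, hz]
      nlinarith
    | done c i j hi =>
      have h1 := j.2
      have h2 : i.1 * d + d = d * d := by
        have : (i.1 + 1) * d = d * d := by rw [hi]
        nlinarith
      have h3 : (1 : Fin 3) ≠ 0 := by decide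
      simp only [h3, if_false]
      omega
    | right c i j j' hj => simp only [hj]; omega
    | fail c i j hj =>
      have h1 := i.2
      have h2 : i.1 * d + d ≤ d * d := by
        have : (i.1 + 1) * d ≤ d * d := Nat.mul_le_mul_right _ h1
        nlinarith
      have h3 : (2 : Fin 3) ≠ 0 := by decide
      simp only [h3, if_false]
      omega
  sink_iff := by
    rintro (a | ⟨c, i, j⟩)
    · constructor
      · intro h
        fin_cases a
        · exact absurd (NEdge.start true ⟨0, hd⟩ rfl) (h _ _)
        · left; rfl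
        · right; rfl
      · rintro (h | h) l w he
        · rw [h] at he; cases he
        · rw [h] at he; cases he
    · constructor
      · intro h
        exfalso
        by_cases hj : j.1 + 1 < d
        · exact h _ _ (NEdge.right c i j ⟨j.1 + 1, hj⟩ rfl)
        · exact h _ _ (NEdge.fail c i j (by have := j.2; omega))
      · rintro (h | h)
        · exact absurd h (by simp)
        · exact absurd h (by simp)
  source_no_in := by
    intro u l h
    cases h
  only_source := by
    rintro (a | ⟨c, i, j⟩) h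
    · fin_cases a
      · left; rfl
      · right; left; rfl
      · right; right; rfl
    · exfalso
      by_cases hj : j.1 = 0
      · by_cases hi : i.1 = 0
        · have hij : j = i := Fin.ext (by rw [hi, hj])
          rw [hij] at h
          exact h _ _ (NEdge.start c i hi)
        · have hi' : i.1 - 1 < d := by have := i.2; omega
          refine h _ _ (NEdge.down c ⟨i.1 - 1, hi'⟩ j i j ?_ hj)
          show i.1 = i.1 - 1 + 1
          omega
      · have hj' : j.1 - 1 < d := by have := j.2; omega
        refine h _ _ (NEdge.right c i ⟨j.1 - 1, hj'⟩ j ?_)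
        show j.1 = j.1 - 1 + 1
        omega

lemma negBP_readOnce {d : ℕ} (hd : 0 < d) (cl : Bool → Fin d → Fin d → Fin n)
    (hinj : ∀ c i j i' j', cl c i j = cl c i' j' → i = i' ∧ j = j') :
    (negBP hd cl).ReadOnce := by
  apply BP.readOnce_of_vars (negBP hd cl) (fun v : Fin 3 ⊕ Bool × Fin d × Fin d => match v with
      | Sum.inl a => if a = 0 then Set.univ else ∅
      | Sum.inr (c, i, j) => {k | ∃ i' j', k = cl c i' j' ∧
          (i.1 < i'.1 ∨ (i'.1 = i.1 ∧ j.1 ≤ j'.1))})
  · intro u w h
    cases h with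
    | start t => simp
  · intro u w k b h
    cases h with
    | down c i j i' z hi hz =>
      refine ⟨⟨i, j, rfl, Or.inr ⟨rfl, le_refl _⟩⟩, ?_, ?_⟩
      · rintro ⟨i₂, j₂, h1, h2⟩
        obtain ⟨h3, h4⟩ := hinj _ _ _ _ _ h1
        subst h3
        omega
      · rintro k ⟨i₂, j₂, h1, h2⟩
        exact ⟨i₂, j₂, h1, by omega⟩
    | done c i j hi =>
      refine ⟨⟨i, j, rfl, Or.inr ⟨rfl, le_refl _⟩⟩, ?_, ?_⟩
      · simp
      · simp
    | right c i j j' hj =>
      refine ⟨⟨i, j, rfl, Or.inr ⟨rfl, le_refl _⟩⟩, ?_, ?_⟩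
      · rintro ⟨i₂, j₂, h1, h2⟩
        obtain ⟨h3, h4⟩ := hinj _ _ _ _ _ h1
        subst h3
        subst h4
        omega
      · rintro k ⟨i₂, j₂, h1, h2⟩
        exact ⟨i₂, j₂, h1, by omega⟩
    | fail c i j hj =>
      refine ⟨⟨i, j, rfl, Or.inr ⟨rfl, le_refl _⟩⟩, ?_, ?_⟩
      · simp
      · simp

lemma negBP_accepts {d : ℕ} (hd : 0 < d) (cl : Bool → Fin d → Fin d → Fin n)
    (x : Fin n → Bool) :
    (negBP hd cl).Accepts x ↔ ∃ c, ∀ i, ∃ j, x (cl c i j) = false := by
  have h := BP.accepts_iff (negBP hd cl) x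
    (fun v : Fin 3 ⊕ Bool × Fin d × Fin d => match v with
      | Sum.inl a => if a = 0 then (∃ c, ∀ i, ∃ j, x (cl c i j) = false) else
          if a = 1 then True else False
      | Sum.inr (c, i, j) => (∃ j' : Fin d, j.1 ≤ j'.1 ∧ x (cl c i j') = false) ∧
          ∀ i' : Fin d, i.1 < i'.1 → ∃ j', x (cl c i' j') = false) ?_ ?_ ?_
  · rw [h]
    simp [negBP]
  · simp [negBP]
  · simp [negBP]
  · rintro (a | ⟨c, i, j⟩) ha hr
    · fin_cases a
      · constructor
        · intro h
          obtain ⟨c, hc⟩ : ∃ c, ∀ i, ∃ j, x (cl c i j) = false := by simpa using h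
          refine ⟨none, _, NEdge.start c ⟨0, hd⟩ rfl, by simp, ?_, ?_⟩
          · obtain ⟨j, hj⟩ := hc ⟨0, hd⟩
            exact ⟨j, Nat.zero_le _, hj⟩
          · exact fun i' _ => hc i'
        · rintro ⟨l, w, he, hl, hw⟩
          cases he with
          | start c z hz =>
            obtain ⟨⟨j, _, hj⟩, h2⟩ := hw
            refine ⟨c, fun i => ?_⟩
            by_cases hi : i.1 = 0
            · have : i = z := Fin.ext (by rw [hi, hz])
              subst this
              exact ⟨j, hj⟩
            · exact h2 i (by omega)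
      · exact absurd rfl ha
      · exact absurd rfl hr
    · constructor
      · rintro ⟨⟨j', hj', hx⟩, h2⟩
        cases hb : x (cl c i j) with
        | false =>
          by_cases hi : i.1 + 1 < d
          · refine ⟨_, _, NEdge.down c i j ⟨i.1 + 1, hi⟩ ⟨0, hd⟩ rfl rfl, ?_, ?_, ?_⟩
            · intro k b hk
              simp only [Option.some.injEq, Prod.mk.injEq] at hk
              obtain ⟨rfl, rfl⟩ := hk
              exact hb
            · obtain ⟨j₂, h₂⟩ := h2 ⟨i.1 + 1, hi⟩ (Nat.lt_succ_self _)
              exact ⟨j₂, Nat.zero_le _, h₂⟩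
            · intro i' hi'
              exact h2 i' (by simp only at hi'; omega)
          · refine ⟨_, _, NEdge.done c i j (by have := i.2; omega), ?_, ?_⟩
            · intro k b hk
              simp only [Option.some.injEq, Prod.mk.injEq] at hk
              obtain ⟨rfl, rfl⟩ := hk
              exact hb
            · simp
        | true =>
          have hne : j.1 ≠ j'.1 := by
            intro h
            have : j = j' := Fin.ext h
            subst this
            rw [hb] at hx
            exact absurd hx (by simp)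
          have hj : j.1 + 1 < d := by have := j'.2; omega
          refine ⟨_, _, NEdge.right c i j ⟨j.1 + 1, hj⟩ rfl, ?_, ⟨j', ?_, hx⟩, h2⟩
          · intro k b hk
            simp only [Option.some.injEq, Prod.mk.injEq] at hk
            obtain ⟨rfl, rfl⟩ := hk
            exact hb
          · show j.1 + 1 ≤ j'.1
            omega
      · rintro ⟨l, w, he, hl, hw⟩
        cases he with
        | down c i j i' z hi hz =>
          obtain ⟨⟨j', _, hj'⟩, h2⟩ := hw
          refine ⟨⟨j, le_refl _, hl _ _ rfl⟩, ?_⟩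
          intro i₂ hi₂
          by_cases hi₃ : i₂.1 = i'.1
          · have : i₂ = i' := Fin.ext hi₃
            subst this
            exact ⟨j', hj'⟩
          · exact h2 i₂ (by omega)
        | done c i j hi =>
          refine ⟨⟨j, le_refl _, hl _ _ rfl⟩, ?_⟩
          intro i₂ hi₂
          have := i₂.2
          omega
        | right c i j j' hj =>
          obtain ⟨⟨j₂, h₂, hj₂⟩, h2⟩ := hw
          exact ⟨⟨j₂, by omega, hj₂⟩, h2⟩
        | fail c i j hj => simp at hw

lemma negBP_size {d : ℕ} (hd : 0 < d) (cl : Bool → Fin d → Fin d → Fin n) :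
    (negBP hd cl).size = 3 + 2 * (d * d) := by
  have : (negBP hd cl).size = Fintype.card (Fin 3 ⊕ Bool × Fin d × Fin d) := rfl
  rw [this]
  simp

/-! ### The upper bounds -/

/-- The literals of the term `(i, j)`: row `i` and column `j` are all ones. -/
def term (n : ℕ) (ij : Fin (Nat.sqrt n) × Fin (Nat.sqrt n)) : Finset (Fin n × Bool) :=
  Finset.univ.image (fun k => (cell n ij.1 k, true)) ∪
    Finset.univ.image (fun k => (cell n k ij.2, true))

lemma term_iff (n : ℕ) (ij : Fin (Nat.sqrt n) × Fin (Nat.sqrt n)) (x : Fin n → Bool) :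
    (∀ l ∈ term n ij, x l.1 = l.2) ↔
      (∀ j, x (cell n ij.1 j) = true) ∧ (∀ i, x (cell n i ij.2) = true) := by
  simp only [term, Finset.mem_union, Finset.mem_image, Finset.mem_univ, true_and]
  constructor
  · intro h
    exact ⟨fun j => h _ (Or.inl ⟨j, rfl⟩), fun i => h _ (Or.inr ⟨i, rfl⟩)⟩
  · rintro ⟨h1, h2⟩ l (⟨k, rfl⟩ | ⟨k, rfl⟩)
    · exact h1 k
    · exact h2 k

lemma rowCol_iff (n : ℕ) (x : Fin n → Bool) :
    rowCol n x = true ↔ ∃ ij, ∀ l ∈ term n ij, x l.1 = l.2 := by
  simp only [term_iff]
  simp only [rowCol, decide_eq_true_eq]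
  constructor
  · rintro ⟨⟨i, hi⟩, ⟨j, hj⟩⟩
    exact ⟨(i, j), hi, hj⟩
  · rintro ⟨⟨i, j⟩, hi, hj⟩
    exact ⟨⟨i, hi⟩, ⟨j, hj⟩⟩

theorem rowCol_dnf (n : ℕ) : ∃ D : Finset (Finset (Fin n × Bool)), D.card ≤ n ∧
    ∀ x, rowCol n x = true ↔ ∃ t ∈ D, ∀ l ∈ t, x l.1 = l.2 := by
  refine ⟨Finset.univ.image (term n), ?_, ?_⟩
  · refine le_trans Finset.card_image_le ?_
    simpa using Nat.sqrt_le n
  · intro x
    rw [rowCol_iff]
    simp

theorem rowCol_nbp (n : ℕ) (hn : 1 ≤ n) : ∃ P : BP n, P.ReadOnce ∧ P.Computes (rowCol n) ∧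
    P.size ≤ 5 * n ^ 2 := by
  classical
  let lit : Fin (Nat.sqrt n) × Fin (Nat.sqrt n) → Fin n → Option Bool :=
    fun ij k => if (k, true) ∈ term n ij then some true else none
  refine ⟨dnfBP lit, dnfBP_readOnce lit, ?_, ?_⟩
  · intro x
    rw [dnfBP_accepts, rowCol_iff]
    refine exists_congr fun ij => ?_
    constructor
    · intro h i b hib
      by_cases hm : (i, true) ∈ term n ij
      · have : b = true := by
          have h2 : lit ij i = some true := if_pos hm
          rw [h2] at hib
          simpa using hib.symm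
        subst this
        exact h _ hm
      · have h2 : lit ij i = none := if_neg hm
        rw [h2] at hib
        exact absurd hib (by simp)
    · intro h l hl
      have hl2 : l.2 = true := by
        simp only [term, Finset.mem_union, Finset.mem_image] at hl
        rcases hl with ⟨k, _, rfl⟩ | ⟨k, _, rfl⟩ <;> rfl
      have hl3 : (l.1, true) ∈ term n ij := by
        rw [← hl2]; exact hl
      rw [hl2]
      exact h l.1 true (if_pos hl3)
  · rw [dnfBP_size]
    have h1 : Fintype.card (Fin (Nat.sqrt n) × Fin (Nat.sqrt n)) ≤ n := by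
      simpa using Nat.sqrt_le n
    nlinarith

theorem rowCol_neg_nbp (n : ℕ) (hn : 1 ≤ n) :
    ∃ P : BP n, P.ReadOnce ∧ P.Computes (fun x => !rowCol n x) ∧ P.size ≤ 5 * n := by
  have hd : 0 < Nat.sqrt n := Nat.sqrt_pos.2 hn
  let cl : Bool → Fin (Nat.sqrt n) → Fin (Nat.sqrt n) → Fin n :=
    fun c i j => if c = true then cell n j i else cell n i j
  refine ⟨negBP hd cl, negBP_readOnce hd cl ?_, ?_, ?_⟩
  · rintro (c | c) i j i' j' h
    · exact cell_inj n h
    · exact (cell_inj n h).symm
  · intro x
    rw [negBP_accepts]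
    simp only [Bool.not_eq_true', rowCol, decide_eq_false_iff_not, not_and_or, not_exists,
      not_forall, Bool.not_eq_true, Bool.exists_bool]
    exact Iff.rfl
  · rw [negBP_size]
    have h1 := Nat.sqrt_le n
    omega

/-! ### The lower bound -/

/-- `Walk P u q v`: a path from `u` to `v` on which all tests of variables outside the matrix
are answered by `1`, and `q` is the list of the tests of matrix variables with their answers. -/
inductive Walk (P : BP n) :
    P.V → List ((Fin (Nat.sqrt n) × Fin (Nat.sqrt n)) × Bool) → P.V → Prop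
  | nil (v : P.V) : Walk P v [] v
  | skip {u w v : P.V} {i : Fin n} {q : List ((Fin (Nat.sqrt n) × Fin (Nat.sqrt n)) × Bool)} :
      P.edge u (some (i, true)) w → (∀ a b, i ≠ cell n a b) → Walk P w q v → Walk P u q v
  | test {u w v : P.V} {c : Fin (Nat.sqrt n) × Fin (Nat.sqrt n)} {b : Bool}
      {q : List ((Fin (Nat.sqrt n) × Fin (Nat.sqrt n)) × Bool)} :
      P.edge u (some (cell n c.1 c.2, b)) w → Walk P w q v → Walk P u ((c, b) :: q) v

lemma Walk.trans {P : BP n} {u v w : P.V}
    {q r : List ((Fin (Nat.sqrt n) × Fin (Nat.sqrt n)) × Bool)}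
    (h₁ : Walk P u q v) (h₂ : Walk P v r w) : Walk P u (q ++ r) w := by
  induction h₁ with
  | nil v => simpa using h₂
  | skip he hi _ ih => exact Walk.skip he hi (ih h₂)
  | test he _ ih => exact Walk.test he (ih h₂)

lemma Walk.path {P : BP n} {u v : P.V}
    {q : List ((Fin (Nat.sqrt n) × Fin (Nat.sqrt n)) × Bool)} (h : Walk P u q v) :
    ∃ ls, P.Path u ls v ∧
      (∀ i b, some (i, b) ∈ ls →
        (∃ c b', (c, b') ∈ q ∧ i = cell n c.1 c.2 ∧ b = b') ∨ ((∀ a c, i ≠ cell n a c) ∧ b = true)) ∧
      (q.map (fun cb => cell n cb.1.1 cb.1.2)).Sublist (tests ls) := by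
  induction h with
  | nil v => exact ⟨[], BP.Path.nil v, by simp, by simp⟩
  | @skip u w v i q he hi _ ih =>
    obtain ⟨ls, hp, h1, h2⟩ := ih
    refine ⟨_, BP.Path.cons he hp, ?_, ?_⟩
    · intro i' b' hm
      rcases List.mem_cons.1 hm with h | h
      · simp only [Option.some.injEq, Prod.mk.injEq] at h
        obtain ⟨rfl, rfl⟩ := h
        exact Or.inr ⟨hi, rfl⟩
      · exact h1 i' b' h
    · rw [tests_some]
      exact h2.cons _
  | @test u w v c b q he _ ih =>
    obtain ⟨ls, hp, h1, h2⟩ := ih
    refine ⟨_, BP.Path.cons he hp, ?_, ?_⟩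
    · intro i' b' hm
      rcases List.mem_cons.1 hm with h | h
      · simp only [Option.some.injEq, Prod.mk.injEq] at h
        obtain ⟨rfl, rfl⟩ := h
        exact Or.inl ⟨c, b', by simp, rfl, rfl⟩
      · rcases h1 i' b' h with ⟨c', b'', h3, h4, h5⟩ | h3
        · exact Or.inl ⟨c', b'', List.mem_cons_of_mem _ h3, h4, h5⟩
        · exact Or.inr h3
    · rw [tests_some]
      simpa using h2.cons_cons (cell n c.1 c.2)

/-- In a read-once program a walk tests every matrix variable at most once. -/
lemma Walk.nodup {P : BP n} (hro : P.ReadOnce) {u v : P.V}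
    {q : List ((Fin (Nat.sqrt n) × Fin (Nat.sqrt n)) × Bool)} (h : Walk P u q v) :
    (q.map Prod.fst).Nodup := by
  obtain ⟨ls, hp, -, hs⟩ := h.path
  have h1 : (q.map (fun cb => cell n cb.1.1 cb.1.2)).Nodup := (hro _ _ _ hp).sublist hs
  have h2 : q.map (fun cb => cell n cb.1.1 cb.1.2) =
      (q.map Prod.fst).map (fun c => cell n c.1 c.2) := by
    rw [List.map_map]; rfl
  rw [h2] at h1
  exact List.Nodup.of_map _ h1

/-- The answers on a walk in a read-once program are consistent. -/
lemma Walk.consistent {P : BP n} (hro : P.ReadOnce) {u v : P.V}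
    {q : List ((Fin (Nat.sqrt n) × Fin (Nat.sqrt n)) × Bool)} (h : Walk P u q v)
    {c : Fin (Nat.sqrt n) × Fin (Nat.sqrt n)} {b b' : Bool} (h1 : (c, b) ∈ q)
    (h2 : (c, b') ∈ q) : b = b' := by
  have hn := h.nodup hro
  have := List.inj_on_of_nodup_map hn h1 h2 rfl
  simpa using this

/-- The assignment to the matrix which is given by `q` on the tested cells and by `e`
elsewhere. -/
def mat (q : List ((Fin (Nat.sqrt n) × Fin (Nat.sqrt n)) × Bool))
    (e : Fin (Nat.sqrt n) → Fin (Nat.sqrt n) → Bool) :
    Fin (Nat.sqrt n) → Fin (Nat.sqrt n) → Bool := fun i j =>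
  if ((i, j), false) ∈ q then false else if ((i, j), true) ∈ q then true else e i j

/-- The input with the given matrix; all other variables are `1`. -/
noncomputable def inp (M : Fin (Nat.sqrt n) → Fin (Nat.sqrt n) → Bool) : Fin n → Bool := by
  classical
  exact fun k => if h : ∃ ij : Fin (Nat.sqrt n) × Fin (Nat.sqrt n), k = cell n ij.1 ij.2 then
    M h.choose.1 h.choose.2 else true

lemma inp_cell (M : Fin (Nat.sqrt n) → Fin (Nat.sqrt n) → Bool) (i j : Fin (Nat.sqrt n)) :
    inp M (cell n i j) = M i j := by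
  have h : ∃ ij : Fin (Nat.sqrt n) × Fin (Nat.sqrt n), cell n i j = cell n ij.1 ij.2 :=
    ⟨(i, j), rfl⟩
  unfold inp
  rw [dif_pos h]
  obtain ⟨h1, h2⟩ := cell_inj n h.choose_spec
  rw [← h1, ← h2]

lemma inp_other (M : Fin (Nat.sqrt n) → Fin (Nat.sqrt n) → Bool) (k : Fin n)
    (hk : ∀ i j, k ≠ cell n i j) : inp M k = true := by
  unfold inp
  rw [dif_neg]
  rintro ⟨ij, h⟩
  exact hk _ _ h

/-- The row-and-column property of a matrix. -/
def G {d : ℕ} (M : Fin d → Fin d → Bool) : Prop :=
  (∃ i, ∀ j, M i j = true) ∧ (∃ j, ∀ i, M i j = true)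

lemma rowCol_inp (M : Fin (Nat.sqrt n) → Fin (Nat.sqrt n) → Bool) :
    rowCol n (inp M) = true ↔ G M := by
  simp [rowCol, inp_cell, G]

lemma Walk.sat {P : BP n} (hro : P.ReadOnce) {u v : P.V}
    {q : List ((Fin (Nat.sqrt n) × Fin (Nat.sqrt n)) × Bool)} (h : Walk P u q v)
    (e : Fin (Nat.sqrt n) → Fin (Nat.sqrt n) → Bool) :
    ∃ ls, P.Path u ls v ∧ Sat (inp (mat q e)) ls ∧
      (q.map (fun cb => cell n cb.1.1 cb.1.2)).Sublist (tests ls) := by
  obtain ⟨ls, hp, h1, h2⟩ := h.path
  refine ⟨ls, hp, ?_, h2⟩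
  intro i b hm
  rcases h1 i b hm with ⟨c, b', h3, rfl, rfl⟩ | ⟨h3, rfl⟩
  · rw [inp_cell]
    unfold mat
    cases b with
    | false => exact if_pos h3
    | true =>
      have h4 : ((c.1, c.2), false) ∉ q := by
        intro h5
        have := h.consistent hro h3 h5
        exact absurd this (by simp)
      rw [if_neg h4]
      exact if_pos h3
  · exact inp_other _ _ h3

/-- In a deterministic program an accepting path runs through every node that is reached by a
path consistent with the input. -/
lemma det_split {P : BP n} (hdet : P.Deterministic) (x : Fin n → Bool) {u v : P.V}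
    {ls : List (Option (Fin n × Bool))} (hp : P.Path u ls v) (hs : Sat x ls) :
    ∀ {ms : List (Option (Fin n × Bool))}, P.Path u ms P.accept → Sat x ms →
      ∃ ks, P.Path v ks P.accept ∧ Sat x ks ∧ ms = ls ++ ks := by
  induction hp with
  | nil v => intro ms hm hsm; exact ⟨ms, hm, hsm, rfl⟩
  | @cons u w v l ls he hp ih =>
    intro ms hm hsm
    generalize hacc : P.accept = t at hm
    cases hm with
    | nil _ =>
      subst hacc
      exact absurd he (P.not_edge_accept _ _)
    | @cons _ w' _ l' ms he' hm =>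
      subst hacc
      have hua : u ≠ P.accept := by
        rintro rfl
        exact P.not_edge_accept _ _ he
      have hur : u ≠ P.reject := by
        rintro rfl
        exact P.not_edge_reject _ _ he
      obtain ⟨i, w₀, w₁, hE⟩ := hdet u hua hur
      have hx1 : ∀ i b, l = some (i, b) → x i = b := fun i b h => hs i b (by simp [h])
      have hx2 : ∀ i b, l' = some (i, b) → x i = b := fun i b h => hsm i b (by simp [h])
      have hlw : l = l' ∧ w = w' := by
        rcases (hE l w).1 he with ⟨h1, h2⟩ | ⟨h1, h2⟩ <;>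
          rcases (hE l' w').1 he' with ⟨h3, h4⟩ | ⟨h3, h4⟩
        · exact ⟨h1.trans h3.symm, h2.trans h4.symm⟩
        · have h5 := hx1 _ _ h1
          have h6 := hx2 _ _ h3
          rw [h5] at h6
          exact absurd h6 (by simp)
        · have h5 := hx1 _ _ h1
          have h6 := hx2 _ _ h3
          rw [h5] at h6
          exact absurd h6 (by simp)
        · exact ⟨h1.trans h3.symm, h2.trans h4.symm⟩
      obtain ⟨rfl, rfl⟩ := hlw
      obtain ⟨ks, h1, h2, h3⟩ := ih (fun i b h => hs i b (List.mem_cons_of_mem _ h)) hm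
        (fun i b h => hsm i b (List.mem_cons_of_mem _ h))
      exact ⟨ks, h1, h2, by rw [h3]; rfl⟩

/-- Two walks from the source to the same node have the same continuations. -/
lemma walk_exchange {P : BP n} (hdet : P.Deterministic) (hro : P.ReadOnce)
    (hc : P.Computes (rowCol n)) {v : P.V}
    {q r : List ((Fin (Nat.sqrt n) × Fin (Nat.sqrt n)) × Bool)}
    (hq : Walk P P.source q v) (hr : Walk P P.source r v)
    (e : Fin (Nat.sqrt n) → Fin (Nat.sqrt n) → Bool) (h : G (mat q e)) : G (mat r e) := by
  rw [← rowCol_inp] at h ⊢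
  rw [hc] at h ⊢
  obtain ⟨ms, hms, hsm⟩ := h
  obtain ⟨ls, hp, hs, hsub⟩ := hq.sat hro e
  obtain ⟨ls', hp', hs', hsub'⟩ := hr.sat hro e
  obtain ⟨ks, hk1, hk2, -⟩ := det_split hdet _ hp hs hms hsm
  refine ⟨ls' ++ ks, hp'.trans hk1, ?_⟩
  have hd1 := hro _ _ _ (hp.trans hk1)
  have hd2 := hro _ _ _ (hp'.trans hk1)
  rw [tests_append] at hd1 hd2
  intro i b hm
  rcases List.mem_append.1 hm with h | h
  · exact hs' i b h
  · have h1 := hk2 i b h
    have h2 : i ∈ tests ks := mem_tests h
    by_cases hcell : ∃ a c, i = cell n a c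
    · obtain ⟨a, c, rfl⟩ := hcell
      have h3 : ∀ b', ((a, c), b') ∉ q := by
        intro b' hb'
        have : cell n a c ∈ tests ls :=
          hsub.subset (List.mem_map.2 ⟨((a, c), b'), hb', rfl⟩)
        exact (List.disjoint_of_nodup_append hd1) this h2
      have h4 : ∀ b', ((a, c), b') ∉ r := by
        intro b' hb'
        have : cell n a c ∈ tests ls' :=
          hsub'.subset (List.mem_map.2 ⟨((a, c), b'), hb', rfl⟩)
        exact (List.disjoint_of_nodup_append hd2) this h2
      rw [inp_cell] at h1 ⊢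
      simpa [mat, h3, h4] using h1
    · push Not at hcell
      rw [inp_other _ _ hcell] at h1 ⊢
      exact h1

lemma G_transpose {d : ℕ} (M : Fin d → Fin d → Bool) : G (fun i j => M j i) ↔ G M := by
  unfold G
  exact and_comm

/-- The combinatorial heart: a partial assignment whose continuations agree with those of `p`
has a zero in every row in which `p` has a zero. -/
lemma key {d : ℕ} (p q : Fin d → Fin d → Option Bool) (c c' : Fin d) (hcc : c ≠ c')
    (h1 : ∀ i, p i c = none) (h2 : ∀ i, q i c' = none)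
    (h : ∀ e : Fin d → Fin d → Bool, G (fun i j => (q i j).getD (e i j)) →
      G (fun i j => (p i j).getD (e i j)))
    (i j₀ : Fin d) (hp : p i j₀ = some false) : ∃ j, q i j = some false := by
  by_contra hn
  push Not at hn
  have hG := h (fun i' j => decide (¬ (j = c ∧ i' ≠ i))) ?_
  · obtain ⟨⟨i', hi'⟩, -⟩ := hG
    by_cases hii : i' = i
    · subst hii
      have := hi' j₀
      simp [hp] at this
    · have := hi' c
      simp [h1, hii] at this
  · refine ⟨⟨i, ?_⟩, ⟨c', ?_⟩⟩
    · intro j
      have h3 := hn j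
      rcases hq : q i j with _ | b
      · simp [hq]
      · cases b with
        | false => exact absurd hq h3
        | true => simp [hq]
    · intro i'
      simp [h2, hcc.symm]

/-- The partial assignment given by a list of tests with answers. -/
def pa {d : ℕ} (q : List ((Fin d × Fin d) × Bool)) (i j : Fin d) : Option Bool :=
  if ((i, j), false) ∈ q then some false else if ((i, j), true) ∈ q then some true else none

lemma mat_eq (q : List ((Fin (Nat.sqrt n) × Fin (Nat.sqrt n)) × Bool))
    (e : Fin (Nat.sqrt n) → Fin (Nat.sqrt n) → Bool) :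
    mat q e = fun i j => (pa q i j).getD (e i j) := by
  funext i j
  unfold mat pa
  split_ifs <;> rfl

lemma pa_false {d : ℕ} (q : List ((Fin d × Fin d) × Bool)) (i j : Fin d) :
    pa q i j = some false ↔ ((i, j), false) ∈ q := by
  unfold pa
  split_ifs with h1 h2 <;> simp [h1]

lemma pa_none {d : ℕ} (q : List ((Fin d × Fin d) × Bool)) (i j : Fin d)
    (h : ∀ b, ((i, j), b) ∉ q) : pa q i j = none := by
  unfold pa
  rw [if_neg (h _), if_neg (h _)]

lemma fresh {d : ℕ} (L : List (Fin d)) (h : L.length + 2 ≤ d) :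
    ∃ c c', c ≠ c' ∧ c ∉ L ∧ c' ∉ L := by
  have h1 : L.toFinset.card ≤ L.length := List.toFinset_card_le L
  have h2 : 1 < (L.toFinsetᶜ).card := by
    rw [Finset.card_compl, Fintype.card_fin]
    omega
  obtain ⟨c, hc, c', hc', hcc⟩ := Finset.one_lt_card.1 h2
  exact ⟨c, c', hcc, by simpa using hc, by simpa using hc'⟩

lemma rows_sub {P : BP n} (hdet : P.Deterministic) (hro : P.ReadOnce)
    (hc : P.Computes (rowCol n)) {v : P.V}
    {q r : List ((Fin (Nat.sqrt n) × Fin (Nat.sqrt n)) × Bool)}
    (hq : Walk P P.source q v) (hr : Walk P P.source r v)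
    (hlen : q.length + r.length + 2 ≤ Nat.sqrt n) (i j₀ : Fin (Nat.sqrt n))
    (h : ((i, j₀), false) ∈ q) : ∃ j, ((i, j), false) ∈ r := by
  obtain ⟨c, c', hcc, h1, h2⟩ := fresh ((q ++ r).map (fun cb => cb.1.2)) (by simpa using hlen)
  have h3 : ∀ i b, ((i, c), b) ∉ q := by
    intro i b hm
    exact h1 (List.mem_map.2 ⟨_, List.mem_append.2 (Or.inl hm), rfl⟩)
  have h4 : ∀ i b, ((i, c'), b) ∉ r := by
    intro i b hm
    exact h2 (List.mem_map.2 ⟨_, List.mem_append.2 (Or.inr hm), rfl⟩)
  have h5 : ∀ e : Fin (Nat.sqrt n) → Fin (Nat.sqrt n) → Bool,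
      G (fun i j => (pa r i j).getD (e i j)) → G (fun i j => (pa q i j).getD (e i j)) := by
    intro e hG
    have := walk_exchange hdet hro hc hr hq e
    rw [mat_eq, mat_eq] at this
    exact this hG
  obtain ⟨j, hj⟩ := key (pa q) (pa r) c c' hcc (fun i => pa_none q i c (h3 i))
    (fun i => pa_none r i c' (h4 i)) h5 i j₀ ((pa_false q i j₀).2 h)
  exact ⟨j, (pa_false r i j).1 hj⟩

lemma cols_sub {P : BP n} (hdet : P.Deterministic) (hro : P.ReadOnce)
    (hc : P.Computes (rowCol n)) {v : P.V}
    {q r : List ((Fin (Nat.sqrt n) × Fin (Nat.sqrt n)) × Bool)}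
    (hq : Walk P P.source q v) (hr : Walk P P.source r v)
    (hlen : q.length + r.length + 2 ≤ Nat.sqrt n) (i₀ j : Fin (Nat.sqrt n))
    (h : ((i₀, j), false) ∈ q) : ∃ i, ((i, j), false) ∈ r := by
  obtain ⟨c, c', hcc, h1, h2⟩ := fresh ((q ++ r).map (fun cb => cb.1.1)) (by simpa using hlen)
  have h3 : ∀ i b, ((c, i), b) ∉ q := by
    intro i b hm
    exact h1 (List.mem_map.2 ⟨_, List.mem_append.2 (Or.inl hm), rfl⟩)
  have h4 : ∀ i b, ((c', i), b) ∉ r := by
    intro i b hm
    exact h2 (List.mem_map.2 ⟨_, List.mem_append.2 (Or.inr hm), rfl⟩)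
  have h5 : ∀ e : Fin (Nat.sqrt n) → Fin (Nat.sqrt n) → Bool,
      G (fun i j => (pa r j i).getD (e i j)) → G (fun i j => (pa q j i).getD (e i j)) := by
    intro e hG
    have := walk_exchange hdet hro hc hr hq (fun a b => e b a)
    rw [mat_eq, mat_eq] at this
    exact (G_transpose _).2 (this ((G_transpose _).1 hG))
  obtain ⟨i, hi⟩ := key (fun a b => pa q b a) (fun a b => pa r b a) c c' hcc
    (fun i => pa_none q c i (h3 i))
    (fun i => pa_none r c' i (h4 i)) h5 j i₀ ((pa_false q i₀ j).2 h)
  exact ⟨i, (pa_false r i j).1 hi⟩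

lemma not_sink {P : BP n} (hdet : P.Deterministic) (hro : P.ReadOnce)
    (hc : P.Computes (rowCol n)) {v : P.V}
    {q : List ((Fin (Nat.sqrt n) × Fin (Nat.sqrt n)) × Bool)}
    (hq : Walk P P.source q v) (hlen : q.length + 2 ≤ Nat.sqrt n) :
    v ≠ P.accept ∧ v ≠ P.reject := by
  obtain ⟨c, -, -, h1, -⟩ := fresh (q.map (fun cb => cb.1.2)) (by simpa using hlen)
  obtain ⟨a, -, -, h2, -⟩ := fresh (q.map (fun cb => cb.1.1)) (by simpa using hlen)
  have h3 : ∀ i b, ((i, c), b) ∉ q := by
    intro i b hm
    exact h1 (List.mem_map.2 ⟨_, hm, rfl⟩)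
  have h4 : ∀ i b, ((a, i), b) ∉ q := by
    intro i b hm
    exact h2 (List.mem_map.2 ⟨_, hm, rfl⟩)
  constructor
  · rintro rfl
    obtain ⟨ls, hp, hs, -⟩ := hq.sat hro (fun _ _ => false)
    have h5 : rowCol n (inp (mat q fun _ _ => false)) = true := (hc _).2 ⟨ls, hp, hs⟩
    rw [rowCol_inp] at h5
    obtain ⟨⟨i, hi⟩, -⟩ := h5
    have := hi c
    simp [mat, h3] at this
  · rintro rfl
    obtain ⟨ls, hp, hs, -⟩ := hq.sat hro (fun _ _ => true)
    have h5 : G (mat q fun _ _ => true) := by
      refine ⟨⟨a, fun j => ?_⟩, ⟨c, fun i => ?_⟩⟩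
      · simp [mat, h4]
      · simp [mat, h3]
    rw [← rowCol_inp, hc] at h5
    obtain ⟨ms, hm, hsm⟩ := h5
    obtain ⟨ks, hk, -, -⟩ := det_split hdet _ hp hs hm hsm
    generalize hacc : P.accept = t at hk
    cases hk with
    | nil _ => exact P.accept_ne_reject hacc
    | cons he _ => exact P.not_edge_reject _ _ he

lemma extend {P : BP n} (hdet : P.Deterministic) (hro : P.ReadOnce)
    (hc : P.Computes (rowCol n))
    {q : List ((Fin (Nat.sqrt n) × Fin (Nat.sqrt n)) × Bool)}
    (hlen : q.length + 2 ≤ Nat.sqrt n) (v : P.V) :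
    Walk P P.source q v → ∃ c, ∀ b, ∃ v', Walk P v [(c, b)] v' := by
  induction v using P.wf.induction with
  | _ v ih =>
    intro hq
    obtain ⟨h1, h2⟩ := not_sink hdet hro hc hq hlen
    obtain ⟨i, w₀, w₁, hE⟩ := hdet v h1 h2
    have e0 : P.edge v (some (i, false)) w₀ := (hE _ _).2 (Or.inl ⟨rfl, rfl⟩)
    have e1 : P.edge v (some (i, true)) w₁ := (hE _ _).2 (Or.inr ⟨rfl, rfl⟩)
    by_cases hcell : ∃ a c, i = cell n a c
    · obtain ⟨a, c, rfl⟩ := hcell
      refine ⟨(a, c), fun b => ?_⟩
      cases b with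
      | false => exact ⟨w₀, Walk.test e0 (Walk.nil _)⟩
      | true => exact ⟨w₁, Walk.test e1 (Walk.nil _)⟩
    · push Not at hcell
      have hq' : Walk P P.source q w₁ := by
        have := hq.trans (Walk.skip e1 hcell (Walk.nil _))
        simpa using this
      obtain ⟨c, hc'⟩ := ih w₁ ⟨_, e1⟩ hq'
      refine ⟨c, fun b => ?_⟩
      obtain ⟨v', hv'⟩ := hc' b
      exact ⟨v', Walk.skip e1 hcell hv'⟩

lemma exists_walk {P : BP n} (hdet : P.Deterministic) (hro : P.ReadOnce)
    (hc : P.Computes (rowCol n)) (w : List Bool) (hlen : w.length + 2 ≤ Nat.sqrt n) :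
    ∃ q v, q.map Prod.snd = w ∧ Walk P P.source q v := by
  induction w using List.reverseRecOn with
  | nil => exact ⟨[], P.source, rfl, Walk.nil _⟩
  | append_singleton w b ih =>
    rw [List.length_append, List.length_singleton] at hlen
    obtain ⟨q, v, hqw, hq⟩ := ih (by omega)
    have hl : q.length = w.length := by rw [← hqw, List.length_map]
    obtain ⟨c, hc'⟩ := extend hdet hro hc (q := q) (by omega) v hq
    obtain ⟨v', hv'⟩ := hc' b
    exact ⟨q ++ [(c, b)], v', by simp [hqw], hq.trans hv'⟩

lemma walk_unique {P : BP n} (hdet : P.Deterministic)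
    (ans : Fin (Nat.sqrt n) × Fin (Nat.sqrt n) → Bool) {u v : P.V}
    {q : List ((Fin (Nat.sqrt n) × Fin (Nat.sqrt n)) × Bool)} (hq : Walk P u q v) :
    ∀ {r : List ((Fin (Nat.sqrt n) × Fin (Nat.sqrt n)) × Bool)} {v' : P.V},
      Walk P u r v' → (∀ cb ∈ q, cb.2 = ans cb.1) → (∀ cb ∈ r, cb.2 = ans cb.1) →
      q.length = r.length → q = r := by
  induction hq with
  | nil v =>
    intro r v' _ _ _ hl
    exact (List.length_eq_zero_iff.1 hl.symm).symm
  | @skip u w v i q he hi hq ih =>
    intro r v' hr h1 h2 hl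
    have hua : u ≠ P.accept := by
      rintro rfl
      exact P.not_edge_accept _ _ he
    have hur : u ≠ P.reject := by
      rintro rfl
      exact P.not_edge_reject _ _ he
    obtain ⟨i', w₀, w₁, hE⟩ := hdet u hua hur
    cases hr with
    | nil _ => exact List.length_eq_zero_iff.1 hl
    | @skip _ w' _ i'' _ he' hi' hr' =>
      have e1 := (hE _ _).1 he
      have e2 := (hE _ _).1 he'
      simp only [Option.some.injEq, Prod.mk.injEq] at e1 e2
      have : w = w' := by
        rcases e1 with ⟨⟨_, h⟩, _⟩ | ⟨⟨_, _⟩, h3⟩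
        · exact absurd h (by simp)
        · rcases e2 with ⟨⟨_, h⟩, _⟩ | ⟨⟨_, _⟩, h4⟩
          · exact absurd h (by simp)
          · rw [h3, h4]
      subst this
      exact ih hr' h1 h2 hl
    | @test _ w' _ c b r he' hr' =>
      exfalso
      have e1 := (hE _ _).1 he
      have e2 := (hE _ _).1 he'
      simp only [Option.some.injEq, Prod.mk.injEq] at e1 e2
      have h3 : i = i' := by
        rcases e1 with ⟨⟨h, _⟩, _⟩ | ⟨⟨h, _⟩, _⟩ <;> exact h
      have h4 : cell n c.1 c.2 = i' := by
        rcases e2 with ⟨⟨h, _⟩, _⟩ | ⟨⟨h, _⟩, _⟩ <;> exact h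
      exact hi _ _ (h3.trans h4.symm)
  | @test u w v c b q he hq ih =>
    intro r v' hr h1 h2 hl
    have hua : u ≠ P.accept := by
      rintro rfl
      exact P.not_edge_accept _ _ he
    have hur : u ≠ P.reject := by
      rintro rfl
      exact P.not_edge_reject _ _ he
    obtain ⟨i', w₀, w₁, hE⟩ := hdet u hua hur
    cases hr with
    | nil _ => simp at hl
    | @skip _ w' _ i'' _ he' hi' hr' =>
      exfalso
      have e1 := (hE _ _).1 he
      have e2 := (hE _ _).1 he'
      simp only [Option.some.injEq, Prod.mk.injEq] at e1 e2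
      have h3 : cell n c.1 c.2 = i' := by
        rcases e1 with ⟨⟨h, _⟩, _⟩ | ⟨⟨h, _⟩, _⟩ <;> exact h
      have h4 : i'' = i' := by
        rcases e2 with ⟨⟨h, _⟩, _⟩ | ⟨⟨h, _⟩, _⟩ <;> exact h
      exact hi' _ _ (h4.trans h3.symm)
    | @test _ w' _ c' b' r he' hr' =>
      have e1 := (hE _ _).1 he
      have e2 := (hE _ _).1 he'
      simp only [Option.some.injEq, Prod.mk.injEq] at e1 e2
      have h3 : cell n c.1 c.2 = i' := by
        rcases e1 with ⟨⟨h, _⟩, _⟩ | ⟨⟨h, _⟩, _⟩ <;> exact h
      have h4 : cell n c'.1 c'.2 = i' := by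
        rcases e2 with ⟨⟨h, _⟩, _⟩ | ⟨⟨h, _⟩, _⟩ <;> exact h
      obtain ⟨h5, h6⟩ := cell_inj n (h3.trans h4.symm)
      have hcc : c = c' := Prod.ext h5 h6
      subst hcc
      have hb : b = b' := by
        have h7 := h1 _ List.mem_cons_self
        have h8 := h2 _ List.mem_cons_self
        simp only at h7 h8
        rw [h7, h8]
      subst hb
      have hw : w = w' := by
        rcases e1 with ⟨⟨_, h7⟩, h9⟩ | ⟨⟨_, h7⟩, h9⟩ <;>
          rcases e2 with ⟨⟨_, h8⟩, h10⟩ | ⟨⟨_, h8⟩, h10⟩
        · rw [h9, h10]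
        · rw [h7] at h8; exact absurd h8 (by simp)
        · rw [h7] at h8; exact absurd h8 (by simp)
        · rw [h9, h10]
      subst hw
      have := ih hr' (fun cb h => h1 cb (List.mem_cons_of_mem _ h))
        (fun cb h => h2 cb (List.mem_cons_of_mem _ h)) (by simpa using hl)
      rw [this]

/-- The zeros recorded in a list of tests. -/
def zeros {d : ℕ} (q : List ((Fin d × Fin d) × Bool)) : Finset (Fin d × Fin d) :=
  ((q.filter (fun cb => !cb.2)).map Prod.fst).toFinset

lemma mem_zeros {d : ℕ} (q : List ((Fin d × Fin d) × Bool)) (c : Fin d × Fin d) :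
    c ∈ zeros q ↔ (c, false) ∈ q := by
  simp [zeros]

lemma card_zeros {d : ℕ} (q : List ((Fin d × Fin d) × Bool)) (h : (q.map Prod.fst).Nodup) :
    (zeros q).card = (q.map Prod.snd).count false := by
  unfold zeros
  rw [List.toFinset_card_of_nodup]
  · rw [List.length_map, List.count, List.countP_map, List.countP_eq_length_filter]
    congr 1
    apply List.filter_congr
    rintro ⟨c, b⟩ _
    cases b <;> simp
  · exact h.sublist (List.filter_sublist.map _)

/-- The word of answers of length `k` which is `0` exactly at the positions in `S`. -/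
def word {k : ℕ} (S : Finset (Fin k)) : List Bool :=
  (List.finRange k).map (fun t => decide (t ∉ S))

lemma count_word {k : ℕ} (S : Finset (Fin k)) : (word S).count false = S.card := by
  unfold word
  rw [List.count, List.countP_map, List.countP_eq_length_filter]
  rw [← List.toFinset_card_of_nodup ((List.nodup_finRange k).filter _)]
  congr 1
  ext t
  simp

lemma word_inj {k : ℕ} {S T : Finset (Fin k)} (h : word S = word T) : S = T := by
  unfold word at h
  rw [List.map_inj_left] at h
  ext t
  have := h t (List.mem_finRange t)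
  simp only [decide_eq_decide] at this
  exact not_iff_not.1 this

lemma desc_le (m a b : ℕ) (hab : 2 * a ≤ b) :
    2 ^ m * a.descFactorial m ≤ b.descFactorial m := by
  induction m with
  | zero => simp
  | succ m ih =>
    rw [Nat.descFactorial_succ, Nat.descFactorial_succ]
    calc 2 ^ (m + 1) * ((a - m) * a.descFactorial m)
        = (2 * (a - m)) * (2 ^ m * a.descFactorial m) := by ring
      _ ≤ (b - m) * b.descFactorial m := Nat.mul_le_mul (by omega) ih

lemma choose_bound (z : ℕ) : 2 ^ z * (z ^ 2).choose z ≤ (2 * z ^ 2).choose z := by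
  have h := desc_le z (z ^ 2) (2 * z ^ 2) le_rfl
  rw [Nat.descFactorial_eq_factorial_mul_choose, Nat.descFactorial_eq_factorial_mul_choose] at h
  have hp : 0 < z.factorial := Nat.factorial_pos z
  refine Nat.le_of_mul_le_mul_left ?_ hp
  calc z.factorial * (2 ^ z * (z ^ 2).choose z)
      = 2 ^ z * (z.factorial * (z ^ 2).choose z) := by ring
    _ ≤ _ := h

theorem lower (z : ℕ) (hz : 4 * z ^ 2 + 2 ≤ Nat.sqrt n) (P : BP n) (hdet : P.Deterministic)
    (hro : P.ReadOnce) (hc : P.Computes (rowCol n)) : 2 ^ z ≤ P.size := by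
  classical
  have hw : ∀ S : Finset (Fin (2 * z ^ 2)), (word S).length = 2 * z ^ 2 := by
    intro S; simp [word]
  have hex : ∀ S : Finset (Fin (2 * z ^ 2)), ∃ q v, q.map Prod.snd = word S ∧
      Walk P P.source q v := by
    intro S
    apply exists_walk hdet hro hc
    rw [hw]
    omega
  choose q v hq hwalk using hex
  have hlen : ∀ S, (q S).length = 2 * z ^ 2 := by
    intro S
    rw [← hw S, ← hq S, List.length_map]
  have hcard : ∀ S, (zeros (q S)).card = S.card := by
    intro S
    rw [card_zeros _ ((hwalk S).nodup hro), hq, count_word]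
  have hans : ∀ S, ∀ cb ∈ q S, cb.2 = decide (cb.1 ∉ zeros (q S)) := by
    rintro S ⟨c, b⟩ hcb
    cases b with
    | false => simp [mem_zeros, hcb]
    | true =>
      have : (c, false) ∉ q S := by
        intro h
        exact absurd ((hwalk S).consistent hro h hcb) (by simp)
      simp [mem_zeros, this]
  have hinj : ∀ S T, zeros (q S) = zeros (q T) → S = T := by
    intro S T hST
    apply word_inj
    rw [← hq S, ← hq T]
    congr 1
    refine walk_unique hdet (fun c => decide (c ∉ zeros (q S))) (hwalk S) (hwalk T) (hans S) ?_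
      ((hlen S).trans (hlen T).symm)
    rw [hST]
    exact hans T
  have hlen2 : ∀ S T, (q S).length + (q T).length + 2 ≤ Nat.sqrt n := by
    intro S T
    rw [hlen, hlen]
    omega
  have hfib : ∀ a ∈ (Finset.powersetCard z (Finset.univ : Finset (Fin (2 * z ^ 2)))).image v,
      ((Finset.powersetCard z (Finset.univ : Finset (Fin (2 * z ^ 2)))).filter
        (fun S => v S = a)).card ≤ (z ^ 2).choose z := by
    intro a ha
    obtain ⟨S₀, hS₀, rfl⟩ := Finset.mem_image.1 ha
    have hS₀c : S₀.card = z := (Finset.mem_powersetCard.1 hS₀).2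
    let I := (zeros (q S₀)).image Prod.fst
    let J := (zeros (q S₀)).image Prod.snd
    have hI : I.card ≤ z := le_trans Finset.card_image_le (by rw [hcard, hS₀c])
    have hJ : J.card ≤ z := le_trans Finset.card_image_le (by rw [hcard, hS₀c])
    have h1 : ((Finset.powersetCard z (Finset.univ : Finset (Fin (2 * z ^ 2)))).filter
        (fun S => v S = v S₀)).card ≤ (Finset.powersetCard z (I ×ˢ J)).card := by
      apply Finset.card_le_card_of_injOn (fun S => zeros (q S))
      · intro S hS
        obtain ⟨hS1, hS2⟩ := Finset.mem_filter.1 hS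
        have hSc : S.card = z := (Finset.mem_powersetCard.1 hS1).2
        rw [Finset.mem_coe, Finset.mem_powersetCard]
        refine ⟨?_, by rw [hcard, hSc]⟩
        rintro ⟨i, j⟩ hij
        rw [mem_zeros] at hij
        rw [Finset.mem_product]
        have hwS : Walk P P.source (q S) (v S₀) := hS2 ▸ hwalk S
        obtain ⟨j', hj'⟩ := rows_sub hdet hro hc hwS (hwalk S₀) (hlen2 _ _) i j hij
        obtain ⟨i', hi'⟩ := cols_sub hdet hro hc hwS (hwalk S₀) (hlen2 _ _) i j hij
        exact ⟨Finset.mem_image.2 ⟨_, (mem_zeros _ _).2 hj', rfl⟩,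
          Finset.mem_image.2 ⟨_, (mem_zeros _ _).2 hi', rfl⟩⟩
      · intro S _ T _ hST
        exact hinj S T hST
    refine le_trans h1 ?_
    rw [Finset.card_powersetCard, Finset.card_product]
    apply Nat.choose_le_choose
    nlinarith
  have h2 := Finset.card_le_mul_card_image
    (Finset.powersetCard z (Finset.univ : Finset (Fin (2 * z ^ 2)))) _ hfib
  rw [Finset.card_powersetCard, Finset.card_univ, Fintype.card_fin] at h2
  have h3 : ((Finset.powersetCard z (Finset.univ : Finset (Fin (2 * z ^ 2)))).image v).card ≤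
      P.size := by
    exact @Finset.card_le_univ P.V P.fin _
  have h4 := choose_bound z
  have h5 : 0 < (z ^ 2).choose z := by
    apply Nat.choose_pos
    exact Nat.le_self_pow (by norm_num) z
  have h6 : (z ^ 2).choose z * 2 ^ z ≤ (z ^ 2).choose z * P.size := by
    calc (z ^ 2).choose z * 2 ^ z = 2 ^ z * (z ^ 2).choose z := by ring
      _ ≤ (2 * z ^ 2).choose z := h4
      _ ≤ _ := h2
      _ ≤ _ := Nat.mul_le_mul_left _ h3
  exact Nat.le_of_mul_le_mul_left h6 h5

lemma growth (C k : ℕ) : ∃ z : ℕ, 1 ≤ z ∧ C * ((4 * z ^ 2 + 2) ^ 2) ^ k < 2 ^ z := by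
  have h1 := tendsto_pow_const_div_const_pow_of_one_lt (4 * k) (r := (2 : ℝ)) (by norm_num)
  have h2 : (0 : ℝ) < 1 / (C * 36 ^ k + 1) := by positivity
  have h3 := (h1.eventually (gt_mem_nhds h2)).and (Filter.eventually_ge_atTop 1)
  obtain ⟨z, hz1, hz2⟩ := h3.exists
  refine ⟨z, hz2, ?_⟩
  have h4 : (0 : ℝ) < 2 ^ z := by positivity
  have h5 : (0 : ℝ) < C * 36 ^ k + 1 := by positivity
  rw [div_lt_div_iff₀ h4 h5] at hz1
  have h6 : (z ^ (4 * k) * (C * 36 ^ k + 1) : ℕ) < 2 ^ z := by
    have : ((z ^ (4 * k) * (C * 36 ^ k + 1) : ℕ) : ℝ) < ((2 ^ z : ℕ) : ℝ) := by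
      push_cast
      linarith
    exact_mod_cast this
  have h7 : (4 * z ^ 2 + 2) ^ 2 ≤ 36 * z ^ 4 := by
    have : 4 * z ^ 2 + 2 ≤ 6 * z ^ 2 := by nlinarith
    calc (4 * z ^ 2 + 2) ^ 2 ≤ (6 * z ^ 2) ^ 2 := Nat.pow_le_pow_left this 2
      _ = 36 * z ^ 4 := by ring
  calc C * ((4 * z ^ 2 + 2) ^ 2) ^ k ≤ C * (36 * z ^ 4) ^ k :=
        Nat.mul_le_mul_left _ (Nat.pow_le_pow_left h7 k)
    _ = z ^ (4 * k) * (C * 36 ^ k) := by rw [mul_pow, ← pow_mul]; ring
    _ ≤ z ^ (4 * k) * (C * 36 ^ k + 1) := Nat.mul_le_mul_left _ (Nat.le_succ _)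
    _ < 2 ^ z := h6

/-- `Σ₂^p` contains a separating function: the row-and-column function has polynomial-size DNFs,
both it and its negation have polynomial-size nondeterministic read-once branching programs, but it
has no polynomial-size deterministic read-once branching programs; in fact all such programs for it
have at least `2 ^ z` nodes whenever `(4 z² + 2)² ≤ n`. -/
theorem main : PolyDNF rowCol ∧ Separating rowCol ∧
    ∀ n z : ℕ, (4 * z ^ 2 + 2) ^ 2 ≤ n → ∀ P : BP n,
      P.Deterministic → P.ReadOnce → P.Computes (rowCol n) → 2 ^ z ≤ P.size := by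
  have hlow : ∀ n z : ℕ, (4 * z ^ 2 + 2) ^ 2 ≤ n → ∀ P : BP n,
      P.Deterministic → P.ReadOnce → P.Computes (rowCol n) → 2 ^ z ≤ P.size := by
    intro n z h P h1 h2 h3
    exact lower z (Nat.le_sqrt'.2 h) P h1 h2 h3
  refine ⟨⟨1, 1, ?_⟩, ⟨⟨5, 2, ?_⟩, ⟨5, 1, ?_⟩, ?_⟩, hlow⟩
  · intro n _
    obtain ⟨D, h1, h2⟩ := rowCol_dnf n
    exact ⟨D, by simpa using h1, h2⟩
  · intro n hn
    exact rowCol_nbp n hn
  · intro n hn
    obtain ⟨P, h1, h2, h3⟩ := rowCol_neg_nbp n hn
    exact ⟨P, h1, h2, by simpa using h3⟩
  · rintro ⟨C, k, h⟩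
    obtain ⟨z, _, hz⟩ := growth C k
    obtain ⟨P, h1, h2, h3, h4⟩ := h ((4 * z ^ 2 + 2) ^ 2) (Nat.one_le_pow _ _ (by omega))
    have := hlow _ z le_rfl P h1 h2 h3
    omega

end Pool.Agent.Lib_helper29.SepBP
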