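import Mathlib
import Pool.Agent.Lib_helper29.QuasiDefs
import Pool.Agent.Lib_helper29.SepBPProofs

set_option autoImplicit false

namespace Pool.Agent.Lib_helper29.SepBP

variable {n : ℕ}

/-! ### Read-once on computation paths is the same as read-once -/

lemma BP.reachable (P : BP n) (v : P.V) (hv : ∃ l w, P.edge v l w) :
    ∃ ls, P.Path P.source ls v := by
  have hwf : WellFounded (fun u w : P.V => ∃ l, P.edge u l w) := by
    have := P.fin
    have : Finite P.V := Finite.of_fintype _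
    let r : P.V → P.V → Prop := Relation.TransGen (fun u w => ∃ l, P.edge u l w)
    have : IsTrans P.V r := ⟨fun a b c hab hbc => Relation.TransGen.trans hab hbc⟩
    have : Std.Irrefl r := ⟨fun a h => P.acyclic a h⟩
    have hr : WellFounded r := Finite.wellFounded_of_trans_of_irrefl r
    exact Subrelation.wf (fun h => Relation.TransGen.single h) hr
  induction v using hwf.induction with
  | _ v ih =>
    by_cases hs : v = P.source
    · exact ⟨[], hs ▸ BP.Path.nil _⟩
    · by_cases hin : ∀ u l, ¬ P.edge u l v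
      · exfalso
        obtain ⟨l, w, hvw⟩ := hv
        rcases P.only_source v hin with h | h | h
        · exact hs h
        · rw [h] at hvw; exact P.not_edge_accept _ _ hvw
        · rw [h] at hvw; exact P.not_edge_reject _ _ hvw
      · push Not at hin
        obtain ⟨u, l, hul⟩ := hin
        obtain ⟨ls, hls⟩ := ih u ⟨l, hul⟩ ⟨l, v, hul⟩
        exact ⟨ls ++ [l], hls.trans (BP.Path.cons hul (BP.Path.nil _))⟩

lemma exists_sat (ls : List (Option (Fin n × Bool))) (h : (tests ls).Nodup) :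
    ∃ x, Sat x ls := by
  induction ls with
  | nil => exact ⟨fun _ => true, fun i b h => by simp at h⟩
  | cons l ls ih =>
    rcases l with _ | ⟨i, b⟩
    · rw [tests_none] at h
      obtain ⟨x, hx⟩ := ih h
      refine ⟨x, fun i b hm => hx i b ?_⟩
      simpa using hm
    · rw [tests_some, List.nodup_cons] at h
      obtain ⟨x, hx⟩ := ih h.2
      refine ⟨Function.update x i b, fun i' b' hm => ?_⟩
      rcases List.mem_cons.1 hm with h' | h'
      · simp only [Option.some.injEq, Prod.mk.injEq] at h'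
        obtain ⟨rfl, rfl⟩ := h'
        simp
      · have : i' ≠ i := by
          rintro rfl
          exact h.1 (mem_tests h')
        rw [Function.update_of_ne this]
        exact hx i' b' h'

lemma path_append_inv {P : BP n} {ls ms : List (Option (Fin n × Bool))} :
    ∀ {u v : P.V}, P.Path u (ls ++ ms) v → ∃ w, P.Path u ls w ∧ P.Path w ms v := by
  induction ls with
  | nil => intro u v h; exact ⟨u, BP.Path.nil _, h⟩
  | cons l ls ih =>
    intro u v h
    cases h with
    | cons he hp =>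
      obtain ⟨w, h1, h2⟩ := ih hp
      exact ⟨w, BP.Path.cons he h1, h2⟩

lemma nodup_from_source {P : BP n} (hdet : P.Deterministic) (hro : P.CompReadOnce)
    (ls : List (Option (Fin n × Bool))) :
    ∀ v : P.V, P.Path P.source ls v → (tests ls).Nodup := by
  induction ls using List.reverseRecOn with
  | nil => intro v _; simp [tests]
  | append_singleton ls l ih =>
    intro v hp
    obtain ⟨w, h1, h2⟩ := path_append_inv hp
    have hnd := ih w h1
    obtain ⟨x, hx⟩ := exists_sat ls hnd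
    cases h2 with
    | @cons _ w' _ _ _ he hp' =>
      have ha : w ≠ P.accept := by
        rintro rfl
        exact P.not_edge_accept _ _ he
      have hr : w ≠ P.reject := by
        rintro rfl
        exact P.not_edge_reject _ _ he
      obtain ⟨i, w₀, w₁, hE⟩ := hdet w ha hr
      have hl : tests [l] = [i] := by
        rcases (hE l w').1 he with ⟨h, _⟩ | ⟨h, _⟩ <;> rw [h] <;> simp [tests]
      have key : ∃ w₂, P.edge w (some (i, x i)) w₂ := by
        cases hxi : x i with
        | false => exact ⟨w₀, (hE _ _).2 (Or.inl ⟨rfl, rfl⟩)⟩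
        | true => exact ⟨w₁, (hE _ _).2 (Or.inr ⟨rfl, rfl⟩)⟩
      obtain ⟨w₂, hw₂⟩ := key
      have h3 := hro x w₂ (ls ++ [some (i, x i)])
        (h1.trans (BP.Path.cons hw₂ (BP.Path.nil _))) (by
          intro i' b' hm
          rcases List.mem_append.1 hm with h | h
          · exact hx i' b' h
          · simp only [List.mem_singleton, Option.some.injEq, Prod.mk.injEq] at h
            obtain ⟨rfl, rfl⟩ := h
            rfl)
      have h4 : tests [some (i, x i)] = [i] := by simp [tests]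
      rw [tests_append, h4] at h3
      rw [tests_append, hl]
      exact h3

lemma readOnce_of_comp {P : BP n} (hdet : P.Deterministic) (hro : P.CompReadOnce) :
    P.ReadOnce := by
  intro u v ls hp
  cases hp with
  | nil _ => simp [tests]
  | @cons _ w _ l ls he hp =>
    obtain ⟨ms, hms⟩ := P.reachable u ⟨l, w, he⟩
    have h := nodup_from_source hdet hro _ _ (hms.trans (BP.Path.cons he hp))
    rw [tests_append] at h
    exact h.of_append_right

/-! ### Depth -/

lemma rowCol_sigma2 (n : ℕ) : InDepth (2 * n) 2 true (rowCol n) := by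
  classical
  refine ⟨(Finset.univ : Finset (Fin (Nat.sqrt n) × Fin (Nat.sqrt n))).toList.map
    (fun ij => fun x => decide (∀ l ∈ term n ij, x l.1 = l.2)), ?_, ?_, ?_⟩
  · rw [List.length_map, Finset.length_toList]
    have h1 : Fintype.card (Fin (Nat.sqrt n) × Fin (Nat.sqrt n)) ≤ n := by
      simpa using Nat.sqrt_le n
    rw [Finset.card_univ]
    omega
  · intro h hh
    obtain ⟨ij, -, rfl⟩ := List.mem_map.1 hh
    refine ⟨(term n ij).toList.map (fun l => fun x => decide (x l.1 = l.2)), ?_, ?_, ?_⟩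
    · rw [List.length_map, Finset.length_toList]
      have h1 : (term n ij).card ≤ Nat.sqrt n + Nat.sqrt n := by
        refine le_trans (Finset.card_union_le _ _) ?_
        refine add_le_add ?_ ?_ <;>
        · refine le_trans Finset.card_image_le ?_
          simp
      have h2 := Nat.sqrt_le_self n
      omega
    · intro g hg
      obtain ⟨l, -, rfl⟩ := List.mem_map.1 hg
      exact ⟨l.1, l.2, fun x => by simp⟩
    · intro x
      rw [decide_eq_true_eq, List.forall_mem_map]
      simp only [Finset.mem_toList, decide_eq_true_eq]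
  · intro x
    rw [rowCol_iff]
    simp

lemma sigma_up (s : ℕ) (hs : 1 ≤ s) (g : (Fin n → Bool) → Bool) (h : InDepth s 2 true g) :
    InDepth s 3 true g ∧ InDepth s 3 false g := by
  constructor
  · obtain ⟨L, h1, h2, h3⟩ := h
    refine ⟨L, h1, ?_, h3⟩
    intro g hg
    obtain ⟨M, h4, h5, h6⟩ := h2 g hg
    refine ⟨M, h4, ?_, h6⟩
    intro g' hg'
    refine ⟨[g'], by simpa using hs, ?_, by simp⟩
    intro g'' hg''
    rw [List.mem_singleton] at hg''
    subst hg''
    exact h5 _ hg'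
  · exact ⟨[g], by simpa using hs, by simpa using h, by simp⟩

/-! ### Growth -/

lemma growth_quasi (c : ℝ) : ∀ᶠ n : ℕ in Filter.atTop,
    ∃ z : ℕ, (4 * z ^ 2 + 2) ^ 2 ≤ n ∧ Real.logb 2 n ^ c < z := by
  -- `z = ⌈(logb 2 n)^c⌉ + 1`
  have h1 : (fun x : ℝ => Real.log x ^ c) =o[Filter.atTop] (fun x : ℝ => x ^ ((1 : ℝ) / 8)) :=
    isLittleO_log_rpow_rpow_atTop c (by norm_num)
  have h2 : Filter.Tendsto (fun n : ℕ => (n : ℝ)) Filter.atTop Filter.atTop :=
    tendsto_natCast_atTop_atTop
  have h3 := h1.comp_tendsto h2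
  have hlog2 : (0 : ℝ) < Real.log 2 := Real.log_pos (by norm_num)
  have hK : (0 : ℝ) < (Real.log 2) ^ c := Real.rpow_pos_of_pos hlog2 c
  have h4 := h3.bound hK
  have h5 : ∀ᶠ n : ℕ in Filter.atTop, (6 : ℝ) ^ 8 ≤ n :=
    h2.eventually (Filter.eventually_ge_atTop _)
  filter_upwards [h4, h5] with n h6 h7
  have hn1 : (1 : ℝ) ≤ n := le_trans (by norm_num) h7
  have hn0 : (0 : ℝ) ≤ n := le_trans zero_le_one hn1
  have hlogn : 0 ≤ Real.log n := Real.log_nonneg hn1
  simp only [Function.comp_apply] at h6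
  have e1 : ‖Real.log n ^ c‖ = Real.log n ^ c := by
    rw [Real.norm_eq_abs, abs_of_nonneg (Real.rpow_nonneg hlogn c)]
  have e2 : ‖(n : ℝ) ^ ((1 : ℝ) / 8)‖ = (n : ℝ) ^ ((1 : ℝ) / 8) := by
    rw [Real.norm_eq_abs, abs_of_nonneg (Real.rpow_nonneg hn0 _)]
  rw [e1, e2] at h6
  set t : ℝ := (n : ℝ) ^ ((1 : ℝ) / 8) with ht
  have ht8 : t ^ 8 = n := by
    rw [ht, ← Real.rpow_natCast, ← Real.rpow_mul hn0]
    norm_num
  have ht6 : (6 : ℝ) ≤ t := by
    by_contra hlt
    push Not at hlt
    have ht0 : 0 ≤ t := Real.rpow_nonneg hn0 _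
    have : t ^ 8 < 6 ^ 8 := pow_lt_pow_left₀ hlt ht0 (by norm_num)
    linarith
  have hb : Real.logb 2 n ^ c ≤ t := by
    rw [Real.logb, Real.div_rpow hlogn hlog2.le, div_le_iff₀ hK]
    linarith
  refine ⟨⌊t⌋₊ + 1, ?_, ?_⟩
  · have h8 : ((⌊t⌋₊ + 1 : ℕ) : ℝ) ≤ t + 1 := by
      push_cast
      have := Nat.floor_le (le_trans (by norm_num) ht6 : (0 : ℝ) ≤ t)
      linarith
    have h9 : ((4 * (⌊t⌋₊ + 1) ^ 2 + 2 : ℕ) : ℝ) ≤ 6 * (t + 1) ^ 2 := by
      push_cast
      push_cast at h8
      have h10 : (0 : ℝ) ≤ (⌊t⌋₊ : ℝ) + 1 := by positivity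
      nlinarith
    have h11 : (((4 * (⌊t⌋₊ + 1) ^ 2 + 2) ^ 2 : ℕ) : ℝ) ≤ n := by
      rw [Nat.cast_pow]
      calc (((4 * (⌊t⌋₊ + 1) ^ 2 + 2 : ℕ)) : ℝ) ^ 2 ≤ (6 * (t + 1) ^ 2) ^ 2 :=
            pow_le_pow_left₀ (Nat.cast_nonneg _) h9 2
        _ ≤ (t ^ 4) ^ 2 := by
            apply pow_le_pow_left₀ (by positivity)
            have h12 : t + 1 ≤ 7 / 6 * t := by linarith
            have h13 : (t + 1) ^ 2 ≤ (7 / 6 * t) ^ 2 :=
              pow_le_pow_left₀ (by linarith) h12 2
            have h14 : (36 : ℝ) ≤ t ^ 2 := by nlinarith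
            have h15 : (0 : ℝ) ≤ t ^ 2 := by positivity
            nlinarith
        _ = t ^ 8 := by ring
        _ = n := ht8
    exact_mod_cast h11
  · push_cast
    have := Nat.lt_floor_add_one t
    linarith

theorem quasi_main : SigmaP 2 rowCol ∧ SigmaP 3 rowCol ∧ PiP 3 rowCol ∧ SeparatesQuasi rowCol ∧
    ∀ n z : ℕ, (4 * z ^ 2 + 2) ^ 2 ≤ n → ∀ P : BP n,
      P.Deterministic → P.CompReadOnce → P.Computes (rowCol n) → 2 ^ z ≤ P.size := by
  have hlow : ∀ n z : ℕ, (4 * z ^ 2 + 2) ^ 2 ≤ n → ∀ P : BP n,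
      P.Deterministic → P.CompReadOnce → P.Computes (rowCol n) → 2 ^ z ≤ P.size := by
    intro n z h P h1 h2 h3
    exact main.2.2 n z h P h1 (readOnce_of_comp h1 h2) h3
  have h2 : ∀ n : ℕ, InDepth (2 * n ^ 1) 2 true (rowCol n) := by
    intro n
    rw [pow_one]
    exact rowCol_sigma2 n
  have hup : ∀ n ≥ 1, InDepth (2 * n ^ 1) 3 true (rowCol n) ∧
      InDepth (2 * n ^ 1) 3 false (rowCol n) := by
    intro n hn
    exact sigma_up _ (by rw [pow_one]; omega) _ (h2 n)
  refine ⟨⟨2, 1, fun n _ => h2 n⟩, ⟨2, 1, fun n hn => (hup n hn).1⟩,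
    ⟨2, 1, fun n hn => (hup n hn).2⟩, ⟨main.2.1.1, main.2.1.2.1, ?_⟩, hlow⟩
  intro c
  filter_upwards [growth_quasi c] with n hn P h1 h2 h3
  obtain ⟨z, hz1, hz2⟩ := hn
  have h4 := hlow n z hz1 P h1 h2 h3
  calc (2 : ℝ) ^ (Real.logb 2 n ^ c) < (2 : ℝ) ^ (z : ℝ) :=
        Real.rpow_lt_rpow_of_exponent_lt (by norm_num) hz2
    _ = ((2 ^ z : ℕ) : ℝ) := by rw [Real.rpow_natCast]; norm_cast
    _ ≤ (P.size : ℝ) := by exact_mod_cast h4

end Pool.Agent.Lib_helper29.SepBP
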